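import Pool.Agent.Work.MP_46935e_lc.GW.Stmts

/-! # Item App -/

set_option autoImplicit false

noncomputable section

namespace Pool.Agent.GW

open Pool.Agent.RO Pool.Agent.S1 Pool.Agent.PT Pool.Agent.Work.MP_46935e_lc N68a2faeb

theorem prf_App (hLen : StLen) : StApp := by
  intro α β Q Q' Q₂ O x x₂ n h1 h2
  have h3 : ∀ i, i ≤ n → qans Q' O x i = qans Q O x i := by
    intro i
    induction i with
    | zero => intro _; rfl
    | succ i ih =>
      intro hi
      have hl : (qans Q O x i).length = i := (hLen α Q O x i).1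
      show qans Q' O x i ++ [O (Q' (x, qans Q' O x i))] = qans Q O x i ++ [O (Q (x, qans Q O x i))]
      rw [ih (by omega), h1 (qans Q O x i) (by omega)]
  intro m
  induction m with
  | zero =>
    show qans Q' O x n = qans Q O x n ++ []
    rw [List.append_nil, h3 n le_rfl]
  | succ m ih =>
    show qans Q' O x (n + m) ++ [O (Q' (x, qans Q' O x (n + m)))] =
      qans Q O x n ++ (qans Q₂ O x₂ m ++ [O (Q₂ (x₂, qans Q₂ O x₂ m))])
    rw [ih, h2, List.append_assoc]

end Pool.Agent.GW
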