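import Pool.Agent.Work.MP_46935e_lc.GW.Stmts

/-!
# Block GW, MP_46935e_lc, item Bnd: polynomial bounds for the output and the queries of a machine
-/

set_option autoImplicit false

noncomputable section

namespace Pool.Agent.GW

open Pool.Agent.RO Pool.Agent.S1 Pool.Agent.PT Pool.Agent.Work.MP_46935e_lc N68a2faeb

namespace Bndg

/-- the size of the input and of the first answers -/
theorem size_le (hLen : StLen) (M : Mach) (O : World) (z : Str) (i n : ℕ) (hi : i ≤ n) :
    sz (z, qans M.Q O z i) ≤ 4 * z.length + 4 * n + 3 := by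
  have h1 := sz_bits z
  have h2 := sz_bits (qans M.Q O z i)
  rw [(hLen Str M.Q O z i).1] at h2
  rw [sz_pair]
  omega

end Bndg

open Polynomial in
theorem prf_Bnd (hLen : StLen) : StBnd := by
  intro M
  obtain ⟨k1, h1⟩ := M.hout.size
  obtain ⟨k2, h2⟩ := M.hQ.size
  set N' : Polynomial ℕ := M.N.comp (4 * X + 1) with hN'
  refine ⟨N' + (4 * X + 4 * N' + 3 + 2) ^ k1 + (4 * X + 4 * N' + 3 + 2) ^ k2, ?_⟩
  intro O z
  have hn : M.N.eval (sz z) ≤ N'.eval z.length := by
    rw [hN', eval_comp]
    apply Pool.Agent.RO.eval_mono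
    have := sz_bits z
    simpa using this
  have hev : (N' + (4 * X + 4 * N' + 3 + 2) ^ k1 + (4 * X + 4 * N' + 3 + 2) ^ k2).eval z.length =
      N'.eval z.length + (4 * z.length + 4 * N'.eval z.length + 3 + 2) ^ k1 +
        (4 * z.length + 4 * N'.eval z.length + 3 + 2) ^ k2 := by
    simp
  rw [hev]
  refine ⟨?_, ?_, ?_⟩
  · have e1 : (M.run O z).length ≤ (4 * z.length + 4 * N'.eval z.length + 3 + 2) ^ k1 := by
      unfold Mach.run
      refine (length_le_sz _).trans ((h1 _).trans (Nat.pow_le_pow_left ?_ _))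
      have := Bndg.size_le hLen M O z (M.N.eval (sz z)) (N'.eval z.length) hn
      omega
    omega
  · have e2 : (M.qs O z).length = M.N.eval (sz z) := by
      unfold Mach.qs
      rw [List.length_map, List.length_range]
    omega
  · intro q hq
    unfold Mach.qs at hq
    rw [List.mem_map] at hq
    obtain ⟨i, hi, rfl⟩ := hq
    rw [List.mem_range] at hi
    have e1 : (M.Q (z, qans M.Q O z i)).length ≤
        (4 * z.length + 4 * N'.eval z.length + 3 + 2) ^ k2 := by
      refine (length_le_sz _).trans ((h2 _).trans (Nat.pow_le_pow_left ?_ _))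
      have := Bndg.size_le hLen M O z i (N'.eval z.length) (hi.le.trans hn)
      omega
    omega

end Pool.Agent.GW
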