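import Pool.Agent.Work.MP_46935e_lc.GW.Stmts

/-!
# Block GW, item Cgr: congruence
-/

set_option autoImplicit false

namespace Pool.Agent.GW

open Pool.Agent.RO Pool.Agent.S1 Pool.Agent.PT Pool.Agent.Work.MP_46935e_lc N68a2faeb

/-- the answers depend only on the values of the oracle at the queries -/
theorem prf_Cgr : StCgr := by
  intro α Q O O' x n h i
  induction i with
  | zero =>
    intro _
    rfl
  | succ i ih =>
    intro hi
    have h1 := ih (by omega)
    show qans Q O' x i ++ [O' (Q (x, qans Q O' x i))] = qans Q O x i ++ [O (Q (x, qans Q O x i))]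
    rw [h1, h i (by omega)]

end Pool.Agent.GW
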