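import Pool.Agent.Work.MP_46935e_lc.GW.Stmts

/-!
# Block GW, MP_46935e_lc, item Clo: the worlds for which a reduction is good form a closed set
-/

set_option autoImplicit false

noncomputable section

namespace Pool.Agent.GW

open Pool.Agent.RO Pool.Agent.S1 Pool.Agent.PT Pool.Agent.Work.MP_46935e_lc N68a2faeb
open Topology Filter

namespace Clog

theorem ev_val (G : World) (q : Str) : ∀ᶠ G' : World in 𝓝 G, G' q = G q := by
  have h : Continuous (fun G' : World => G' q) := continuous_apply q
  have h2 : ∀ᶠ b in 𝓝 (G q), b = G q := by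
    rw [nhds_discrete]
    exact Filter.eventually_pure.2 rfl
  exact (h.tendsto G).eventually h2

theorem ev_join (C G : World) (q : Str) :
    ∀ᶠ G' : World in 𝓝 G, join G' C q = join G C q := by
  match q with
  | [] => exact Filter.Eventually.of_forall fun _ => rfl
  | true :: w => exact ev_val G w
  | false :: z => exact Filter.Eventually.of_forall fun _ => rfl

theorem ev_run (hLoc : StLoc) (M : Mach) (C G : World) (z : Str) :
    ∀ᶠ G' : World in 𝓝 G, M.run (join G' C) z = M.run (join G C) z := by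
  have h : ∀ᶠ G' : World in 𝓝 G, ∀ q ∈ {q | q ∈ M.qs (join G C) z},
      join G' C q = join G C q :=
    (Filter.eventually_all_finite (List.finite_toSet _)).2 fun q _ => ev_join C G q
  exact h.mono fun G' hG => (hLoc M _ _ z hG).1

/-- all the runs on the short candidates are the same near `G` -/
theorem ev_runs (hLoc : StLoc) (M : Mach) (C G : World) (x : Str) (n : ℕ) :
    ∀ᶠ G' : World in 𝓝 G, ∀ w : Str, w.length ≤ n →
      M.run (join G' C) (pr x w) = M.run (join G C) (pr x w) := by
  have h : ∀ᶠ G' : World in 𝓝 G, ∀ w ∈ {w : Str | w.length ≤ n},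
      M.run (join G' C) (pr x w) = M.run (join G C) (pr x w) :=
    (Filter.eventually_all_finite (List.finite_length_le Bool n)).2 fun w _ =>
      ev_run hLoc M C G (pr x w)
  exact h

/-- all the colours of the short candidates are the same near `G` -/
theorem ev_cols (G : World) (x : Str) (n m : ℕ) :
    ∀ᶠ G' : World in 𝓝 G, ∀ w : Str, w.length ≤ n → G' (cpos m x w) = G (cpos m x w) := by
  have h : ∀ᶠ G' : World in 𝓝 G, ∀ w ∈ {w : Str | w.length ≤ n},
      G' (cpos m x w) = G (cpos m x w) :=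
    (Filter.eventually_all_finite (List.finite_length_le Bool n)).2 fun w _ =>
      ev_val G (cpos m x w)
  exact h

end Clog

open Clog in
theorem prf_Clo (hLoc : StLoc) : StClo := by
  intro D P C
  rw [isClosed_iff_frequently]
  intro G hG
  refine ⟨?_, ?_, ?_⟩
  · intro x
    obtain ⟨G', h1, h2⟩ := (hG.and_eventually
      (ev_runs hLoc D.R C G x (D.pR.eval x.length))).exists
    obtain ⟨w, hw1, hw2⟩ := (h1 : Good D P C G').total x
    exact ⟨w, hw1, by rw [← h2 w hw1]; exact hw2⟩
  · intro x u hu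
    obtain ⟨G', h1, ⟨⟨h2, h3⟩, h4⟩, h5⟩ := (hG.and_eventually
      (((ev_runs hLoc D.R C G x (D.pR.eval x.length)).and (ev_run hLoc D.f C G x)).and
        (ev_run hLoc D.A C G (pr (D.f.run (join G C) x) u)) |>.and
        (ev_cols G x (D.pR.eval x.length) (P.eval x.length)))).exists
    obtain ⟨w, ⟨hw1, hw2⟩, hw3⟩ := (h1 : Good D P C G').redA x u
      ⟨by rw [h3]; exact hu.1, by rw [h3, h4]; exact hu.2⟩
    exact ⟨w, ⟨hw1, by rw [← h2 w hw1]; exact hw2⟩, by rw [← h5 w hw1]; exact hw3⟩
  · intro x u hu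
    obtain ⟨G', h1, ⟨⟨h2, h3⟩, h4⟩, h5⟩ := (hG.and_eventually
      (((ev_runs hLoc D.R C G x (D.pR.eval x.length)).and (ev_run hLoc D.f C G x)).and
        (ev_run hLoc D.B C G (pr (D.f.run (join G C) x) u)) |>.and
        (ev_cols G x (D.pR.eval x.length) (P.eval x.length)))).exists
    obtain ⟨w, ⟨hw1, hw2⟩, hw3⟩ := (h1 : Good D P C G').redB x u
      ⟨by rw [h3]; exact hu.1, by rw [h3, h4]; exact hu.2⟩
    exact ⟨w, ⟨hw1, by rw [← h2 w hw1]; exact hw2⟩, by rw [← h5 w hw1]; exact hw3⟩

end Pool.Agent.GW
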