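import Pool.Agent.Work.MP_46935e_lc.GW.Stmts

/-!
# Block GW, MP_46935e_lc, item Cmp: composition of query computable functions
-/

set_option autoImplicit false

noncomputable section

namespace Pool.Agent.GW

open Pool.Agent.RO Pool.Agent.S1 Pool.Agent.PT Pool.Agent.Work.MP_46935e_lc N68a2faeb

namespace Cmpg

variable {α β γ : Type} [Enc α] [Enc β] [Enc γ]

/-- the value of the first phase, read from the answers -/
def yv (out₁ : α × Str → β) (N₁ : Polynomial ℕ) (p : α × Str) : β :=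
  out₁ (p.1, p.2.take (N₁.eval (sz p.1)))

/-- the query function -/
def qf (Q₁ : α × Str → Str) (N₁ : Polynomial ℕ) (out₁ : α × Str → β)
    (Q₂ : (α × β) × Str → Str) (p : α × Str) : Str :=
  if p.2.length < N₁.eval (sz p.1) then Q₁ (p.1, p.2) else
    Q₂ ((p.1, yv out₁ N₁ p), p.2.drop (N₁.eval (sz p.1)))

/-- the output function -/
def ofn (N₁ : Polynomial ℕ) (out₁ : α × Str → β) (N₂ : Polynomial ℕ)
    (out₂ : (α × β) × Str → γ) (p : α × Str) : γ :=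
  out₂ ((p.1, yv out₁ N₁ p),
    (p.2.drop (N₁.eval (sz p.1))).take (N₂.eval (sz (p.1, yv out₁ N₁ p))))

theorem ptf_n1 (N₁ : Polynomial ℕ) : PTF (fun p : α × Str => N₁.eval (sz p.1)) :=
  ptf_eval N₁ (ptf_sz PTF.fst)

theorem ptf_yv {out₁ : α × Str → β} (N₁ : Polynomial ℕ) (h : PTF out₁) : PTF (yv out₁ N₁) :=
  h.comp (PTF.pair PTF.fst (PTF.take PTF.snd (ptf_n1 N₁)))

theorem ptf_qf {Q₁ : α × Str → Str} (N₁ : Polynomial ℕ) {out₁ : α × Str → β}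
    {Q₂ : (α × β) × Str → Str} (hQ₁ : PTF Q₁) (h1 : PTF out₁) (hQ₂ : PTF Q₂) :
    PTF (qf Q₁ N₁ out₁ Q₂) :=
  PTF.ite (PTF.lt (PTF.length PTF.snd) (ptf_n1 N₁)) (hQ₁.comp (PTF.pair PTF.fst PTF.snd))
    (hQ₂.comp (PTF.pair (PTF.pair PTF.fst (ptf_yv N₁ h1)) (PTF.drop PTF.snd (ptf_n1 N₁))))

theorem ptf_ofn (N₁ N₂ : Polynomial ℕ) {out₁ : α × Str → β} {out₂ : (α × β) × Str → γ}
    (h1 : PTF out₁) (h2 : PTF out₂) : PTF (ofn N₁ out₁ N₂ out₂) :=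
  h2.comp (PTF.pair (PTF.pair PTF.fst (ptf_yv N₁ h1)) (PTF.take (PTF.drop PTF.snd (ptf_n1 N₁))
    (ptf_eval N₂ (ptf_sz (PTF.pair PTF.fst (ptf_yv N₁ h1))))))

end Cmpg

open Cmpg in
theorem prf_Cmp (hLen : StLen) (hApp : StApp) : StCmp := by
  intro α β γ _ _ _ O f h hf hh
  obtain ⟨Q₁, N₁, out₁, hQ₁, hout₁, hf⟩ := hf
  obtain ⟨Q₂, N₂, out₂, hQ₂, hout₂, hh⟩ := hh
  obtain ⟨k, hk⟩ := hout₁.size
  obtain ⟨B, hB⟩ : ∃ B : Polynomial ℕ,
      ∀ n, B.eval n = n + (n + (4 * N₁.eval n + 1) + 1 + 2) ^ k + 1 :=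
    ⟨Polynomial.X + (Polynomial.X + (4 * N₁ + 1) + 1 + 2) ^ k + 1, fun n => by simp⟩
  have h1 : ∀ x, sz (x, f x) ≤ B.eval (sz x) := by
    intro x
    have h3 := hk (x, qans Q₁ O x (N₁.eval (sz x)))
    simp only [hf] at h3
    have h4 := sz_bits (qans Q₁ O x (N₁.eval (sz x)))
    rw [(hLen _ _ _ _ _).1] at h4
    have h5 : (sz (x, qans Q₁ O x (N₁.eval (sz x))) + 2) ^ k ≤
        (sz x + (4 * N₁.eval (sz x) + 1) + 1 + 2) ^ k := by
      apply Nat.pow_le_pow_left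
      rw [sz_pair]
      omega
    rw [sz_pair, hB]
    omega
  refine ⟨qf Q₁ N₁ out₁ Q₂, N₁ + N₂.comp B, ofn N₁ out₁ N₂ out₂, ptf_qf N₁ hQ₁ hout₁ hQ₂,
    ptf_ofn N₁ N₂ hout₁ hout₂, ?_⟩
  intro x
  have hM : (N₁ + N₂.comp B).eval (sz x) = N₁.eval (sz x) + N₂.eval (B.eval (sz x)) := by
    rw [Polynomial.eval_add, Polynomial.eval_comp]
  have hl : (qans Q₁ O x (N₁.eval (sz x))).length = N₁.eval (sz x) := (hLen _ _ _ _ _).1
  have hy : ∀ b : Str, yv out₁ N₁ (x, qans Q₁ O x (N₁.eval (sz x)) ++ b) = f x := by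
    intro b
    show out₁ (x, (qans Q₁ O x (N₁.eval (sz x)) ++ b).take (N₁.eval (sz x))) = f x
    rw [List.take_left' hl, hf]
  have hd : ∀ b : Str, (qans Q₁ O x (N₁.eval (sz x)) ++ b).drop (N₁.eval (sz x)) = b :=
    fun b => List.drop_left' hl
  have hA := hApp α (α × β) Q₁ (qf Q₁ N₁ out₁ Q₂) Q₂ O x (x, f x) (N₁.eval (sz x))
    (fun a ha => if_pos ha) (fun b => by
      have hn : ¬ (qans Q₁ O x (N₁.eval (sz x)) ++ b).length < N₁.eval (sz x) := by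
        rw [List.length_append, hl]
        omega
      show (if (qans Q₁ O x (N₁.eval (sz x)) ++ b).length < N₁.eval (sz x) then _ else _) = _
      rw [if_neg hn, hy b, hd b])
  rw [hM, hA]
  show out₂ ((x, yv out₁ N₁ (x, _)), List.take (N₂.eval (sz (x, yv out₁ N₁ (x, _)))) _) = _
  rw [hy, hd, (hLen _ _ _ _ _).2 _ (Pool.Agent.RO.eval_mono N₂ (h1 x)), hh]

end Pool.Agent.GW
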