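import Pool.Agent.Work.MP_46935e_lc.GW.Stmts

/-!
# Block GW, item Cnd: the solver from a finite table and the candidates
-/

set_option autoImplicit false

noncomputable section

namespace Pool.Agent.GW

open Pool.Agent.RO Pool.Agent.S1 Pool.Agent.PT Pool.Agent.Work.MP_46935e_lc N68a2faeb

namespace Cndg

variable {O : World} {α β γ : Type}

lemma qans_length (Q : α × Str → Str) (x : α) (n : ℕ) : (qans Q O x n).length = n := by
  induction n with
  | zero => rfl
  | succ n ih => simp [qans, ih]

lemma qans_take (Q : α × Str → Str) (x : α) {m n : ℕ} (h : m ≤ n) :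
    (qans Q O x n).take m = qans Q O x m := by
  induction n with
  | zero => obtain rfl : m = 0 := by omega
            rfl
  | succ n ih =>
    rcases Nat.lt_or_ge n m with h1 | h1
    · obtain rfl : m = n + 1 := by omega
      rw [List.take_of_length_le (by rw [qans_length])]
    · rw [qans, List.take_append_of_le_length (by rw [qans_length]; exact h1)]
      exact ih h1

/-- Precomposition with a polynomial-time function. -/
theorem qc_pre [Enc α] [Enc β] [Enc γ] {g : β → γ} {e : α → β} (hg : QC O g) (he : PTF e) :
    QC O (fun x => g (e x)) := by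
  obtain ⟨Q, N, out, hQ, hout, h⟩ := hg
  obtain ⟨k, hk⟩ := he.size
  refine ⟨fun p => Q (e p.1, p.2), N.comp ((Polynomial.X + 2) ^ k),
    fun p => out (e p.1, p.2.take (N.eval (sz (e p.1)))), ?_, ?_, fun x => ?_⟩
  · exact hQ.comp ((he.comp PTF.fst).pair PTF.snd)
  · exact hout.comp ((he.comp PTF.fst).pair (PTF.snd.take (ptf_eval N (ptf_sz (he.comp PTF.fst)))))
  · have h1 : ∀ n, qans (fun p : α × Str => Q (e p.1, p.2)) O x n = qans Q O (e x) n := by
      intro n
      induction n with
      | zero => rfl
      | succ n ih => rw [qans, qans, ih]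
    have h2 : N.eval (sz (e x)) ≤ (N.comp ((Polynomial.X + 2) ^ k)).eval (sz x) := by
      rw [Polynomial.eval_comp]
      refine Pool.Agent.RO.eval_mono N ?_
      simpa using hk x
    show out (e x, (qans (fun p : α × Str => Q (e p.1, p.2)) O x _).take _) = _
    rw [h1, qans_take Q (e x) h2]
    exact h (e x)

/-- Composition. -/
theorem qc_cmp (hCmp : StCmp) [Enc α] [Enc β] [Enc γ] {g : β → γ} {f : α → β} (hg : QC O g)
    (hf : QC O f) : QC O (fun x => g (f x)) :=
  hCmp α β γ O f (fun p => g p.2) hf (qc_pre hg PTF.snd)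

/-- Pairs. -/
theorem qc_pair (hEas : StEas) (hCmp : StCmp) [Enc α] [Enc β] [Enc γ] {f : α → β} {g : α → γ}
    (hf : QC O f) (hg : QC O g) : QC O (fun x => (f x, g x)) := by
  refine hCmp α β (β × γ) O f (fun p => (p.2, g p.1)) hf ?_
  refine hCmp (α × β) γ (β × γ) O (fun p => g p.1) (fun q => (q.1.2, q.2)) (qc_pre hg PTF.fst) ?_
  exact (hEas _ _ O).1 _ (by fun_prop)

theorem ptf_pw : PTF pw := by
  unfold pw
  exact (ptf_dec2 (by fun_prop)).snd'

theorem qc_cands (hEas : StEas) (hCmp : StCmp) (hMch : StMch) (f V : Mach) :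
    QC O (fun p : Str × Str => cands f V O p.1 p.2) := by
  have h1 : QC O (fun p : Str × Str => f.qs O p.1) :=
    qc_pre (hMch.2.2.2 O f).2.1 PTF.fst
  have h2 : QC O (fun p : Str × Str => (f.run O p.1, p.2)) :=
    qc_pair hEas hCmp (qc_pre (hMch.2.2.2 O f).1 PTF.fst) ((hEas _ _ O).1 _ PTF.snd)
  have h3 : QC O (fun p : Str × Str => V.qs O (pr (f.run O p.1) p.2)) :=
    qc_cmp (g := fun p : Str × Str => V.qs O (pr p.1 p.2))
      (f := fun p : Str × Str => (f.run O p.1, p.2)) hCmp (hMch.2.2.2 O V).2.2.2 h2
  have h4 : PTF (fun q : List Str × List Str => (q.1 ++ q.2).map pw) :=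
    PTF.map' (ptf_pw.comp PTF.snd) (by fun_prop)
  exact qc_cmp (g := fun q : List Str × List Str => (q.1 ++ q.2).map pw)
    (f := fun p : Str × Str => (f.qs O p.1, V.qs O (pr (f.run O p.1) p.2)))
    hCmp ((hEas _ _ O).1 _ h4) (qc_pair hEas hCmp h1 h3)

/-- The test. -/
def tst (R : Mach) (p : Polynomial ℕ) (O : World) (x w : Str) : Bool :=
  decide (w.length ≤ p.eval x.length) && decide (R.run O (pr x w) = [true])

lemma tst_iff (R : Mach) (p : Polynomial ℕ) (x w : Str) :
    tst R p O x w = true ↔ Sol R p O x w := by
  simp [tst, Sol]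

theorem qc_tst (hEas : StEas) (hCmp : StCmp) (hMch : StMch) (R : Mach) (p : Polynomial ℕ) :
    QC O (fun q : Str × Str => tst R p O q.1 q.2) := by
  have h1 := (hMch.2.2.2 O R).2.2.1
  have h2 : PTF (fun r : (Str × Str) × Str =>
      (decide (r.1.2.length ≤ p.eval r.1.1.length) && decide (r.2 = [true]))) :=
    ((((PTF.snd.comp PTF.fst).length).le (ptf_eval p (PTF.fst.comp PTF.fst).length)).and
      (PTF.snd.eq (PTF.const _)))
  exact qc_cmp hCmp ((hEas _ _ O).1 _ h2) (qc_pair hEas hCmp ((hEas _ _ O).1 _ PTF.id) h1)

/-- The first good element of a list. -/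
def pick (R : Mach) (p : Polynomial ℕ) (O : World) (x : Str) (l : List Str) : Str :=
  (((l.map (fun w => (w, tst R p O x w))).filter (fun q => q.2)).map (fun q => q.1)).headD []

theorem qc_pick (hEas : StEas) (hCmp : StCmp) (hMap : StMap) (hMch : StMch) (R : Mach)
    (p : Polynomial ℕ) : QC O (fun q : Str × List Str => pick R p O q.1 q.2) := by
  have h1 : QC O (fun r : (Str × List Str) × Str => (r.2, tst R p O r.1.1 r.2)) :=
    qc_pair hEas hCmp ((hEas _ _ O).1 _ PTF.snd)
      (qc_pre (g := fun q : Str × Str => tst R p O q.1 q.2)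
        (e := fun r : (Str × List Str) × Str => (r.1.1, r.2))
        (qc_tst hEas hCmp hMch R p) (by fun_prop))
  have h2 := hMap (Str × List Str) Str (Str × Bool) O (fun q => q.2)
    (fun r => (r.2, tst R p O r.1.1 r.2)) PTF.snd h1
  have h3 : PTF (fun l : List (Str × Bool) =>
      ((l.filter (fun q => q.2)).map (fun q => q.1)).headD ([] : Str)) := by fun_prop
  exact qc_cmp hCmp ((hEas _ _ O).1 _ h3) h2

lemma pick_spec (R : Mach) (p : Polynomial ℕ) (x : Str) (l : List Str)
    (h : ∃ w ∈ l, Sol R p O x w) : Sol R p O x (pick R p O x l) := by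
  have e : pick R p O x l = (l.filter (fun w => tst R p O x w)).headD [] := by
    unfold pick
    congr 1
    induction l with
    | nil => rfl
    | cons a l ih =>
      simp only [List.map_cons, List.filter_cons]
      cases hh : tst R p O x a
      · simp only [Bool.false_eq_true, if_false]
        clear h ih
        induction l with
        | nil => rfl
        | cons b l ih =>
          simp only [List.map_cons, List.filter_cons]
          cases hb : tst R p O x b
          · simpa using ih
          · simpa using ih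
      · simp only [if_true, List.map_cons]
        clear h ih
        congr 1
        induction l with
        | nil => rfl
        | cons b l ih =>
          simp only [List.map_cons, List.filter_cons]
          cases hb : tst R p O x b
          · simpa using ih
          · simpa using ih
  rw [e]
  obtain ⟨w, hw, hs⟩ := h
  have hm : w ∈ l.filter (fun w => tst R p O x w) :=
    List.mem_filter.2 ⟨hw, (tst_iff R p x w).2 hs⟩
  cases hl : l.filter (fun w => tst R p O x w) with
  | nil => rw [hl] at hm; cases hm
  | cons a t =>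
    have : a ∈ l.filter (fun w => tst R p O x w) := by rw [hl]; exact List.mem_cons_self
    exact (tst_iff R p x a).1 (List.mem_filter.1 this).2

/-- The solver. -/
def slv (D : Dat) (O : World) (T : List (Str × Str)) (q : Str × Str) : Str :=
  ((T.find? (fun e => decide (e.1 = q.1))).map (fun e => e.2)).getD
    (pick D.R D.pR O q.1 (if q.2.headD false = true then cands D.f D.B O q.1 q.2.tail
      else cands D.f D.A O q.1 q.2.tail))

theorem qc_slv (hEas : StEas) (hCmp : StCmp) (hMap : StMap) (hMch : StMch) (D : Dat)
    (T : List (Str × Str)) : QC O (slv D O T) := by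
  have hc : ∀ V : Mach, QC O (fun q : Str × Str => cands D.f V O q.1 q.2.tail) := fun V =>
    qc_pre (g := fun p : Str × Str => cands D.f V O p.1 p.2)
      (e := fun q : Str × Str => (q.1, q.2.tail)) (qc_cands hEas hCmp hMch D.f V) (by fun_prop)
  have h1 : PTF (fun r : (Str × Str) × (List Str × List Str) =>
      (r.1.1, if r.1.2.headD false = true then r.2.2 else r.2.1)) := by fun_prop
  have h2 : QC O (fun q : Str × Str => (q.1, if q.2.headD false = true then
      cands D.f D.B O q.1 q.2.tail else cands D.f D.A O q.1 q.2.tail)) :=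
    qc_cmp hCmp ((hEas _ _ O).1 _ h1) (qc_pair hEas hCmp ((hEas _ _ O).1 _ PTF.id)
      (qc_pair hEas hCmp (hc D.A) (hc D.B)))
  have h3 := qc_cmp hCmp (qc_pick hEas hCmp hMap hMch D.R D.pR) h2
  have h4 : PTF (fun r : (Str × Str) × Str =>
      ((T.find? (fun e => decide (e.1 = r.1.1))).map (fun e => e.2)).getD r.2) := by fun_prop
  have h5 : QC O (fun q : Str × Str => (q, pick D.R D.pR O q.1 (if q.2.headD false = true then
      cands D.f D.B O q.1 q.2.tail else cands D.f D.A O q.1 q.2.tail))) :=
    qc_pair hEas hCmp ((hEas _ _ O).1 _ PTF.id) h3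
  exact qc_cmp (g := fun r : (Str × Str) × Str =>
      ((T.find? (fun e => decide (e.1 = r.1.1))).map (fun e => e.2)).getD r.2)
    (f := fun q : Str × Str => (q, pick D.R D.pR O q.1 (if q.2.headD false = true then
      cands D.f D.B O q.1 q.2.tail else cands D.f D.A O q.1 q.2.tail)))
    hCmp ((hEas _ _ O).1 _ h4) h5

end Cndg

open Cndg in
theorem prf_Cnd (hEas : StEas) (hCmp : StCmp) (hMap : StMap) (hMch : StMch) : StCnd := by
  intro D O T
  refine ⟨slv D O T, qc_slv hEas hCmp hMap hMch D T, fun x w u hx => ?_, fun x b u hT hw => ?_⟩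
  · cases hf : T.find? (fun e => decide (e.1 = x)) with
    | none =>
      have := List.find?_eq_none.1 hf (x, w) hx
      simp at this
    | some e =>
      have h1 := List.mem_of_find?_eq_some hf
      have h2 : e.1 = x := by simpa using List.find?_some hf
      have h3 : slv D O T (x, u) = e.2 := by
        simp [slv, hf]
      rw [h3, ← h2]
      exact h1
  · have hf : T.find? (fun e => decide (e.1 = x)) = none := by
      rw [List.find?_eq_none]
      rintro ⟨y, w⟩ he h1
      have h2 : y = x := by simpa using h1
      exact hT w (h2 ▸ he)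
    have h3 : slv D O T (x, b :: u) = pick D.R D.pR O x
        (cands D.f (if b = true then D.B else D.A) O x u) := by
      cases b <;> simp [slv, hf]
    rw [h3]
    exact pick_spec _ _ _ _ hw

end Pool.Agent.GW
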