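import Pool.Agent.Work.MP_46935e_lc.GW.Stmts

/-!
# Block GW, item Cnt: countability
-/

set_option autoImplicit false

noncomputable section

namespace Pool.Agent.GW

open Pool.Agent.RO Pool.Agent.S1 Pool.Agent.PT Pool.Agent.Work.MP_46935e_lc N68a2faeb

namespace Cntg

theorem ipt_of_ptf {f : List Bool × List Bool → List Bool} (h : PTF f) :
    N68a2faeb.IsPolyTime f :=
  tm2_of_ptf h ptf_decP decP_enc ptf_encL

theorem mach : Countable Mach := by
  have h0 := countable_polyN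
  have h1 := countable_ipt (α := List Bool × List Bool) (β := List Bool)
  refine Function.Injective.countable (f := fun M : Mach =>
    ((⟨M.Q, ipt_of_ptf M.hQ⟩ : {f : List Bool × List Bool → List Bool //
        N68a2faeb.IsPolyTime f}), M.N,
      (⟨M.out, ipt_of_ptf M.hout⟩ : {f : List Bool × List Bool → List Bool //
        N68a2faeb.IsPolyTime f}))) ?_
  rintro ⟨Q, N, out, hQ, hout⟩ ⟨Q', N', out', hQ', hout'⟩ h
  simp only [Prod.mk.injEq, Subtype.mk.injEq] at h
  obtain ⟨rfl, rfl, rfl⟩ := h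
  rfl

end Cntg

theorem prf_Cnt : StCnt := by
  have h0 := countable_polyN
  have h1 := Cntg.mach
  refine ⟨h1, ?_⟩
  refine Function.Injective.countable (f := fun D : Dat × Polynomial ℕ =>
    (D.1.R, D.1.pR, D.1.A, D.1.pA, D.1.B, D.1.pB, D.1.f, D.2)) ?_
  rintro ⟨⟨R, pR, A, pA, B, pB, f⟩, P⟩ ⟨⟨R', pR', A', pA', B', pB', f'⟩, P'⟩ h
  simp only [Prod.mk.injEq] at h
  obtain ⟨rfl, rfl, rfl, rfl, rfl, rfl, rfl, rfl⟩ := h
  rfl

end Pool.Agent.GW
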