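import Pool.Agent.Work.MP_46935e_lc.GW.Stmts

/-!
# Block GW, item Cnv: comparison of query computable functions with `IsPolyTimeRel`
-/

set_option autoImplicit false

noncomputable section

namespace Pool.Agent.GW

open Pool.Agent.RO Pool.Agent.S1 Pool.Agent.PT Pool.Agent.Work.MP_46935e_lc N68a2faeb

namespace Cnvg

/-- the query function -/
def Qg {α : Type} (g : α × Str → Bool × Str) (p : α × Str) : Str := (g p).2

/-- the halting index -/
def ix {α : Type} (g : α × Str → Bool × Str) (p : α × Str) : ℕ :=
  ((List.range (p.2.length + 1)).find? (fun i => (g (p.1, p.2.take i)).1)).getD 0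

/-- the output function -/
def og {α β : Type} (dec : Str → β) (g : α × Str → Bool × Str) (p : α × Str) : β :=
  dec (g (p.1, p.2.take (ix g p))).2

theorem ptf_Qg {α : Type} [Enc α] {g : α × Str → Bool × Str} (hg : PTF g) : PTF (Qg g) :=
  PTF.snd.comp hg

theorem ptf_ix {α : Type} [Enc α] {g : α × Str → Bool × Str} (hg : PTF g) : PTF (ix g) := by
  have h1 : PTF (fun q : (α × Str) × ℕ => (g (q.1.1, q.1.2.take q.2)).1) :=
    PTF.fst.comp (hg.comp (by fun_prop))
  have h2 : PTF (fun p : α × Str => List.range (p.2.length + 1)) := by fun_prop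
  have h3 : PTF (fun p : α × Str =>
      (List.range (p.2.length + 1)).find? (fun i => (g (p.1, p.2.take i)).1)) :=
    PTF.find' h1 h2
  exact PTF.optionGetD h3 (PTF.const 0)

theorem ptf_og {α β : Type} [Enc α] [Enc β] {dec : Str → β} (hdec : PTF dec)
    {g : α × Str → Bool × Str} (hg : PTF g) : PTF (og dec g) := by
  have h1 := ptf_ix hg
  have h2 : PTF (fun p : α × Str => (p.1, p.2.take (ix g p))) := by fun_prop
  exact hdec.comp (PTF.snd.comp (hg.comp h2))

/-- the halting round -/
theorem halts {α : Type} (g : α × Str → Bool × Str) (O : World) (x : α) (y : Str) (t : ℕ) :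
    ∀ n, orun g O x t (qans (Qg g) O x n) = some y →
      (∀ j < n, (g (x, qans (Qg g) O x j)).1 = false) →
      ∃ i, i < n + t ∧ (g (x, qans (Qg g) O x i)).1 = true ∧ (g (x, qans (Qg g) O x i)).2 = y ∧
        ∀ j < i, (g (x, qans (Qg g) O x j)).1 = false := by
  induction t with
  | zero => intro n h; cases h
  | succ t ih =>
    intro n h hn
    rw [orun] at h
    split_ifs at h with hg
    · exact ⟨n, by omega, hg, Option.some.inj h, hn⟩
    · obtain ⟨i, h1, h2, h3, h4⟩ := ih (n + 1) h (fun j hj => by
        rcases Nat.lt_succ_iff_lt_or_eq.1 hj with h5 | h5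
        · exact hn j h5
        · rw [h5]; simpa using hg)
      exact ⟨i, by omega, h2, h3, h4⟩

/-- the step function for the converse -/
def gg {α β : Type} [Enc α] (be : β → Str) (Q : α × Str → Str) (N : Polynomial ℕ)
    (out : α × Str → β) (p : α × Str) : Bool × Str :=
  if N.eval (sz p.1) ≤ p.2.length then (true, be (out p)) else (false, Q p)

theorem ptf_gg {α β : Type} [Enc α] [Enc β] {be : β → Str} (hbe : PTF be) {Q : α × Str → Str}
    (hQ : PTF Q) (N : Polynomial ℕ) {out : α × Str → β} (hout : PTF out) :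
    PTF (gg be Q N out) := by
  have h1 : PTF (fun p : α × Str => N.eval (sz p.1)) := ptf_eval N (ptf_sz PTF.fst)
  have h2 : PTF (fun p : α × Str => be (out p)) := hbe.comp hout
  unfold gg
  fun_prop

theorem run_gg (hLen : StLen) {α β : Type} [Enc α] (be : β → Str) (Q : α × Str → Str)
    (N : Polynomial ℕ) (out : α × Str → β) (O : World) (x : α) (t : ℕ) :
    ∀ i, i + t = N.eval (sz x) → orun (gg be Q N out) O x (t + 1) (qans Q O x i) =
      some (be (out (x, qans Q O x (N.eval (sz x))))) := by
  induction t with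
  | zero =>
    intro i hi
    rw [Nat.add_zero] at hi
    have h1 : gg be Q N out (x, qans Q O x i) = (true, be (out (x, qans Q O x i))) := by
      unfold gg
      rw [if_pos]
      show N.eval (sz x) ≤ (qans Q O x i).length
      rw [(hLen α Q O x i).1, hi]
    rw [orun, h1]
    simp only [if_true, hi]
  | succ t ih =>
    intro i hi
    have h1 : gg be Q N out (x, qans Q O x i) = (false, Q (x, qans Q O x i)) := by
      unfold gg
      rw [if_neg]
      show ¬ N.eval (sz x) ≤ (qans Q O x i).length
      rw [(hLen α Q O x i).1]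
      omega
    rw [orun, h1]
    simp only [Bool.false_eq_true, if_false]
    exact ih (i + 1) (by omega)

theorem gen {α β : Type} [N487b59b3 α] [N487b59b3 β] [Enc α] [Enc β] (hLen : StLen)
    (toF : ∀ g : α × Str → Bool × Str, IsPolyTime g → PTF g)
    (ofF : ∀ g : α × Str → Bool × Str, PTF g → IsPolyTime g)
    (hbe : PTF (fun y : β => N487b59b3.bitEncode y)) (dec : Str → β) (hdec : PTF dec)
    (hd : ∀ y : β, dec (N487b59b3.bitEncode y) = y)
    (h1 : ∀ x : α, (N487b59b3.bitEncode x).length ≤ 6 * sz x + 1)
    (h2 : ∀ x : α, sz x ≤ 4 * (N487b59b3.bitEncode x).length + 3)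
    (O : World) (f : α → β) : IsPolyTimeRel O f ↔ QC O f := by
  constructor
  · rintro ⟨g, p, hg, hr⟩
    have hgF := toF g hg
    refine ⟨Qg g, p.comp (Polynomial.C 6 * Polynomial.X + Polynomial.C 1), og dec g, ptf_Qg hgF,
      ptf_og hdec hgF, fun x => ?_⟩
    have hN : (p.comp (Polynomial.C 6 * Polynomial.X + Polynomial.C 1)).eval (sz x) =
        p.eval (6 * sz x + 1) := by simp
    rw [hN]
    set n := p.eval (6 * sz x + 1) with hn
    have ht : p.eval (N487b59b3.bitEncode x).length ≤ n := RO.eval_mono p (h1 x)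
    obtain ⟨i, hi, h3, h4, h5⟩ := halts g O x _ _ 0 (hr x) (fun j hj => by omega)
    have hin : i ≤ n := by omega
    have htk : ∀ j, j ≤ n → (qans (Qg g) O x n).take j = qans (Qg g) O x j :=
      (hLen α (Qg g) O x n).2
    have hlen := (hLen α (Qg g) O x n).1
    have hix : ix g (x, qans (Qg g) O x n) = i := by
      unfold ix
      have h6 : (List.range ((qans (Qg g) O x n).length + 1)).find?
          (fun j => (g (x, (qans (Qg g) O x n).take j)).1) = some i := by
        rw [hlen, List.find?_range_eq_some]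
        refine ⟨?_, List.mem_range.2 (by omega), fun j hj => ?_⟩
        · rw [htk i hin]; exact h3
        · rw [htk j (by omega), h5 j hj]; rfl
      show (Option.getD _ 0) = i
      rw [h6]
      rfl
    unfold og
    rw [hix]
    show dec (g (x, (qans (Qg g) O x n).take i)).2 = f x
    rw [htk i hin, h4, hd]
  · rintro ⟨Q, N, out, hQ, hout, ho⟩
    refine ⟨gg (fun y => N487b59b3.bitEncode y) Q N out,
      N.comp (Polynomial.C 4 * Polynomial.X + Polynomial.C 3) + Polynomial.C 1,
      ofF _ (ptf_gg hbe hQ N hout), fun x => ?_⟩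
    have hN : (N.comp (Polynomial.C 4 * Polynomial.X + Polynomial.C 3) + Polynomial.C 1).eval
        (N487b59b3.bitEncode x).length = N.eval (4 * (N487b59b3.bitEncode x).length + 3) + 1 := by
      simp
    rw [hN]
    have h3 := run_gg hLen (fun y : β => N487b59b3.bitEncode y) Q N out O x (N.eval (sz x)) 0
      (by omega)
    refine orun_mono _ O x _ (N.eval (sz x) + 1) [] _ ?_ ?_
    · have := RO.eval_mono N (h2 x)
      omega
    · rw [← ho x]
      exact h3

end Cnvg

theorem prf_Cnv (hLen : StLen) : StCnv := by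
  intro O
  have hS1 : ∀ x : Str, (N487b59b3.bitEncode x).length ≤ 6 * sz x + 1 := fun x => by
    rw [length_bitEncode_list]
    have := length_le_sz x
    omega
  have hS2 : ∀ x : Str, sz x ≤ 4 * (N487b59b3.bitEncode x).length + 3 := fun x => by
    rw [length_bitEncode_list]
    have := sz_bits x
    omega
  have hP1 : ∀ x : Str × Str, (N487b59b3.bitEncode x).length ≤ 6 * sz x + 1 := fun x => by
    obtain ⟨z, w⟩ := x
    rw [length_bitEncode_pair, sz_pair]
    have := length_le_sz z
    have := length_le_sz w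
    omega
  have hP2 : ∀ x : Str × Str, sz x ≤ 4 * (N487b59b3.bitEncode x).length + 3 := fun x => by
    obtain ⟨z, w⟩ := x
    rw [length_bitEncode_pair, sz_pair]
    have := sz_bits z
    have := sz_bits w
    omega
  have hbS : PTF (fun y : Str => N487b59b3.bitEncode y) :=
    (ptf_encB PTF.id).congr (fun y => (bitEncode_list y).symm)
  have hdS : ∀ y : Str, unB (N487b59b3.bitEncode y) = y := fun y => by
    rw [bitEncode_list, unB_encB]
  have hbB : PTF (fun y : Bool => N487b59b3.bitEncode y) :=
    (PTF.id.cons (PTF.const [])).congr (fun y => (bitEncode_bool y).symm)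
  refine ⟨fun f => ?_, fun V => ?_, fun h => ?_⟩
  · exact Cnvg.gen hLen (fun g hg => ptf_of_P hg) (fun g hg => of_ptf_P hg) hbS unB
      (ptf_unB PTF.id) hdS hS1 hS2 O f
  · exact Cnvg.gen hLen (fun g hg => ptf_of_T hg) (fun g hg => of_ptf_T hg) hbB
      (fun l => l.headD false) (PTF.id.headD (PTF.const false)) (fun y => rfl) hP1 hP2 O V
  · exact Cnvg.gen hLen (fun g hg => ptf_of_T hg) (fun g hg => of_ptf_T hg) hbS unB
      (ptf_unB PTF.id) hdS hP1 hP2 O h

end Pool.Agent.GW
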