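import Pool.Agent.Work.MP_46935e_lc.GW.Stmts

/-!
# Block GW, item Com: comeagrely many oracles force what they satisfy
-/

set_option autoImplicit false

noncomputable section

namespace Pool.Agent.GW

open Pool.Agent.RO Pool.Agent.S1 Pool.Agent.PT Pool.Agent.Work.MP_46935e_lc N68a2faeb
open Topology

/-- an open set of worlds contains all worlds which agree with a member on the short strings -/
theorem Comg.agree {U : Set World} (hU : IsOpen U) {G : World} (hG : G ∈ U) :
    ∃ m : ℕ, ∀ G' : World, (∀ q : Str, q.length < m → G' q = G q) → G' ∈ U := by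
  classical
  obtain ⟨I, u, hu, hsub⟩ := isOpen_pi_iff.1 hU G hG
  refine ⟨I.sup List.length + 1, fun G' hG' => hsub fun q hq => ?_⟩
  have h1 : q.length < I.sup List.length + 1 := Nat.lt_succ_of_le (Finset.le_sup (f := List.length) hq)
  rw [hG' q h1]
  exact (hu q hq).2

theorem prf_Com (hCnt : StCnt) (hClo : StClo) : StCom := by
  intro C
  have hc : Countable (Dat × Polynomial ℕ) := hCnt.2
  have h1 : ∀ d : Dat × Polynomial ℕ, (frontier {G : World | Good d.1 d.2 C G})ᶜ ∈ residual World := by
    intro d
    refine residual_of_dense_open isClosed_frontier.isOpen_compl ?_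
    rw [← interior_eq_empty_iff_dense_compl]
    exact interior_frontier (hClo d.1 d.2 C)
  refine Filter.mem_of_superset (countable_iInter_mem.2 h1) ?_
  intro G hG D P hgood
  have h2 : G ∉ frontier {G : World | Good D P C G} := Set.mem_iInter.1 hG (D, P)
  have h3 : G ∈ interior {G : World | Good D P C G} := by
    by_contra h
    apply h2
    rw [(hClo D P C).frontier_eq]
    exact ⟨hgood, h⟩
  obtain ⟨m, hm⟩ := Comg.agree isOpen_interior h3
  exact ⟨m, fun G' hG' => interior_subset (hm G' hG')⟩

end Pool.Agent.GW
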