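import Pool.Agent.Work.MP_46935e_lc.GW.Stmts

set_option autoImplicit false

/-!
# Block GW (generic world), item Cor: the core
-/

noncomputable section

namespace Pool.Agent.GW

open Pool.Agent.RO Pool.Agent.S1 Pool.Agent.PT Pool.Agent.Work.MP_46935e_lc N68a2faeb

namespace Corg

theorem len_cpos (n : ℕ) (x w : Str) :
    n < (cpos n x w).length ∧ x.length < (cpos n x w).length := by
  unfold cpos pr
  rw [List.length_append, List.length_replicate, List.length_cons, List.length_append, dl,
    N487b59b3.length_delimit]
  omega

theorem pw_cpos (n : ℕ) (x w : Str) : pw (true :: cpos n x w) = w := by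
  have h0 : (true :: cpos n x w) = List.replicate (n + 1) true ++ false :: pr x w := by
    unfold cpos
    rw [List.replicate_succ, List.cons_append]
  have h1 : (List.replicate (n + 1) true ++ false :: pr x w).idxOf false = n + 1 := by
    rw [List.idxOf_append_of_notMem (by simp), List.length_replicate, List.idxOf_cons_self,
      Nat.add_zero]
  have h2 : (List.replicate (n + 1) true ++ false :: pr x w).drop (n + 1 + 1) = pr x w := by
    have h3 : (List.replicate (n + 1) true ++ false :: pr x w) =
        (List.replicate (n + 1) true ++ [false]) ++ pr x w := by simp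
    rw [h3]
    exact List.drop_left' (by simp)
  unfold pw
  rw [h0, h1, h2]
  unfold pr
  rw [dec2_dl]

open Classical in
/-- the changed world -/
def chg (T : List Str) (n : ℕ) (x : Str) (b : Bool) (G : World) : World := fun q =>
  if (∃ w, q = cpos n x w) ∧ true :: q ∉ T then b else G q

theorem chg_of_mem {T : List Str} {n : ℕ} {x : Str} {b : Bool} {G : World} {q : Str}
    (h : true :: q ∈ T) : chg T n x b G q = G q := by
  unfold chg
  rw [if_neg]
  exact fun h' => h'.2 h

theorem chg_of_len {T : List Str} {n : ℕ} {x : Str} {b : Bool} {G : World} {q : Str}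
    (h : q.length ≤ n ∨ q.length ≤ x.length) : chg T n x b G q = G q := by
  unfold chg
  rw [if_neg]
  rintro ⟨⟨w, rfl⟩, -⟩
  have := len_cpos n x w
  omega

theorem join_chg {T : List Str} {n : ℕ} {x : Str} {b : Bool} {G C : World} {q : Str}
    (h : q ∈ T ∨ q.length ≤ n) : join (chg T n x b G) C q = join G C q := by
  rcases q with _ | ⟨a, q⟩
  · rfl
  · cases a
    · rfl
    · show chg T n x b G q = G q
      rcases h with h | h
      · exact chg_of_mem h
      · refine chg_of_len (Or.inl ?_)
        rw [List.length_cons] at h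
        omega

theorem one (hLoc : StLoc) (D : Dat) (P : Polynomial ℕ) (C G : World) (m : ℕ) (hP : Pad D P)
    (V : Mach) (pV : Polynomial ℕ) (c : Bool) (x : Str) (hm : m ≤ x.length) (u : Str)
    (hg : ∀ G' : World, (∀ q : Str, q.length < m → G' q = G q) →
      Sol V pV (join G' C) (D.f.run (join G' C) x) u →
      ∃ w, Sol D.R D.pR (join G' C) x w ∧ G' (cpos (P.eval x.length) x w) = c)
    (hS : Sol V pV (join G C) (D.f.run (join G C) x) u) :
    ∃ w ∈ cands D.f V (join G C) x u, Sol D.R D.pR (join G C) x w := by
  set n := P.eval x.length with hn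
  set O := join G C with hO
  set T : List Str := D.f.qs O x ++ V.qs O (pr (D.f.run O x) u) with hT
  set G' := chg T n x (!c) G with hG'
  have h1 : ∀ q : Str, q.length < m → G' q = G q := fun q hq =>
    chg_of_len (Or.inr (by omega))
  have hf : D.f.run (join G' C) x = D.f.run O x :=
    (hLoc D.f O (join G' C) x fun q hq => join_chg (Or.inl (List.mem_append_left _ hq))).1
  have hV : V.run (join G' C) (pr (D.f.run O x) u) = V.run O (pr (D.f.run O x) u) :=
    (hLoc V O (join G' C) _ fun q hq => join_chg (Or.inl (List.mem_append_right _ hq))).1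
  have hS' : Sol V pV (join G' C) (D.f.run (join G' C) x) u := by
    rw [hf]
    exact ⟨hS.1, hV.trans hS.2⟩
  obtain ⟨w, hw, hc⟩ := hg G' h1 hS'
  have hmem : true :: cpos n x w ∈ T := by
    by_contra hno
    have h2 : G' (cpos n x w) = !c := by
      rw [hG']
      unfold chg
      rw [if_pos ⟨⟨w, rfl⟩, hno⟩]
    rw [hc] at h2
    cases c <;> simp at h2
  refine ⟨w, List.mem_map.2 ⟨_, hmem, pw_cpos n x w⟩, hw.1, ?_⟩
  have hR : D.R.run (join G' C) (pr x w) = D.R.run O (pr x w) :=
    (hLoc D.R O (join G' C) _ fun q hq => join_chg (Or.inr (hP O x w hw.1 q hq))).1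
  exact hR.symm.trans hw.2

end Corg

/-- The core: solutions are among the candidates. -/
theorem prf_Cor (hLoc : StLoc) : StCor := by
  intro D P C G m hP hF x hm u
  refine ⟨fun h => ?_, fun h => ?_⟩
  · exact Corg.one hLoc D P C G m hP D.A D.pA false x hm u
      (fun G' hG' hS => (hF G' hG').redA x u hS) h
  · exact Corg.one hLoc D P C G m hP D.B D.pB true x hm u
      (fun G' hG' hS => (hF G' hG').redB x u hS) h

end Pool.Agent.GW
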