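import Pool.Agent.Work.MP_46935e_lc.GW.Stmts

/-!
# Block GW, item Eas: three easy cases
-/

set_option autoImplicit false

noncomputable section

namespace Pool.Agent.GW

open Pool.Agent.RO Pool.Agent.S1 Pool.Agent.PT Pool.Agent.Work.MP_46935e_lc N68a2faeb

theorem prf_Eas : StEas := by
  intro α β _ _ O
  refine ⟨fun f hf => ?_, fun q hq => ?_, fun Q N hQ => ?_⟩
  · refine ⟨fun _ => [], 0, fun p => f p.1, by fun_prop, by fun_prop, fun x => rfl⟩
  · refine ⟨fun p => q p.1, 1, fun p => p.2.headD false, by fun_prop, by fun_prop, fun x => ?_⟩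
    rw [Polynomial.eval_one]
    rfl
  · exact ⟨Q, N, fun p => p.2, hQ, by fun_prop, fun x => rfl⟩

end Pool.Agent.GW
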