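import Pool.Agent.Work.MP_46935e_lc.GW.Stmts

/-!
# Block GW, item Len: the length of the answers
-/

set_option autoImplicit false

noncomputable section

namespace Pool.Agent.GW

open Pool.Agent.RO Pool.Agent.S1 Pool.Agent.PT Pool.Agent.Work.MP_46935e_lc N68a2faeb

namespace Leng

theorem len {α : Type} (Q : α × Str → Str) (O : World) (x : α) (n : ℕ) :
    (qans Q O x n).length = n := by
  induction n with
  | zero => rfl
  | succ n ih =>
    show (qans Q O x n ++ [O (Q (x, qans Q O x n))]).length = n + 1
    rw [List.length_append, ih]
    rfl

theorem take {α : Type} (Q : α × Str → Str) (O : World) (x : α) (n m : ℕ) (h : m ≤ n) :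
    (qans Q O x n).take m = qans Q O x m := by
  induction n with
  | zero =>
    obtain rfl : m = 0 := by omega
    rfl
  | succ n ih =>
    by_cases hm : m ≤ n
    · show (qans Q O x n ++ [O (Q (x, qans Q O x n))]).take m = qans Q O x m
      rw [List.take_append_of_le_length (by rw [len]; exact hm)]
      exact ih hm
    · obtain rfl : m = n + 1 := by omega
      exact List.take_of_length_le (by rw [len])

end Leng

theorem prf_Len : StLen := fun _ Q O x n => ⟨Leng.len Q O x n, fun m h => Leng.take Q O x n m h⟩

end Pool.Agent.GW
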