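import Pool.Agent.Work.MP_46935e_lc.GW.Stmts

/-!
# Block GW, MP_46935e_lc, item Map: a query computable function applied to the elements of a list
-/

set_option autoImplicit false

noncomputable section

namespace Pool.Agent.GW

open Pool.Agent.RO Pool.Agent.S1 Pool.Agent.PT Pool.Agent.Work.MP_46935e_lc N68a2faeb

namespace Mapg

variable {α β γ : Type} [Enc α] [Enc β] [Enc γ]

/-- the number of rounds of one element -/
def rr (N B : Polynomial ℕ) (x : α) : ℕ := N.eval (B.eval (sz x)) + 1

/-- the query function -/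
def qf (l : α → List β) (Q : (α × β) × Str → Str) (N B : Polynomial ℕ) (p : α × Str) : Str :=
  (((l p.1)[p.2.length / rr N B p.1]?).map
    (fun b => Q ((p.1, b), p.2.drop (rr N B p.1 * (p.2.length / rr N B p.1))))).getD []

/-- the output function -/
def ofn (l : α → List β) (out : (α × β) × Str → γ) (N B : Polynomial ℕ) (p : α × Str) : List γ :=
  (List.range (l p.1).length).filterMap (fun j => ((l p.1)[j]?).map
    (fun b => out ((p.1, b), (p.2.drop (rr N B p.1 * j)).take (N.eval (sz (p.1, b))))))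

theorem ptf_rr (N B : Polynomial ℕ) : PTF (fun x : α => rr N B x) :=
  PTF.succ (ptf_eval N (ptf_eval B (ptf_sz PTF.id)))

theorem ptf_rr1 (N B : Polynomial ℕ) : PTF (fun p : α × Str => rr N B p.1) :=
  (ptf_rr N B).comp PTF.fst

theorem ptf_qf {l : α → List β} {Q : (α × β) × Str → Str} (N B : Polynomial ℕ) (hl : PTF l)
    (hQ : PTF Q) : PTF (qf l Q N B) := by
  have h1 : PTF (fun p : α × Str => p.2.length / rr N B p.1) :=
    (PTF.snd.length).div (ptf_rr1 N B)
  have h2 : PTF (fun p : α × Str => (l p.1)[p.2.length / rr N B p.1]?) :=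
    PTF.get? (hl.comp PTF.fst) h1
  have h3 : PTF (fun p : α × Str => p.2.drop (rr N B p.1 * (p.2.length / rr N B p.1))) :=
    PTF.drop PTF.snd ((ptf_rr1 N B).mul h1)
  have h4 : PTF (fun q : (α × Str) × β => Q ((q.1.1, q.2),
      q.1.2.drop (rr N B q.1.1 * (q.1.2.length / rr N B q.1.1)))) :=
    hQ.comp (PTF.pair (PTF.pair (PTF.fst.comp PTF.fst) PTF.snd) (h3.comp PTF.fst))
  exact PTF.optionGetD (PTF.optionMap' (f := fun (p : α × Str) (b : β) => Q ((p.1, b),
      p.2.drop (rr N B p.1 * (p.2.length / rr N B p.1)))) h4 h2) (PTF.const [])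

theorem ptf_ofn {l : α → List β} {out : (α × β) × Str → γ} (N B : Polynomial ℕ) (hl : PTF l)
    (hout : PTF out) : PTF (ofn l out N B) := by
  have h1 : PTF (fun p : α × Str => List.range (l p.1).length) :=
    PTF.range (PTF.length (hl.comp PTF.fst))
  have h2 : PTF (fun q : (α × Str) × ℕ => (l q.1.1)[q.2]?) :=
    PTF.get? (hl.comp (PTF.fst.comp PTF.fst)) PTF.snd
  have h3 : PTF (fun q : ((α × Str) × ℕ) × β => (q.1.1.2.drop (rr N B q.1.1.1 * q.1.2)).take
      (N.eval (sz (q.1.1.1, q.2)))) := by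
    refine PTF.take (PTF.drop ?_ (PTF.mul ?_ ?_)) (ptf_eval N (ptf_sz ?_))
    · exact PTF.snd.comp (PTF.fst.comp PTF.fst)
    · exact (ptf_rr1 N B).comp (PTF.fst.comp PTF.fst)
    · exact PTF.snd.comp PTF.fst
    · exact PTF.pair (PTF.fst.comp (PTF.fst.comp PTF.fst)) PTF.snd
  have h4 : PTF (fun q : ((α × Str) × ℕ) × β => out ((q.1.1.1, q.2),
      (q.1.1.2.drop (rr N B q.1.1.1 * q.1.2)).take (N.eval (sz (q.1.1.1, q.2))))) :=
    hout.comp (PTF.pair (PTF.pair (PTF.fst.comp (PTF.fst.comp PTF.fst)) PTF.snd) h3)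
  have h5 : PTF (fun q : (α × Str) × ℕ => ((l q.1.1)[q.2]?).map
      (fun b => out ((q.1.1, b), (q.1.2.drop (rr N B q.1.1 * q.2)).take
        (N.eval (sz (q.1.1, b)))))) :=
    PTF.optionMap' (f := fun (q : (α × Str) × ℕ) (b : β) => out ((q.1.1, b),
      (q.1.2.drop (rr N B q.1.1 * q.2)).take (N.eval (sz (q.1.1, b))))) h4 h2
  exact PTF.filterMap h1 h5

theorem qf_apply (l : α → List β) (Q : (α × β) × Str → Str) (N B : Polynomial ℕ) (x : α)
    (a : Str) : qf l Q N B (x, a) = (((l x)[a.length / rr N B x]?).map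
      (fun b => Q ((x, b), a.drop (rr N B x * (a.length / rr N B x))))).getD [] := rfl

omit [Enc γ] in
theorem block (hLen : StLen) (l : α → List β) (Q : (α × β) × Str → Str) (N B : Polynomial ℕ)
    (O : World) (x : α) {i : ℕ} (hi : i < (l x).length) : ∀ m, m ≤ rr N B x →
    qans (qf l Q N B) O x (rr N B x * i + m) =
      qans (qf l Q N B) O x (rr N B x * i) ++ qans Q O (x, (l x)[i]) m := by
  intro m
  induction m with
  | zero =>
    intro _
    simp [qans]
  | succ m ih =>
    intro hm
    have ih' := ih (by omega)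
    have hlen : (qans (qf l Q N B) O x (rr N B x * i + m)).length = rr N B x * i + m :=
      (hLen _ _ _ _ _).1
    have hlen2 : (qans (qf l Q N B) O x (rr N B x * i)).length = rr N B x * i :=
      (hLen _ _ _ _ _).1
    have hr : 0 < rr N B x := Nat.succ_pos _
    have hd : (rr N B x * i + m) / rr N B x = i := by
      rw [Nat.mul_add_div hr, Nat.div_eq_of_lt (by omega), Nat.add_zero]
    have hdrop : (qans (qf l Q N B) O x (rr N B x * i + m)).drop (rr N B x * i) =
        qans Q O (x, (l x)[i]) m := by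
      rw [ih', List.drop_left' hlen2]
    have hq : qf l Q N B (x, qans (qf l Q N B) O x (rr N B x * i + m)) =
        Q ((x, (l x)[i]), qans Q O (x, (l x)[i]) m) := by
      rw [qf_apply, hlen, hd, hdrop, List.getElem?_eq_getElem hi]
      rfl
    show qans (qf l Q N B) O x (rr N B x * i + m) ++
      [O (qf l Q N B (x, qans (qf l Q N B) O x (rr N B x * i + m)))] =
      qans (qf l Q N B) O x (rr N B x * i) ++ (qans Q O (x, (l x)[i]) m ++
        [O (Q ((x, (l x)[i]), qans Q O (x, (l x)[i]) m))])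
    rw [hq, ih', List.append_assoc]

omit [Enc γ] in
theorem block2 (hLen : StLen) (l : α → List β) (Q : (α × β) × Str → Str) (N B : Polynomial ℕ)
    (O : World) (x : α) {i : ℕ} (hi : i < (l x).length) (n M : ℕ) (hn : n ≤ rr N B x)
    (hM : rr N B x * i + n ≤ M) :
    ((qans (qf l Q N B) O x M).drop (rr N B x * i)).take n = qans Q O (x, (l x)[i]) n := by
  have hlen2 : (qans (qf l Q N B) O x (rr N B x * i)).length = rr N B x * i :=
    (hLen _ _ _ _ _).1
  rw [List.take_drop, (hLen _ _ _ _ M).2 _ hM, block hLen l Q N B O x hi n hn,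
    List.drop_left' hlen2]

theorem fm {δ : Type} : ∀ l : List δ, (List.range l.length).filterMap (fun j => l[j]?) = l := by
  intro l
  induction l with
  | nil => rfl
  | cons a l ih =>
    rw [List.length_cons, List.range_succ_eq_map, List.filterMap_cons_some
      (show (fun j => (a :: l)[j]?) 0 = some a from rfl), List.filterMap_map]
    congr 1

end Mapg

open Mapg in
theorem prf_Map (hLen : StLen) : StMap := by
  intro α β γ _ _ _ O l t hl ht
  obtain ⟨Q, N, out, hQ, hout, ht⟩ := ht
  obtain ⟨k, hk⟩ := hl.size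
  obtain ⟨B, hB⟩ : ∃ B : Polynomial ℕ, ∀ n, B.eval n = n + (n + 2) ^ k + 1 :=
    ⟨Polynomial.X + (Polynomial.X + 2) ^ k + 1, fun n => by simp⟩
  have h1 : ∀ x, ∀ b ∈ l x, sz (x, b) ≤ B.eval (sz x) := by
    intro x b hb
    have h3 := sz_le_of_mem hb
    have h4 : sz (l x) ≤ (sz x + 2) ^ k := hk x
    rw [sz_pair, hB]
    omega
  have h2 : ∀ x, (l x).length ≤ B.eval (sz x) := by
    intro x
    have h3 := length_le_sz (l x)
    have h4 : sz (l x) ≤ (sz x + 2) ^ k := hk x
    rw [hB]
    omega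
  refine ⟨qf l Q N B, (N.comp B + 1) * B, ofn l out N B, ptf_qf N B hl hQ, ptf_ofn N B hl hout, ?_⟩
  intro x
  have hM : ((N.comp B + 1) * B).eval (sz x) = rr N B x * B.eval (sz x) := by
    rw [Polynomial.eval_mul, Polynomial.eval_add, Polynomial.eval_comp, Polynomial.eval_one]
    rfl
  rw [hM]
  show _ = (l x).map (fun b => t (x, b))
  have hlen : ((l x).map (fun b => t (x, b))).length = (l x).length := List.length_map _
  rw [← fm ((l x).map (fun b => t (x, b))), hlen]
  unfold ofn
  apply List.filterMap_congr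
  intro i hi
  rw [List.mem_range] at hi
  simp only []
  rw [List.getElem?_map, List.getElem?_eq_getElem hi, Option.map_some, Option.map_some, ← ht]
  have h3 : sz (x, (l x)[i]) ≤ B.eval (sz x) := h1 x _ (List.getElem_mem hi)
  have h4 : N.eval (sz (x, (l x)[i])) ≤ rr N B x :=
    le_trans (Pool.Agent.RO.eval_mono N h3) (Nat.le_succ _)
  rw [block2 hLen l Q N B O x hi _ _ h4 ?_]
  calc rr N B x * i + N.eval (sz (x, (l x)[i])) ≤ rr N B x * i + rr N B x := by omega
    _ = rr N B x * (i + 1) := by ring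
    _ ≤ rr N B x * B.eval (sz x) := Nat.mul_le_mul_left _ (le_trans hi (h2 x))

end Pool.Agent.GW
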