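import Pool.Agent.Work.MP_46935e_lc.GW.Stmts

/-!
# Block GW, MP_46935e_lc, item Mch: machines
-/

set_option autoImplicit false

noncomputable section

namespace Pool.Agent.GW

open Pool.Agent.RO Pool.Agent.S1 Pool.Agent.PT Pool.Agent.Work.MP_46935e_lc N68a2faeb

namespace Mchg

variable {α β γ : Type} [Enc α] [Enc β] [Enc γ]

/-- polynomial-time functions after a query computable function -/
theorem post {O : World} {f : α → β} (hf : QC O f) {h : β → γ} (hh : PTF h) :
    QC O (fun x => h (f x)) := by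
  obtain ⟨Q, N, out, hQ, hout, hx⟩ := hf
  exact ⟨Q, N, fun p => h (out p), hQ, hh.comp hout, fun x => congrArg h (hx x)⟩

theorem qans_comp {α β : Type} (Q : β × Str → Str) (g : α → β) (O : World) (x : α) (n : ℕ) :
    qans (fun p : α × Str => Q (g p.1, p.2)) O x n = qans Q O (g x) n := by
  induction n with
  | zero => rfl
  | succ n ih => simp only [qans, ih]

/-- query computable functions after a polynomial-time function -/
theorem pre (hLen : StLen) {O : World} {f : β → γ} (hf : QC O f) {g : α → β} (hg : PTF g) :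
    QC O (fun x => f (g x)) := by
  obtain ⟨Q, N, out, hQ, hout, hx⟩ := hf
  obtain ⟨k, hk⟩ := hg.size
  refine ⟨fun p => Q (g p.1, p.2), N.comp ((Polynomial.X + 2) ^ k),
    fun p => out (g p.1, p.2.take (N.eval (sz (g p.1)))), ?_, ?_, fun x => ?_⟩
  · exact hQ.comp (PTF.pair (hg.comp PTF.fst) PTF.snd)
  · exact hout.comp (PTF.pair (hg.comp PTF.fst)
      (PTF.take PTF.snd (ptf_eval N (ptf_sz (hg.comp PTF.fst)))))
  · have h1 : N.eval (sz (g x)) ≤ (N.comp ((Polynomial.X + 2) ^ k)).eval (sz x) := by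
      rw [Polynomial.eval_comp]
      refine Pool.Agent.RO.eval_mono N ?_
      simpa using hk x
    show out (g x, (qans (fun p : α × Str => Q (g p.1, p.2)) O x
      ((N.comp ((Polynomial.X + 2) ^ k)).eval (sz x))).take (N.eval (sz (g x)))) = f (g x)
    rw [(hLen α _ O x _).2 _ h1, qans_comp]
    exact hx (g x)

theorem ptf_pr : PTF (fun p : Str × Str => pr p.1 p.2) :=
  PTF.append (ptf_dl PTF.fst) PTF.snd

theorem qc_qs (hLen : StLen) (O : World) (M : Mach) : QC O (M.qs O) := by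
  refine ⟨M.Q, M.N, fun p => (List.range (M.N.eval (sz p.1))).map
    (fun i => M.Q (p.1, p.2.take i)), M.hQ, ?_, fun z => ?_⟩
  · refine PTF.map' (f := fun (p : Str × Str) (i : ℕ) => M.Q (p.1, p.2.take i)) ?_
      (PTF.range (ptf_eval M.N (ptf_sz PTF.fst)))
    exact M.hQ.comp (PTF.pair (PTF.fst.comp PTF.fst)
      (PTF.take (PTF.snd.comp PTF.fst) PTF.snd))
  · show (List.range (M.N.eval (sz z))).map
      (fun i => M.Q (z, (qans M.Q O z (M.N.eval (sz z))).take i)) = M.qs O z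
    unfold Mach.qs
    refine List.map_congr_left fun i hi => ?_
    rw [(hLen Str M.Q O z _).2 i (List.mem_range.1 hi).le]

theorem toM {O : World} {f : Str → Str} (h : QC O f) : ∃ M : Mach, ∀ z, M.run O z = f z := by
  obtain ⟨Q, N, out, hQ, hout, hx⟩ := h
  exact ⟨⟨Q, N, out, hQ, hout⟩, hx⟩

theorem ofM (O : World) (M : Mach) : QC O (M.run O) :=
  ⟨M.Q, M.N, M.out, M.hQ, M.hout, fun _ => rfl⟩

end Mchg

theorem prf_Mch (hLen : StLen) : StMch := by
  refine ⟨fun O f => ⟨Mchg.toM, ?_⟩, fun O V hV => ?_, fun O h hh => ?_, fun O M =>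
    ⟨Mchg.ofM O M, Mchg.qc_qs hLen O M, ?_, ?_⟩⟩
  · rintro ⟨M, hM⟩
    have h1 : M.run O = f := funext hM
    rw [← h1]
    exact Mchg.ofM O M
  · have h1 : QC O (fun z : Str => [V (dec2 z)]) :=
      Mchg.post (h := fun b : Bool => [b]) (Mchg.pre hLen hV (ptf_dec2 PTF.id))
        (PTF.cons PTF.id (PTF.const []))
    obtain ⟨M, hM⟩ := Mchg.toM h1
    refine ⟨M, fun x w => ?_⟩
    rw [hM]
    unfold pr
    rw [dec2_dl]
  · have h1 : QC O (fun z : Str => h (dec2 z)) := Mchg.pre hLen hh (ptf_dec2 PTF.id)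
    obtain ⟨M, hM⟩ := Mchg.toM h1
    refine ⟨M, fun x w => ?_⟩
    rw [hM]
    unfold pr
    rw [dec2_dl]
  · exact Mchg.pre hLen (Mchg.ofM O M) Mchg.ptf_pr
  · exact Mchg.pre hLen (Mchg.qc_qs hLen O M) Mchg.ptf_pr

end Pool.Agent.GW
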