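import Pool.Agent.Work.MP_46935e_lc.GW.Stmts

/-!
# Block GW, item Pud: a complete TFNP problem gives a complete disjoint coNP pair
-/

set_option autoImplicit false

noncomputable section

namespace Pool.Agent.GW

open Pool.Agent.RO Pool.Agent.S1 Pool.Agent.PT Pool.Agent.Work.MP_46935e_lc N68a2faeb

namespace Pudg

variable {α β γ δ : Type} [Enc α] [Enc β] [Enc γ] [Enc δ]

omit [Enc α] [Enc β] in
theorem qans_comp (Q : β × Str → Str) (O : World) (π : α → β) (x : α) : ∀ n,
    qans (fun p : α × Str => Q (π p.1, p.2)) O x n = qans Q O (π x) n := by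
  intro n
  induction n with
  | zero => rfl
  | succ n ih => simp only [qans, ih]

/-- composition with a polynomial-time function on the right -/
theorem comp_ptf (hLen : StLen) {O : World} {g : β → γ} (hg : QC O g) {π : α → β}
    (hπ : PTF π) : QC O (fun x => g (π x)) := by
  obtain ⟨Q, N, out, hQ, hout, h⟩ := hg
  obtain ⟨k, hk⟩ := hπ.size
  refine ⟨fun p => Q (π p.1, p.2), N.comp ((Polynomial.X + 2) ^ k),
    fun p => out (π p.1, p.2.take (N.eval (sz (π p.1)))), ?_, ?_, ?_⟩
  · fun_prop
  · have h1 : PTF (fun p : α × Str => N.eval (sz (π p.1))) :=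
      ptf_eval N (ptf_sz (hπ.comp PTF.fst))
    fun_prop
  · intro x
    have h2 : N.eval (sz (π x)) ≤ (N.comp ((Polynomial.X + 2) ^ k)).eval (sz x) := by
      rw [Polynomial.eval_comp]
      refine RO.eval_mono N ?_
      have h3 := hk x
      simpa using h3
    simp only
    rw [qans_comp, (hLen β Q O (π x) _).2 _ h2]
    exact h (π x)

theorem comp (hLen : StLen) (hCmp : StCmp) {O : World} {f : α → β} {g : β → γ}
    (hf : QC O f) (hg : QC O g) : QC O (fun x => g (f x)) :=
  hCmp α β γ O f (fun p => g p.2) hf (comp_ptf hLen hg PTF.snd)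

theorem ptf (hEas : StEas) {O : World} {f : α → β} (hf : PTF f) : QC O f :=
  (hEas α β O).1 f hf

theorem pair (hLen : StLen) (hEas : StEas) (hCmp : StCmp) {O : World} {f : α → β} {g : α → γ}
    (hf : QC O f) (hg : QC O g) : QC O (fun x => (f x, g x)) := by
  refine hCmp α β (β × γ) O f (fun p => (p.2, g p.1)) hf ?_
  refine hCmp (α × β) γ (β × γ) O (fun p => g p.1) (fun p => (p.1.2, p.2))
    (comp_ptf hLen hg PTF.fst) (ptf hEas ?_)
  fun_prop

theorem length_pr (x w : Str) : (pr x w).length = 2 * x.length + 1 + w.length := by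
  have h : ∀ l : Str, (dl l).length = 2 * l.length + 1 := by
    intro l
    rw [dl_eq]
    induction l with
    | nil => rfl
    | cons b l ih =>
      simp only [List.flatMap_cons, List.length_append, List.length_cons, List.length_nil] at ih ⊢
      omega
  unfold pr
  rw [List.length_append, h]

theorem ptf_prr {f g : α → Str} (hf : PTF f) (hg : PTF g) : PTF (fun a => pr (f a) (g a)) := by
  unfold pr
  exact (ptf_dl hf).append hg

end Pudg

open Pudg

theorem prf_Pud (hLen : StLen) (hEas : StEas) (hCmp : StCmp) (hCnv : StCnv) (hMch : StMch)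
    (hBnd : StBnd) (hUni : StUni) : StPud := by
  intro O ⟨S, hS, hScomp⟩
  obtain ⟨UE, hUE, hU⟩ := hUni
  obtain ⟨cS, cV, cH⟩ := hCnv O
  have qS : QC O S := (cV S).1 hS.poly
  obtain ⟨pS, hpS⟩ := hS.bounded
  -- the instance
  set y : Str → Str := fun z => UE O ((dec2 (dec2 z).2).1, (dec2 z).1) with hy
  have qy : QC O y := comp_ptf (π := fun z : Str => ((dec2 (dec2 z).2).1, (dec2 z).1)) hLen (hUE O)
    (by fun_prop)
  set val : Str × Str → Str := fun p => UE O ((dec2 (dec2 p.1).2).2, pr (dec2 p.1).1 p.2) with hval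
  have qval : QC O val := comp_ptf
    (π := fun p : Str × Str => ((dec2 (dec2 p.1).2).2, pr (dec2 p.1).1 p.2)) hLen (hUE O)
    (PTF.pair (by fun_prop) (ptf_prr (by fun_prop) (by fun_prop)))
  set W : Bool → Str × Str → Bool := fun b p =>
    S (y p.1, p.2) && decide ((val p).headD false = b) with hW
  have qW : ∀ b, QC O (W b) := by
    intro b
    have h1 : QC O (fun p : Str × Str => S (y p.1, p.2)) :=
      comp hLen hCmp (pair hLen hEas hCmp (comp_ptf hLen qy PTF.fst) (ptf hEas PTF.snd)) qS
    have h2 : QC O (fun p : Str × Str => (S (y p.1, p.2), val p)) := pair hLen hEas hCmp h1 qval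
    refine comp (g := fun q : Bool × Str => q.1 && decide (q.2.headD false = b)) hLen hCmp h2
      (ptf hEas ?_)
    fun_prop
  obtain ⟨My, hMy⟩ := (hMch.1 O y).1 qy
  obtain ⟨Py, hPy⟩ := hBnd My
  have hylen : ∀ z, (y z).length ≤ Py.eval z.length := fun z => by
    rw [← hMy z]; exact (hPy O z).1
  classical
  set A : Bool → DecisionProblem := fun b z => decide (¬ ∃ s, W b (z, s) = true) with hA
  have hmem : ∀ b, A b ∈ coNPRel O := by
    intro b
    refine ⟨pS.comp Py, W b, (cV (W b)).2 (qW b), fun z => ?_⟩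
    have h1 : ((A b)ᶜ z = true) ↔ ∃ s, W b (z, s) = true := by
      show (!(A b z)) = true ↔ _
      simp [hA]
    refine h1.trans ⟨fun ⟨s, hs⟩ => ⟨s, ?_, hs⟩, fun ⟨s, _, hs⟩ => ⟨s, hs⟩⟩
    have h2 : S (y z, s) = true := by
      have : (S (y z, s) && decide ((val (z, s)).headD false = b)) = true := hs
      exact (Bool.and_eq_true_iff.mp this).1
    rw [Polynomial.eval_comp]
    exact (hpS _ _ h2).trans (RO.eval_mono pS (hylen z))
  refine ⟨A false, A true, ⟨hmem false, hmem true, fun z hz => ?_⟩, fun A' B' hAB => ?_⟩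
  · obtain ⟨hz1, hz2⟩ := hz
    have e1 : ¬ ∃ s, W false (z, s) = true := of_decide_eq_true hz1
    have e2 : ¬ ∃ s, W true (z, s) = true := of_decide_eq_true hz2
    obtain ⟨s, hs⟩ := hS.total (y z)
    rcases hb : (val (z, s)).headD false with _ | _
    · exact e1 ⟨s, by simp only [hW, hs, hb]; rfl⟩
    · exact e2 ⟨s, by simp only [hW, hs, hb]; rfl⟩
  · -- completeness
    obtain ⟨p0, V0, hV0, h0⟩ := hAB.memA
    obtain ⟨p1, V1, hV1, h1⟩ := hAB.memB
    have q0 : QC O V0 := (cV V0).1 hV0
    have q1 : QC O V1 := (cV V1).1 hV1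
    set V' : Str × Str → Bool := fun p => !(p.2.isEmpty) &&
      (bif p.2.headD false then decide (p.2.tail.length ≤ p1.eval p.1.length) && V1 (p.1, p.2.tail)
        else decide (p.2.tail.length ≤ p0.eval p.1.length) && V0 (p.1, p.2.tail)) with hV'
    have qV' : QC O V' := by
      have e0 : QC O (fun p : Str × Str => V0 (p.1, p.2.tail)) :=
        comp_ptf (π := fun p : Str × Str => (p.1, p.2.tail)) hLen q0 (by fun_prop)
      have e1 : QC O (fun p : Str × Str => V1 (p.1, p.2.tail)) :=
        comp_ptf (π := fun p : Str × Str => (p.1, p.2.tail)) hLen q1 (by fun_prop)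
      have e2 : QC O (fun p : Str × Str => (p, (V0 (p.1, p.2.tail), V1 (p.1, p.2.tail)))) :=
        pair hLen hEas hCmp (ptf hEas PTF.id) (pair hLen hEas hCmp e0 e1)
      refine comp (g := fun q : (Str × Str) × (Bool × Bool) => !(q.1.2.isEmpty) &&
        (bif q.1.2.headD false then decide (q.1.2.tail.length ≤ p1.eval q.1.1.length) && q.2.2
          else decide (q.1.2.tail.length ≤ p0.eval q.1.1.length) && q.2.1)) hLen hCmp e2
        (ptf hEas ?_)
      have e3 : PTF (fun q : (Str × Str) × (Bool × Bool) => p1.eval q.1.1.length) :=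
        ptf_eval p1 (by fun_prop)
      have e4 : PTF (fun q : (Str × Str) × (Bool × Bool) => p0.eval q.1.1.length) :=
        ptf_eval p0 (by fun_prop)
      fun_prop
    have hT : IsTFNPRel O V' := by
      refine ⟨(cV V').2 qV', ⟨p0 + p1 + 1, fun x u hu => ?_⟩, fun x => ?_⟩
      · rcases u with _ | ⟨b, w⟩
        · exact Nat.zero_le _
        · simp only [Polynomial.eval_add, Polynomial.eval_one, List.length_cons]
          rcases b with _ | _
          · have h3 : (decide (w.length ≤ p0.eval x.length) && V0 (x, w)) = true := hu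
            have h4 := of_decide_eq_true (Bool.and_eq_true_iff.mp h3).1
            omega
          · have h3 : (decide (w.length ≤ p1.eval x.length) && V1 (x, w)) = true := hu
            have h4 := of_decide_eq_true (Bool.and_eq_true_iff.mp h3).1
            omega
      · by_cases hx : A' x = true
        · have hx2 : B' x = false := by
            rcases hb : B' x with _ | _
            · rfl
            · exact absurd ⟨hx, hb⟩ (hAB.disjoint x)
          obtain ⟨w, hw1, hw2⟩ := (h1 x).1 (show (!(B' x)) = true by rw [hx2]; rfl)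
          exact ⟨true :: w, show (decide (w.length ≤ p1.eval x.length) && V1 (x, w)) = true by
            rw [hw2, decide_eq_true hw1]; rfl⟩
        · obtain ⟨w, hw1, hw2⟩ := (h0 x).1 (show (!(A' x)) = true by simpa using hx)
          exact ⟨false :: w, show (decide (w.length ≤ p0.eval x.length) && V0 (x, w)) = true by
            rw [hw2, decide_eq_true hw1]; rfl⟩
    obtain ⟨f, h, hf, hh, hred⟩ := hScomp V' hT
    have qf : QC O f := (cS f).1 hf
    have qh : QC O h := (cH h).1 hh
    obtain ⟨Mf, hMf⟩ := (hMch.1 O f).1 qf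
    obtain ⟨Mh, hMh⟩ := hMch.2.2.1 O h qh
    obtain ⟨κf, hκf, Pf, hPf⟩ := hU Mf
    obtain ⟨κh, hκh, Ph, hPh⟩ := hU Mh
    obtain ⟨Bf, hBf⟩ := hBnd Mf
    have hflen : ∀ x, (f x).length ≤ Bf.eval x.length := fun x => by
      rw [← hMf x]; exact (hBf O x).1
    set nP : Polynomial ℕ := Pf + Ph.comp (2 * Polynomial.X + 1 + pS.comp Bf) with hnP
    set red : Str → Str := fun x => pr x (pr (κf (nP.eval x.length)) (κh (nP.eval x.length)))
      with hredd
    have pred : PTF red := by
      have e1 : PTF (fun x : Str => nP.eval x.length) := ptf_eval nP (by fun_prop)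
      exact ptf_prr PTF.id (ptf_prr (hκf.comp e1) (hκh.comp e1))
    have hdec1 : ∀ x, dec2 (red x) = (x, pr (κf (nP.eval x.length)) (κh (nP.eval x.length))) :=
      fun x => dec2_dl _ _
    have hdec2 : ∀ x, dec2 (dec2 (red x)).2 = (κf (nP.eval x.length), κh (nP.eval x.length)) :=
      fun x => by rw [hdec1]; exact dec2_dl _ _
    have hyr : ∀ x, y (red x) = f x := by
      intro x
      show UE O ((dec2 (dec2 (red x)).2).1, (dec2 (red x)).1) = f x
      rw [hdec2, hdec1, ← hMf x]
      refine hPf O x _ ?_
      rw [hnP, Polynomial.eval_add]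
      exact Nat.le_add_right _ _
    have hvr : ∀ x s, S (f x, s) = true → val (red x, s) = h (x, s) := by
      intro x s hs
      show UE O ((dec2 (dec2 (red x)).2).2, pr (dec2 (red x)).1 s) = h (x, s)
      rw [hdec2, hdec1, ← hMh x s]
      refine hPh O _ _ ?_
      have e1 : s.length ≤ pS.eval (Bf.eval x.length) :=
        (hpS _ _ hs).trans (RO.eval_mono pS (hflen x))
      have e2 : (pr x s).length ≤ 2 * x.length + 1 + pS.eval (Bf.eval x.length) := by
        rw [length_pr]; omega
      refine (RO.eval_mono Ph e2).trans ?_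
      rw [hnP, Polynomial.eval_add, Polynomial.eval_comp]
      simp only [Polynomial.eval_add, Polynomial.eval_mul, Polynomial.eval_X, Polynomial.eval_one,
        Polynomial.eval_comp, Polynomial.eval_ofNat]
      exact Nat.le_add_left _ _
    have hWr : ∀ b x, A b (red x) ≠ true → ∃ w, V' (x, b :: w) = true := by
      intro b x hne
      have e1 : ∃ s, W b (red x, s) = true := by
        by_contra hcon
        exact hne (decide_eq_true hcon)
      obtain ⟨s, hs⟩ := e1
      have e2 : (S (y (red x), s) && decide ((val (red x, s)).headD false = b)) = true := hs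
      obtain ⟨e3, e4⟩ := Bool.and_eq_true_iff.mp e2
      rw [hyr] at e3
      have e5 := of_decide_eq_true e4
      rw [hvr x s e3] at e5
      have e6 := hred x s e3
      rcases hu : h (x, s) with _ | ⟨b', w⟩
      · rw [hu] at e6
        exact absurd e6 (by simp [hV'])
      · rw [hu] at e5 e6
        have e7 : b' = b := e5
        subst e7
        exact ⟨w, e6⟩
    refine ⟨red, (cS red).2 (ptf hEas pred), fun x hx => ?_, fun x hx => ?_⟩
    · by_contra hne
      obtain ⟨w, hw⟩ := hWr false x hne
      have h3 : (decide (w.length ≤ p0.eval x.length) && V0 (x, w)) = true := hw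
      obtain ⟨h4, h5⟩ := Bool.and_eq_true_iff.mp h3
      have h6 : (!(A' x)) = true := (h0 x).2 ⟨w, of_decide_eq_true h4, h5⟩
      rw [hx] at h6
      exact absurd h6 (by decide)
    · by_contra hne
      obtain ⟨w, hw⟩ := hWr true x hne
      have h3 : (decide (w.length ≤ p1.eval x.length) && V1 (x, w)) = true := hw
      obtain ⟨h4, h5⟩ := Bool.and_eq_true_iff.mp h3
      have h6 : (!(B' x)) = true := (h1 x).2 ⟨w, of_decide_eq_true h4, h5⟩
      rw [hx] at h6
      exact absurd h6 (by decide)

end Pool.Agent.GW
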