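import Pool.Agent.Work.MP_46935e_lc.GW.Stmts

/-!
# Block GW, item Rev: in a world where `Good` is forced, a complete pair gives a complete TFNP problem
-/

set_option autoImplicit false

noncomputable section

namespace Pool.Agent.GW

open Pool.Agent.RO Pool.Agent.S1 Pool.Agent.PT Pool.Agent.Work.MP_46935e_lc N68a2faeb

namespace Revg

/-! ### Query computable functions -/

lemma qans_length {α : Type} (Q : α × Str → Str) (O : World) (x : α) (n : ℕ) :
    (qans Q O x n).length = n := by
  induction n with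
  | zero => rfl
  | succ n ih => rw [qans, List.length_append, ih]; rfl

lemma qans_take {α : Type} (Q : α × Str → Str) (O : World) (x : α) (m : ℕ) :
    ∀ n, m ≤ n → (qans Q O x n).take m = qans Q O x m := by
  intro n
  induction n with
  | zero =>
    intro h
    have h0 : m = 0 := by omega
    subst h0
    rfl
  | succ n ih =>
    intro h
    rcases Nat.lt_or_ge n m with h1 | h1
    · have h2 : m = n + 1 := by omega
      subst h2
      exact List.take_of_length_le (le_of_eq (qans_length Q O x (n + 1)))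
    · rw [qans, List.take_append_of_le_length (by rw [qans_length]; exact h1)]
      exact ih h1

lemma qans_pre {α β : Type} (Q : β × Str → Str) (φ : α → β) (O : World) (x : α) (n : ℕ) :
    qans (fun p : α × Str => Q (φ p.1, p.2)) O x n = qans Q O (φ x) n := by
  induction n with
  | zero => rfl
  | succ n ih => rw [qans, qans, ih]

/-- A polynomial bound for the size of the values of a polynomial-time function. -/
lemma exists_bd {α β : Type} [Enc α] [Enc β] {φ : α → β} (h : PTF φ) :
    ∃ B : Polynomial ℕ, ∀ x, sz (φ x) ≤ B.eval (sz x) := by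
  obtain ⟨k, hk⟩ := h.size
  refine ⟨(Polynomial.X + 2) ^ k, fun x => ?_⟩
  simpa using hk x

section

variable (hEas : StEas) (hCmp : StCmp)

include hEas

lemma qc_ptf {α β : Type} [Enc α] [Enc β] {O : World} {f : α → β} (h : PTF f) : QC O f :=
  (hEas α β O).1 f h

include hCmp

lemma qc_pre {α β γ : Type} [Enc α] [Enc β] [Enc γ] {O : World} {φ : α → β} {g : β → γ}
    (hφ : PTF φ) (hg : QC O g) : QC O (fun x => g (φ x)) := by
  obtain ⟨Q, N, out, hQ, hout, hev⟩ := hg
  obtain ⟨B, hB⟩ := exists_bd hφ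
  have hQ' : PTF (fun p : α × Str => Q (φ p.1, p.2)) :=
    hQ.comp ((hφ.comp PTF.fst).pair PTF.snd)
  have h1 := (hEas α β O).2.2 (fun p : α × Str => Q (φ p.1, p.2)) (N.comp B) hQ'
  have h2 : PTF (fun p : α × Str => out (φ p.1, p.2.take (N.eval (sz (φ p.1))))) := by
    have h3 : PTF (fun p : α × Str => N.eval (sz (φ p.1))) :=
      ptf_eval N (ptf_sz (hφ.comp PTF.fst))
    have h4 : PTF (fun p : α × Str => p.2.take (N.eval (sz (φ p.1)))) := by fun_prop
    exact hout.comp ((hφ.comp PTF.fst).pair h4)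
  have h5 := hCmp α Str γ O _ _ h1 (qc_ptf hEas (O := O) h2)
  refine (congrArg (QC O) (funext fun x => ?_)).mp h5
  show out (φ x, (qans (fun p : α × Str => Q (φ p.1, p.2)) O x ((N.comp B).eval (sz x))).take
    (N.eval (sz (φ x)))) = g (φ x)
  rw [qans_pre, qans_take, hev]
  rw [Polynomial.eval_comp]
  exact Pool.Agent.RO.eval_mono N (hB x)

lemma qc_post {α β γ : Type} [Enc α] [Enc β] [Enc γ] {O : World} {f : α → β} {F : β → γ}
    (hf : QC O f) (hF : PTF F) : QC O (fun x => F (f x)) :=
  hCmp α β γ O f (fun p => F p.2) hf (qc_ptf hEas (hF.comp PTF.snd))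

lemma qc_pair {α β γ : Type} [Enc α] [Enc β] [Enc γ] {O : World} {f : α → β} {g : α → γ}
    (hf : QC O f) (hg : QC O g) : QC O (fun x => (f x, g x)) := by
  have h1 : QC O (fun p : α × β => g p.1) := qc_pre hEas hCmp PTF.fst hg
  have h2 : QC O (fun p : α × β => (p.2, g p.1)) :=
    hCmp (α × β) γ (β × γ) O (fun p => g p.1) (fun q => (q.1.2, q.2)) h1
      (qc_ptf hEas ((PTF.snd.comp PTF.fst).pair PTF.snd))
  exact hCmp α β (β × γ) O f (fun p => (p.2, g p.1)) hf h2

end

/-! ### The search problem -/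

/-- The search problem obtained from the verifiers of a disjoint coNP pair. -/
def SS (p₀ p₁ : Polynomial ℕ) (V₀ V₁ : Str × Str → Bool) (q : Str × Str) : Bool :=
  !q.2.isEmpty && (if q.2.headD false = true then
    decide (q.2.tail.length ≤ p₁.eval q.1.length) && V₁ (q.1, q.2.tail)
    else decide (q.2.tail.length ≤ p₀.eval q.1.length) && V₀ (q.1, q.2.tail))

lemma SS_cons (p₀ p₁ : Polynomial ℕ) (V₀ V₁ : Str × Str → Bool) (y u : Str) (b : Bool) :
    SS p₀ p₁ V₀ V₁ (y, b :: u) = true ↔
      (if b = true then u.length ≤ p₁.eval y.length ∧ V₁ (y, u) = true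
        else u.length ≤ p₀.eval y.length ∧ V₀ (y, u) = true) := by
  cases b with
  | false =>
    show (true && (decide (u.length ≤ p₀.eval y.length) && V₀ (y, u))) = true ↔
      u.length ≤ p₀.eval y.length ∧ V₀ (y, u) = true
    rw [Bool.true_and, Bool.and_eq_true, decide_eq_true_iff]
  | true =>
    show (true && (decide (u.length ≤ p₁.eval y.length) && V₁ (y, u))) = true ↔
      u.length ≤ p₁.eval y.length ∧ V₁ (y, u) = true
    rw [Bool.true_and, Bool.and_eq_true, decide_eq_true_iff]

lemma SS_nil (p₀ p₁ : Polynomial ℕ) (V₀ V₁ : Str × Str → Bool) (y : Str) :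
    SS p₀ p₁ V₀ V₁ (y, []) = false := by
  simp [SS]

lemma qc_SS (hEas : StEas) (hCmp : StCmp) (O : World) (p₀ p₁ : Polynomial ℕ)
    (V₀ V₁ : Str × Str → Bool) (h₀ : QC O V₀) (h₁ : QC O V₁) : QC O (SS p₀ p₁ V₀ V₁) := by
  have hφ : PTF (fun q : Str × Str => (q.1, q.2.tail)) := by fun_prop
  have h2 : QC O (fun q : Str × Str => (V₀ (q.1, q.2.tail), V₁ (q.1, q.2.tail))) :=
    qc_pair hEas hCmp (qc_pre hEas hCmp hφ h₀) (qc_pre hEas hCmp hφ h₁)
  have hp0 : PTF (fun r : (Str × Str) × (Bool × Bool) => p₀.eval r.1.1.length) :=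
    ptf_eval p₀ (by fun_prop)
  have hp1 : PTF (fun r : (Str × Str) × (Bool × Bool) => p₁.eval r.1.1.length) :=
    ptf_eval p₁ (by fun_prop)
  have hF : PTF (fun r : (Str × Str) × (Bool × Bool) =>
      !r.1.2.isEmpty && (if r.1.2.headD false = true then
        decide (r.1.2.tail.length ≤ p₁.eval r.1.1.length) && r.2.2
        else decide (r.1.2.tail.length ≤ p₀.eval r.1.1.length) && r.2.1)) := by
    fun_prop
  exact hCmp (Str × Str) (Bool × Bool) Bool O _ _ h2 (qc_ptf hEas (O := O) hF)

/-! ### coNP -/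

lemma mem_coNP_iff {O : World} {A : DecisionProblem} : A ∈ coNPRel O ↔
    ∃ (p : Polynomial ℕ) (V : Str × Str → Bool), IsPolyTimeRel O V ∧
      ∀ x, A x = false ↔ ∃ w : Str, w.length ≤ p.eval x.length ∧ V (x, w) = true := by
  have hc : ∀ x, Aᶜ x = !(A x) := fun x => rfl
  show (∃ (p : Polynomial ℕ) (V : Str × Str → Bool), IsPolyTimeRel O V ∧
      ∀ x, Aᶜ x = true ↔ ∃ w : Str, w.length ≤ p.eval x.length ∧ V (x, w) = true) ↔ _
  simp only [hc, Bool.not_eq_true']

/-! ### The pair with hidden colours -/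

lemma ptf_cpos (P : Polynomial ℕ) :
    PTF (fun p : Str × Str => true :: cpos (P.eval p.1.length) p.1 p.2) := by
  have hP : PTF (fun p : Str × Str => P.eval p.1.length) := ptf_eval P (by fun_prop)
  unfold cpos pr
  fun_prop

open Classical in
/-- One side of the pair with hidden colours. -/
def AR (V' : Str × Str → Bool) (pR P : Polynomial ℕ) (O : World) (c : Bool) (x : Str) : Bool :=
  decide (¬ ∃ w : Str, w.length ≤ pR.eval x.length ∧
    (V' (x, w) && (O (true :: cpos (P.eval x.length) x w) == c)) = true)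

lemma AR_false (V' : Str × Str → Bool) (pR P : Polynomial ℕ) (O : World) (c : Bool) (x : Str) :
    AR V' pR P O c x = false ↔ ∃ w : Str, w.length ≤ pR.eval x.length ∧
      (V' (x, w) && (O (true :: cpos (P.eval x.length) x w) == c)) = true := by
  unfold AR
  rw [decide_eq_false_iff_not, not_not]

lemma AR_coNP (hEas : StEas) (hCmp : StCmp) (hCnv : StCnv) (V' : Str × Str → Bool)
    (pR P : Polynomial ℕ) (O : World) (c : Bool) (hV : QC O V') :
    AR V' pR P O c ∈ coNPRel O := by
  have h1 : QC O (fun p : Str × Str => O (true :: cpos (P.eval p.1.length) p.1 p.2)) :=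
    (hEas (Str × Str) Bool O).2.1 _ (ptf_cpos P)
  have h2 := qc_pair hEas hCmp hV h1
  have hF : PTF (fun r : Bool × Bool => r.1 && (r.2 == c)) := by fun_prop
  have h3 := qc_post hEas hCmp h2 hF
  exact mem_coNP_iff.2 ⟨pR, _, ((hCnv O).2.1 _).2 h3, fun x => AR_false V' pR P O c x⟩

lemma AR_pair (hEas : StEas) (hCmp : StCmp) (hCnv : StCnv) (V' : Str × Str → Bool)
    (pR P : Polynomial ℕ) (O : World) (hV : QC O V')
    (htot : ∀ x, ∃ w : Str, w.length ≤ pR.eval x.length ∧ V' (x, w) = true) :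
    IsDisjointCoNPPairRel O (AR V' pR P O false) (AR V' pR P O true) := by
  refine ⟨AR_coNP hEas hCmp hCnv V' pR P O false hV, AR_coNP hEas hCmp hCnv V' pR P O true hV, ?_⟩
  rintro x ⟨h1, h2⟩
  obtain ⟨w, hw, hV⟩ := htot x
  cases hO : O (true :: cpos (P.eval x.length) x w) with
  | false =>
    have h3 : AR V' pR P O false x = false := (AR_false V' pR P O false x).2
      ⟨w, hw, by rw [hV, hO]; rfl⟩
    rw [h3] at h1
    cases h1
  | true =>
    have h3 : AR V' pR P O true x = false := (AR_false V' pR P O true x).2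
      ⟨w, hw, by rw [hV, hO]; rfl⟩
    rw [h3] at h2
    cases h2

/-- Lists of solutions for all short instances. -/
lemma exists_table (R : Str → Str → Prop) (m : ℕ) (h : ∀ x, ∃ w, R x w) :
    ∃ T : List (Str × Str), (∀ q ∈ T, q.1.length < m ∧ R q.1 q.2) ∧
      ∀ x : Str, x.length < m → ∃ w, (x, w) ∈ T := by
  choose s hs using h
  refine ⟨((List.finite_length_lt Bool m).toFinset.toList).map (fun x => (x, s x)), ?_, ?_⟩
  · intro q hq
    rw [List.mem_map] at hq
    obtain ⟨x, hx, rfl⟩ := hq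
    rw [Finset.mem_toList, Set.Finite.mem_toFinset] at hx
    exact ⟨hx, hs x⟩
  · intro x hx
    refine ⟨s x, List.mem_map.2 ⟨x, ?_, rfl⟩⟩
    rw [Finset.mem_toList, Set.Finite.mem_toFinset]
    exact hx

lemma length_pr (x w : Str) : (pr x w).length = 2 * x.length + 1 + w.length := by
  unfold pr
  rw [List.length_append, dl, N487b59b3.length_delimit]

/-- Padding. -/
lemma exists_pad (hBnd : StBnd) (M : Mach) (pR : Polynomial ℕ) : ∃ P : Polynomial ℕ,
    ∀ (O : World) (x w : Str), w.length ≤ pR.eval x.length → ∀ q ∈ M.qs O (pr x w),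
      q.length ≤ P.eval x.length := by
  obtain ⟨P₀, hP₀⟩ := hBnd M
  refine ⟨P₀.comp (2 * Polynomial.X + 1 + pR), fun O x w hw q hq => ?_⟩
  refine ((hP₀ O (pr x w)).2.2 q hq).trans ?_
  rw [Polynomial.eval_comp]
  refine Pool.Agent.RO.eval_mono P₀ ?_
  rw [length_pr]
  simp only [Polynomial.eval_add, Polynomial.eval_mul, Polynomial.eval_ofNat, Polynomial.eval_X,
    Polynomial.eval_one]
  omega

end Revg

open Revg

/-- REV. -/
theorem prf_Rev (hEas : StEas) (hCmp : StCmp) (hCnv : StCnv) (hMch : StMch) (hBnd : StBnd)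
    (hCor : StCor) (hCnd : StCnd) : StRev := by
  intro C G hGF hpair
  obtain ⟨A₀, B₀, hAB, hcomp⟩ := hpair
  obtain ⟨p₀, V₀, hV₀, hA₀⟩ := mem_coNP_iff.1 hAB.memA
  obtain ⟨p₁, V₁, hV₁, hB₀⟩ := mem_coNP_iff.1 hAB.memB
  have hQ₀ : QC (join G C) V₀ := ((hCnv (join G C)).2.1 V₀).1 hV₀
  have hQ₁ : QC (join G C) V₁ := ((hCnv (join G C)).2.1 V₁).1 hV₁
  obtain ⟨MA, hMA⟩ := hMch.2.1 (join G C) V₀ hQ₀
  obtain ⟨MB, hMB⟩ := hMch.2.1 (join G C) V₁ hQ₁
  have hSolA : ∀ y u, Sol MA p₀ (join G C) y u ↔
      u.length ≤ p₀.eval y.length ∧ V₀ (y, u) = true := fun y u => by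
    unfold Sol
    rw [hMA y u]
    simp
  have hSolB : ∀ y u, Sol MB p₁ (join G C) y u ↔
      u.length ≤ p₁.eval y.length ∧ V₁ (y, u) = true := fun y u => by
    unfold Sol
    rw [hMB y u]
    simp
  refine ⟨SS p₀ p₁ V₀ V₁, ⟨?_, ?_, ?_⟩, ?_⟩
  · exact ((hCnv (join G C)).2.1 _).2 (qc_SS hEas hCmp (join G C) p₀ p₁ V₀ V₁ hQ₀ hQ₁)
  · refine ⟨p₀ + p₁ + 1, fun y u hu => ?_⟩
    rw [Polynomial.eval_add, Polynomial.eval_add, Polynomial.eval_one]
    cases u with
    | nil => exact Nat.zero_le _
    | cons b u =>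
      rw [SS_cons] at hu
      rw [List.length_cons]
      cases b with
      | false =>
        rw [if_neg (by simp)] at hu
        have := hu.1
        omega
      | true =>
        rw [if_pos rfl] at hu
        have := hu.1
        omega
  · intro y
    by_cases hA : A₀ y = true
    · have hB : B₀ y = false := by
        cases hB : B₀ y with
        | false => rfl
        | true => exact absurd ⟨hA, hB⟩ (hAB.disjoint y)
      obtain ⟨u, hu⟩ := (hB₀ y).1 hB
      exact ⟨true :: u, (SS_cons p₀ p₁ V₀ V₁ y u true).2 (by rw [if_pos rfl]; exact hu)⟩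
    · have hA' : A₀ y = false := by simpa using hA
      obtain ⟨u, hu⟩ := (hA₀ y).1 hA'
      exact ⟨false :: u, (SS_cons p₀ p₁ V₀ V₁ y u false).2 (by rw [if_neg (by simp)]; exact hu)⟩
  · intro V' hV'
    obtain ⟨pR, hpR⟩ := hV'.bounded
    have hQ' : QC (join G C) V' := ((hCnv (join G C)).2.1 V').1 hV'.poly
    obtain ⟨MR, hMR⟩ := hMch.2.1 (join G C) V' hQ'
    have hSolR : ∀ x w, Sol MR pR (join G C) x w ↔ V' (x, w) = true := fun x w => by
      unfold Sol
      rw [hMR x w]
      constructor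
      · rintro ⟨-, h⟩
        simpa using h
      · intro h
        exact ⟨hpR x w h, by rw [h]⟩
    obtain ⟨P, hP⟩ := exists_pad hBnd MR pR
    have htot : ∀ x, ∃ w : Str, w.length ≤ pR.eval x.length ∧ V' (x, w) = true := fun x => by
      obtain ⟨w, hw⟩ := hV'.total x
      exact ⟨w, hpR x w hw, hw⟩
    obtain ⟨f, hf, hfA, hfB⟩ := hcomp _ _
      (AR_pair hEas hCmp hCnv V' pR P (join G C) hQ' htot)
    obtain ⟨Mf, hMf⟩ := (hMch.1 (join G C) f).1 (((hCnv (join G C)).1 f).1 hf)
    have hPad : Pad ⟨MR, pR, MA, p₀, MB, p₁, Mf⟩ P := hP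
    have hGood : Good ⟨MR, pR, MA, p₀, MB, p₁, Mf⟩ P C G := by
      refine ⟨?_, ?_, ?_⟩
      · intro x
        obtain ⟨w, -, hw⟩ := htot x
        exact ⟨w, (hSolR x w).2 hw⟩
      · intro x u hu
        replace hu : Sol MA p₀ (join G C) (Mf.run (join G C) x) u := hu
        rw [hMf x] at hu
        have h1 : A₀ (f x) = false := (hA₀ (f x)).2 ⟨u, (hSolA _ _).1 hu⟩
        have h2 : AR V' pR P (join G C) false x = false := by
          cases h3 : AR V' pR P (join G C) false x with
          | false => rfl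
          | true =>
            rw [hfA x h3] at h1
            cases h1
        obtain ⟨w, hw, h4⟩ := (AR_false _ _ _ _ _ _).1 h2
        rw [Bool.and_eq_true] at h4
        refine ⟨w, (hSolR x w).2 h4.1, ?_⟩
        exact (beq_iff_eq (a := G (cpos (P.eval x.length) x w))).1 h4.2
      · intro x u hu
        replace hu : Sol MB p₁ (join G C) (Mf.run (join G C) x) u := hu
        rw [hMf x] at hu
        have h1 : B₀ (f x) = false := (hB₀ (f x)).2 ⟨u, (hSolB _ _).1 hu⟩
        have h2 : AR V' pR P (join G C) true x = false := by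
          cases h3 : AR V' pR P (join G C) true x with
          | false => rfl
          | true =>
            rw [hfB x h3] at h1
            cases h1
        obtain ⟨w, hw, h4⟩ := (AR_false _ _ _ _ _ _).1 h2
        rw [Bool.and_eq_true] at h4
        refine ⟨w, (hSolR x w).2 h4.1, ?_⟩
        exact (beq_iff_eq (a := G (cpos (P.eval x.length) x w))).1 h4.2
    obtain ⟨m, hm⟩ := hGF _ P hGood
    obtain ⟨T, hT1, hT2⟩ := exists_table (fun x w => V' (x, w) = true) m hV'.total
    obtain ⟨h, hh, hh1, hh2⟩ := hCnd ⟨MR, pR, MA, p₀, MB, p₁, Mf⟩ (join G C) T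
    refine ⟨f, h, hf, ((hCnv (join G C)).2.2 h).2 hh, ?_⟩
    intro x u hu
    by_cases hx : x.length < m
    · obtain ⟨w, hw⟩ := hT2 x hx
      exact (hT1 _ (hh1 x w u hw)).2
    · have hxm : m ≤ x.length := not_lt.1 hx
      have hnT : ∀ w, (x, w) ∉ T := fun w hw => hx (hT1 _ hw).1
      cases u with
      | nil =>
        rw [SS_nil] at hu
        cases hu
      | cons b u =>
        rw [SS_cons] at hu
        have hc := hCor ⟨MR, pR, MA, p₀, MB, p₁, Mf⟩ P C G m hPad hm x hxm u
        refine (hSolR x (h (x, b :: u))).1 (hh2 x b u hnT ?_)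
        cases b with
        | false =>
          rw [if_neg (by simp)] at hu
          have h1 := hc.1 (by
            show Sol MA p₀ (join G C) (Mf.run (join G C) x) u
            rw [hMf x]
            exact (hSolA _ _).2 hu)
          simpa using h1
        | true =>
          rw [if_pos rfl] at hu
          have h1 := hc.2 (by
            show Sol MB p₁ (join G C) (Mf.run (join G C) x) u
            rw [hMf x]
            exact (hSolB _ _).2 hu)
          simpa using h1

end Pool.Agent.GW
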