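import Pool.Agent.Work.MP_46935e_lc.GW.Stmts

/-!
# Block GW, item Uni: the universal machine
-/

set_option autoImplicit false

noncomputable section

namespace Pool.Agent.GW

open Pool.Agent.RO Pool.Agent.S1 Pool.Agent.PT Pool.Agent.Work.MP_46935e_lc N68a2faeb

namespace Unig

/-- compilation of a function of two strings -/
theorem compile2 {F : List Bool × List Bool → List Bool} (hF : PTF F) :
    ∃ (t : List ℕ) (k : ℕ), ∀ x h N, (sz x + sz h + 3) ^ k ≤ N → univ t N (ser (x, h)) = F (x, h) := by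
  have h1 : PTF (fun s : List Bool => F (dLB (parse s).hd, dLB (parse s).tl)) := by
    have h2 : PTF (fun s : List Bool => (dLB (parse s).hd, dLB (parse s).tl)) := by fun_prop
    exact hF.comp h2
  obtain ⟨M⟩ := h1.tm2_raw
  obtain ⟨t, C, ht⟩ := exists_program M.tm M.inputAlphabet M.outputAlphabet
  have h3 : PTF (fun s : List Bool => C * M.time.eval s.length) := by
    exact (PTF.const C).mul (ptf_eval _ (by fun_prop))
  obtain ⟨k, hk⟩ := h3.size
  refine ⟨t, k * 3, fun x h N hN => ?_⟩
  have h4 := ht (ser (x, h)) (F (x, h)) (M.time.eval (ser (x, h)).length) (by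
    have := M.outputsFun (ser (x, h))
    rw [parse_ser, enc_pair, D.hd_cons, D.tl_cons, dLB_enc, dLB_enc] at this
    exact ⟨this⟩) N
  refine h4 (le_trans ?_ hN)
  have h5 := hk (ser (x, h))
  beta_reduce at h5
  rw [sz_nat] at h5
  have h6 := sz_bits (ser (x, h))
  rw [length_ser] at h6
  have h7 : sz (x, h) = sz x + sz h + 1 := sz_pair _ _
  have h8 : sz (ser (x, h)) + 2 ≤ (sz x + sz h + 3) ^ 3 := by
    generalize sz x + sz h = u at h7 ⊢
    have : (u + 3) ^ 3 = u ^ 3 + 9 * u ^ 2 + 27 * u + 27 := by ring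
    rw [this]
    have h9 : 0 ≤ u ^ 3 + 9 * u ^ 2 := Nat.zero_le _
    omega
  have h9 : (sz (ser (x, h)) + 2) ^ k ≤ ((sz x + sz h + 3) ^ 3) ^ k := Nat.pow_le_pow_left h8 k
  rw [← pow_mul, Nat.mul_comm 3 k] at h9
  omega

/-- first program -/
def c1 (κ : Str) : List ℕ := dLN (parse κ).hd.hd
/-- second program -/
def c2 (κ : Str) : List ℕ := dLN (parse κ).hd.tl
/-- number of queries -/
def nn (κ : Str) : ℕ := min (dN (parse κ).tl.hd) (sz κ)
/-- time -/
def tt (κ : Str) : ℕ := dN (parse κ).tl.tl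

theorem ptf_c1 : PTF c1 := by unfold c1; fun_prop
theorem ptf_c2 : PTF c2 := by unfold c2; fun_prop
theorem ptf_nn : PTF nn := by
  unfold nn
  have h1 : PTF (fun κ : Str => dN (parse κ).tl.hd) :=
    ptf_dN.comp (PTF.Dhd' (PTF.Dtl' (ptf_parse' PTF.id)))
  exact PTF.min' h1 (ptf_sz PTF.id)
theorem ptf_tt : PTF tt := by
  unfold tt
  exact ptf_dN.comp (PTF.Dtl' (PTF.Dtl' (ptf_parse' PTF.id)))

/-- the query function of the simulated machine -/
def qf (κ : Str) (p : Str × Str) : Str := univ (c1 κ) (tt κ) (ser p)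

/-- the query function of the universal machine -/
def QU (p : (Str × Str) × Str) : Str := qf p.1.1 (p.1.2, p.2)

/-- the output function of the universal machine -/
def OU (p : (Str × Str) × Str) : Str :=
  univ (c2 p.1.1) (tt p.1.1) (ser (p.1.2, p.2.take (nn p.1.1)))

theorem ptf_QU : PTF QU := by
  unfold QU qf
  have h1 : PTF (fun p : (Str × Str) × Str => c1 p.1.1) := ptf_c1.comp (by fun_prop)
  have h2 : PTF (fun p : (Str × Str) × Str => tt p.1.1) := ptf_tt.comp (by fun_prop)
  have h3 : PTF (fun p : (Str × Str) × Str => ser (p.1.2, p.2)) := by fun_prop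
  exact ptf_univ' h1 h2 h3

theorem ptf_OU : PTF OU := by
  unfold OU
  have h1 : PTF (fun p : (Str × Str) × Str => c2 p.1.1) := ptf_c2.comp (by fun_prop)
  have h2 : PTF (fun p : (Str × Str) × Str => tt p.1.1) := ptf_tt.comp (by fun_prop)
  have h4 : PTF (fun p : (Str × Str) × Str => nn p.1.1) := ptf_nn.comp (by fun_prop)
  have h5 : PTF (fun p : (Str × Str) × Str => p.2.take (nn p.1.1)) := PTF.take PTF.snd h4
  have h3 : PTF (fun p : (Str × Str) × Str => ser (p.1.2, p.2.take (nn p.1.1))) :=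
    ptf_ser' (PTF.pair (by fun_prop) h5)
  exact ptf_univ' h1 h2 h3

/-- the universal machine -/
def UE (O : World) (p : Str × Str) : Str :=
  univ (c2 p.1) (tt p.1) (ser (p.2, qans (qf p.1) O p.2 (nn p.1)))

theorem qans_QU (O : World) (κ z : Str) (n : ℕ) :
    qans QU O (κ, z) n = qans (qf κ) O z n := by
  induction n with
  | zero => rfl
  | succ n ih =>
    unfold qans
    rw [ih]
    rfl

theorem qans_congr {Q Q' : Str × Str → Str} (O : World) (z : Str) (n : ℕ)
    (h : ∀ i < n, Q' (z, qans Q O z i) = Q (z, qans Q O z i)) :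
    ∀ i ≤ n, qans Q' O z i = qans Q O z i := by
  intro i
  induction i with
  | zero => intro _; rfl
  | succ i ih =>
    intro hi
    unfold qans
    rw [ih (by omega), h i (by omega)]

end Unig

open Unig

theorem prf_Uni (hLen : StLen) : StUni := by
  refine ⟨UE, fun O => ?_, fun M => ?_⟩
  · refine ⟨QU, Polynomial.X, OU, ptf_QU, ptf_OU, fun p => ?_⟩
    obtain ⟨κ, z⟩ := p
    rw [Polynomial.eval_X]
    have h1 := hLen (Str × Str) QU O (κ, z) (sz (κ, z))
    have h2 : nn κ ≤ sz (κ, z) := by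
      have h3 : nn κ ≤ sz κ := min_le_right _ _
      have h4 : sz (κ, z) = sz κ + sz z + 1 := sz_pair _ _
      omega
    show univ (c2 κ) (tt κ) (ser (z, (qans QU O (κ, z) (sz (κ, z))).take (nn κ))) = UE O (κ, z)
    rw [h1.2 _ h2, qans_QU]
    rfl
  · have hF2 : PTF (fun p : Str × Str => M.out (p.1, p.2.take (M.N.eval (sz p.1)))) := by
      refine M.hout.comp (PTF.pair PTF.fst (PTF.take PTF.snd (ptf_eval _ ?_)))
      exact ptf_sz PTF.fst
    obtain ⟨t1, k1, ht1⟩ := compile2 M.hQ
    obtain ⟨t2, k2, ht2⟩ := compile2 hF2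
    refine ⟨fun n => ser ((t1, t2), (n, (9 * n + 9) ^ (k1 + k2))), ?_,
      M.N.comp (4 * Polynomial.X + 1) + Polynomial.X, fun O z n hn => ?_⟩
    · have h1 : PTF (fun n : ℕ => (9 * n + 9) ^ (k1 + k2)) :=
        PTF.pow_const (by fun_prop) _
      exact ptf_ser' (PTF.pair (PTF.const _) (PTF.pair PTF.id h1))
    · rw [Polynomial.eval_add, Polynomial.eval_comp, Polynomial.eval_X, Polynomial.eval_add,
        Polynomial.eval_mul, Polynomial.eval_ofNat, Polynomial.eval_X, Polynomial.eval_one] at hn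
      have hz : sz z ≤ 4 * z.length + 1 := sz_bits z
      have hN : M.N.eval (sz z) ≤ n := by
        have h1 := Pool.Agent.RO.eval_mono M.N hz
        omega
      have hzn : z.length ≤ n := by omega
      set κ : Str := ser ((t1, t2), (n, (9 * n + 9) ^ (k1 + k2))) with hκ
      have hp : parse κ = Enc.enc ((t1, t2), (n, (9 * n + 9) ^ (k1 + k2))) := parse_ser _
      have hc1 : c1 κ = t1 := by
        unfold c1
        rw [hp, enc_pair, D.hd_cons, enc_pair, D.hd_cons, dLN_enc]
      have hc2 : c2 κ = t2 := by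
        unfold c2
        rw [hp, enc_pair, D.hd_cons, enc_pair, D.tl_cons, dLN_enc]
      have htt : tt κ = (9 * n + 9) ^ (k1 + k2) := by
        unfold tt
        rw [hp, enc_pair, D.tl_cons, enc_pair, D.tl_cons, dN_enc]
      have hnn : nn κ = n := by
        unfold nn
        rw [hp, enc_pair, D.tl_cons, enc_pair, D.hd_cons, dN_enc]
        refine min_eq_left ?_
        have h1 : κ.length ≤ sz κ := length_le_sz κ
        have h2 : κ.length = sz ((t1, t2), (n, (9 * n + 9) ^ (k1 + k2))) := length_ser _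
        have h3 : sz ((t1, t2), (n, (9 * n + 9) ^ (k1 + k2))) =
          sz (t1, t2) + sz (n, (9 * n + 9) ^ (k1 + k2)) + 1 := sz_pair _ _
        have h4 : sz (n, (9 * n + 9) ^ (k1 + k2)) = sz n + sz ((9 * n + 9) ^ (k1 + k2)) + 1 :=
          sz_pair _ _
        have h5 : sz n = 2 * n + 1 := sz_nat n
        omega
      -- bounds for the time
      have htime : ∀ (a : Str) (k : ℕ), a.length ≤ n → k ≤ k1 + k2 →
          (sz z + sz a + 3) ^ k ≤ (9 * n + 9) ^ (k1 + k2) := by
        intro a k ha hk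
        have h1 : sz a ≤ 4 * a.length + 1 := sz_bits a
        have h2 : sz z + sz a + 3 ≤ 9 * n + 9 := by omega
        exact (Nat.pow_le_pow_left h2 k).trans (Nat.pow_le_pow_right (by omega) hk)
      have hlen : ∀ i, (qans M.Q O z i).length = i := fun i => (hLen Str M.Q O z i).1
      have hq : ∀ i ≤ n, qans (qf κ) O z i = qans M.Q O z i := by
        refine qans_congr O z n fun i hi => ?_
        unfold qf
        rw [hc1, htt]
        exact ht1 z _ _ (htime _ k1 (by rw [hlen]; omega) (by omega))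
      show univ (c2 κ) (tt κ) (ser (z, qans (qf κ) O z (nn κ))) = M.run O z
      rw [hc2, htt, hnn, hq n le_rfl,
        ht2 z _ _ (htime _ k2 (by rw [hlen]) (by omega)), (hLen Str M.Q O z n).2 _ hN]
      rfl

end Pool.Agent.GW
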