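import Pool.Agent.Work.MP_46935e_lc.GW.Fin
import Pool.Agent.Work.MP_46935e_lc.GW.I_Len
import Pool.Agent.Work.MP_46935e_lc.GW.I_App
import Pool.Agent.Work.MP_46935e_lc.GW.I_Cgr
import Pool.Agent.Work.MP_46935e_lc.GW.I_Eas
import Pool.Agent.Work.MP_46935e_lc.GW.I_Cmp
import Pool.Agent.Work.MP_46935e_lc.GW.I_Map
import Pool.Agent.Work.MP_46935e_lc.GW.I_Cnv
import Pool.Agent.Work.MP_46935e_lc.GW.I_Mch
import Pool.Agent.Work.MP_46935e_lc.GW.I_Bnd
import Pool.Agent.Work.MP_46935e_lc.GW.I_Loc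
import Pool.Agent.Work.MP_46935e_lc.GW.I_Cnt
import Pool.Agent.Work.MP_46935e_lc.GW.I_Uni
import Pool.Agent.Work.MP_46935e_lc.GW.I_Pud
import Pool.Agent.Work.MP_46935e_lc.GW.I_Clo
import Pool.Agent.Work.MP_46935e_lc.GW.I_Com
import Pool.Agent.Work.MP_46935e_lc.GW.I_Cor
import Pool.Agent.Work.MP_46935e_lc.GW.I_Cnd
import Pool.Agent.Work.MP_46935e_lc.GW.I_Rev

/-!
# Block GW (generic world): assembly
-/

set_option autoImplicit false

namespace Pool.Agent.GW

theorem prf_Main : StMain := by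
  have hLen := prf_Len
  have hApp := prf_App hLen
  have hCgr := prf_Cgr
  have hEas := prf_Eas
  have hCmp := prf_Cmp hLen hApp
  have hMap := prf_Map hLen
  have hCnv := prf_Cnv hLen
  have hMch := prf_Mch hLen
  have hBnd := prf_Bnd hLen
  have hLoc := prf_Loc hCgr
  have hCnt := prf_Cnt
  have hUni := prf_Uni hLen
  have hPud := prf_Pud hLen hEas hCmp hCnv hMch hBnd hUni
  have hClo := prf_Clo hLoc
  have hCom := prf_Com hCnt hClo
  have hCor := prf_Cor hLoc
  have hCnd := prf_Cnd hEas hCmp hMap hMch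
  have hRev := prf_Rev hEas hCmp hCnv hMch hBnd hCor hCnd
  exact main_of hPud hCom hRev

end Pool.Agent.GW
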