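import Pool.Agent.Work.MP_46935e_lc.GW.Stmts3

/-!
# Block GW, part 3, item BB1: a complete black-box problem is complete in generic worlds
-/

set_option autoImplicit false

noncomputable section

namespace Pool.Agent.GW

open Pool.Agent.RO Pool.Agent.S1 Pool.Agent.PT Pool.Agent.Work.MP_46935e_lc N68a2faeb N08b01508

namespace BB1g

/-- the list of the short strings in the world -/
def shl (G : World) (m : ℕ) : List Str :=
  ((List.finite_length_lt Bool m).toFinset.toList).filter (fun q => G q)

lemma mem_shl (G : World) (m : ℕ) (q : Str) (hq : q.length < m) : decide (q ∈ shl G m) = G q := by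
  have h1 : q ∈ (List.finite_length_lt Bool m).toFinset.toList := by
    rw [Finset.mem_toList, Set.Finite.mem_toFinset]
    exact hq
  have h2 : q ∈ shl G m ↔ G q = true := by
    unfold shl
    rw [List.mem_filter]
    exact ⟨fun h => h.2, fun h => ⟨h1, h⟩⟩
  cases hG : G q with
  | true => rw [decide_eq_true_iff]; exact h2.2 hG
  | false =>
    rw [decide_eq_false_iff_not]
    intro h
    rw [h2.1 h] at hG
    cases hG

lemma pat_low (G G' : World) (m : ℕ) (q : Str) (hq : q.length < m) :
    pat m (shl G m) G' q = G q := by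
  unfold pat
  rw [if_pos hq]
  exact mem_shl G m q hq

lemma pat_self (G : World) (m : ℕ) : pat m (shl G m) G = G := by
  funext q
  by_cases h : q.length < m
  · exact pat_low G G m q h
  · unfold pat
    rw [if_neg h]

lemma polyRel {α β : Type} [N487b59b3 α] [N487b59b3 β] {C : World} {f : World → α → β}
    (hf : IsPolyTimeAll C f) (G : World) : IsPolyTimeRel (join G C) (f G) := by
  obtain ⟨g, p, hg, h⟩ := hf
  exact ⟨g, p, hg, fun x => h G x⟩

/-- the test on the output of the machine -/
def tst (r : Polynomial ℕ) (q : Str × Str) : Str :=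
  [decide ((dec2 q.1).2.length ≤ r.eval (dec2 q.1).1.length) && decide (q.2 = [true])]

lemma ptf_tst (r : Polynomial ℕ) : PTF (tst r) := by
  have h1 : PTF (fun q : Str × Str => (dec2 q.1).2.length) :=
    (PTF.snd.comp (ptf_dec2 PTF.fst)).length
  have h2 : PTF (fun q : Str × Str => r.eval (dec2 q.1).1.length) :=
    ptf_eval r ((PTF.fst.comp (ptf_dec2 PTF.fst)).length)
  have h3 : PTF (fun q : Str × Str => decide ((dec2 q.1).2.length ≤ r.eval (dec2 q.1).1.length) &&
      decide (q.2 = [true])) := (h1.le h2).and (PTF.snd.eq (PTF.const _))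
  exact PTF.cons h3 (PTF.const _)

end BB1g

open BB1g

/-- BB1. -/
theorem prf_BB1 (hDeT : StDeT) (hUcv : StUcv) (hUcm : StUcm) (hSi3 : StSi3) : StBB1 := by
  have hCnv := prf_Cnv prf_Len
  have hMch := prf_Mch prf_Len
  obtain ⟨eT, dT, hdT, hde⟩ := hDeT
  intro C G hFT hAll
  obtain ⟨V, hV, hcomp⟩ := hAll
  refine ⟨V G, ⟨polyRel hV.poly G, ?_, fun x => hV.total G x⟩, ?_⟩
  · obtain ⟨p, hp⟩ := hV.bounded
    exact ⟨p, fun x w h => hp G x w h⟩
  · intro V' hV'
    obtain ⟨r, hr⟩ := hV'.bounded
    obtain ⟨R, hR⟩ := hMch.2.1 (join G C) V' (((hCnv (join G C)).2.1 V').1 hV'.poly)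
    have hTot : G ∈ Tot R r C := fun x => by
      obtain ⟨w, hw⟩ := hV'.total x
      exact ⟨w, hr _ _ hw, by rw [hR, hw]⟩
    obtain ⟨m, hm⟩ := hFT R r hTot
    obtain ⟨R', hR'⟩ := (hSi3 eT dT hdT hde).1 m (shl G m) R
    obtain ⟨M, hM⟩ := hUcm.1 R' id (tst r) PTF.id (ptf_tst r)
    have hMV : ∀ (G' : World) (x w : Str), M.run (join G' C) (pr x w) =
        [decide (w.length ≤ r.eval x.length) &&
          decide (R.run (join (pat m (shl G m) G') C) (pr x w) = [true])] := by
      intro G' x w
      rw [hM]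
      have e1 : dec2 (pr x w) = (x, w) := dec2_dl _ _
      simp only [tst, id, e1, hR']
    obtain ⟨f, h, hf, hh, hfh⟩ := hcomp (fun G' q => decide (q.2.length ≤ r.eval q.1.length) &&
      decide (R.run (join (pat m (shl G m) G') C) (pr q.1 q.2) = [true]))
      ⟨((hUcv C).2.1 _).2 ⟨M, fun G' x w => hMV G' x w⟩, ⟨r, fun G' x w hw => by
        rw [Bool.and_eq_true, decide_eq_true_iff] at hw
        exact hw.1⟩, fun G' x => by
        obtain ⟨w, hw⟩ := hm (pat m (shl G m) G') (fun q hq => pat_low G G' m q hq) x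
        refine ⟨w, ?_⟩
        rw [Bool.and_eq_true, decide_eq_true_iff, decide_eq_true_iff]
        exact hw⟩
    refine ⟨f G, h G, polyRel hf G, polyRel hh G, fun x w hw => ?_⟩
    have h1 := hfh G x w hw
    rw [Bool.and_eq_true, decide_eq_true_iff, decide_eq_true_iff, pat_self, hR] at h1
    simpa using h1.2

end Pool.Agent.GW
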