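import Pool.Agent.Work.MP_46935e_lc.GW.Stmts3

/-!
# Block GW, part 3, item BB2: from a complete problem in the generic world to a complete black-box problem
-/

set_option autoImplicit false

noncomputable section

namespace Pool.Agent.GW

open Pool.Agent.RO Pool.Agent.S1 Pool.Agent.PT Pool.Agent.Work.MP_46935e_lc N68a2faeb N08b01508

namespace BB2g

/-- the list of the short strings in the world -/
def shl (G : World) (m : ℕ) : List Str :=
  ((List.finite_length_lt Bool m).toFinset.toList).filter (fun q => G q)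

lemma mem_shl (G : World) (m : ℕ) (q : Str) (hq : q.length < m) : decide (q ∈ shl G m) = G q := by
  have h1 : q ∈ (List.finite_length_lt Bool m).toFinset.toList := by
    rw [Finset.mem_toList, Set.Finite.mem_toFinset]
    exact hq
  have h2 : q ∈ shl G m ↔ G q = true := by
    unfold shl
    rw [List.mem_filter]
    exact ⟨fun h => h.2, fun h => ⟨h1, h⟩⟩
  cases hG : G q with
  | true => rw [decide_eq_true_iff]; exact h2.2 hG
  | false =>
    rw [decide_eq_false_iff_not]
    intro h
    rw [h2.1 h] at hG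
    cases hG

/-- the patched world agrees with `G` below `m` -/
lemma wk_low (G : World) (m : ℕ) (T : List Str) (k : ℕ) (G' : World) (q : Str)
    (hq : q.length < m) : wk m (shl G m) T k G' q = G q := by
  unfold wk
  rw [if_pos hq]
  exact mem_shl G m q hq

lemma wk_low2 (G : World) (m m₁ k : ℕ) (hk : m₁ ≤ k) (G' : World) (q : Str)
    (hq : q.length < m₁) : wk m (shl G m) (shl G m₁) k G' q = G q := by
  by_cases h : q.length < m
  · exact wk_low G m _ k G' q h
  · unfold wk
    rw [if_neg h, if_pos (lt_of_lt_of_le hq hk)]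
    exact mem_shl G m₁ q hq

lemma shf_wk (m : ℕ) (S T : List Str) (k : ℕ) (hk : m ≤ k) (G' : World) :
    shf k (wk m S T k G') = G' := by
  funext q
  unfold shf wk
  have h1 : (List.replicate k true ++ false :: q).length = k + 1 + q.length := by
    rw [List.length_append, List.length_replicate, List.length_cons]
    omega
  have h2 : List.replicate k true ++ false :: q = (List.replicate k true ++ [false]) ++ q := by
    simp
  have h3 : (List.replicate k true ++ [false]).length = k + 1 := by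
    simp
  have h4 : (List.replicate k true ++ false :: q).take (k + 1) =
      List.replicate k true ++ [false] := by
    rw [h2, ← h3, List.take_left']
    rfl
  have h5 : (List.replicate k true ++ false :: q).drop (k + 1) = q := by
    rw [h2, ← h3, List.drop_left']
    rfl
  rw [if_neg (by omega), if_neg (by omega), if_pos h4, h5]

/-- the complete black-box problem -/
def UU (M : Mach) (p : Polynomial ℕ) (C : World) (m : ℕ) (S : List Str) (dT : Str → List Str)
    (G' : World) (q : Str × Str) : Bool :=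
  decide (q.2.length ≤ p.eval (dec2 q.1).2.length) &&
    decide (M.run (join (wk m S (dT (dec2 q.1).1).tail ((dT (dec2 q.1).1).headD []).length G') C)
      (pr (dec2 q.1).2 q.2) = [true])

lemma UU_iff (M : Mach) (p : Polynomial ℕ) (C : World) (m : ℕ) (S : List Str)
    (dT : Str → List Str) (G' : World) (y w : Str) : UU M p C m S dT G' (y, w) = true ↔
      Sol M p (join (wk m S (dT (dec2 y).1).tail ((dT (dec2 y).1).headD []).length G') C)
        (dec2 y).2 w := by
  simp [UU, Sol]

/-- the length of the second part -/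
lemma dec2_bd : ∃ B : Polynomial ℕ, ∀ y : Str, (dec2 y).2.length ≤ B.eval y.length := by
  obtain ⟨k, hk⟩ := (PTF.snd.comp (ptf_dec2 (PTF.id (α := Str)))).size
  refine ⟨(4 * Polynomial.X + 3) ^ k, fun y => ?_⟩
  have h1 := hk y
  have h2 := sz_bits y
  have h3 := length_le_sz (dec2 y).2
  refine h3.trans (h1.trans ?_)
  simp only [Polynomial.eval_pow, Polynomial.eval_add, Polynomial.eval_mul,
    Polynomial.eval_ofNat, Polynomial.eval_X]
  exact Nat.pow_le_pow_left (by omega) k

lemma ptf_pr {α : Type} [Enc α] {a b : α → Str} (ha : PTF a) (hb : PTF b) :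
    PTF (fun z => pr (a z) (b z)) := by
  unfold pr
  fun_prop

lemma dec2_pr (x w : Str) : dec2 (pr x w) = (x, w) := dec2_dl _ _

end BB2g

open BB2g

/-- BB2. -/
theorem prf_BB2 (hDeT : StDeT) (hUcv : StUcv) (hUcm : StUcm) (hSi3 : StSi3) : StBB2 := by
  have hEas := prf_Eas
  have hCmp := prf_Cmp prf_Len (prf_App prf_Len)
  have hCnv := prf_Cnv prf_Len
  have hMch := prf_Mch prf_Len
  obtain ⟨eT, dT, hdT, hde⟩ := hDeT
  obtain ⟨-, hS2, hS3⟩ := hSi3 eT dT hdT hde
  intro C G hFT hFR hV
  obtain ⟨V, hV, hcomp⟩ := hV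
  obtain ⟨p, hp⟩ := hV.bounded
  obtain ⟨M, hM⟩ := hMch.2.1 (join G C) V (((hCnv (join G C)).2.1 V).1 hV.poly)
  have hSolM : ∀ x w, Sol M p (join G C) x w ↔ V (x, w) = true := fun x w => by
    unfold Sol
    rw [hM x w]
    constructor
    · rintro ⟨-, h⟩
      simpa using h
    · intro h
      exact ⟨hp x w h, by rw [h]⟩
  have hTot : G ∈ Tot M p C := fun x => by
    obtain ⟨w, hw⟩ := hV.total x
    exact ⟨w, (hSolM x w).2 hw⟩
  obtain ⟨m, hm⟩ := hFT M p hTot
  obtain ⟨B, hB⟩ := dec2_bd
  have hd : PTF (fun z : Str => dec2 z) := ptf_dec2 PTF.id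
  have hd1 : PTF (fun z : Str => (dec2 z).1) := PTF.fst.comp hd
  have hd2 : PTF (fun z : Str => (dec2 z).2) := PTF.snd.comp hd
  have hd11 : PTF (fun z : Str => (dec2 (dec2 z).1).1) := hd1.comp hd1
  have hd12 : PTF (fun z : Str => (dec2 (dec2 z).1).2) := hd2.comp hd1
  have hs : PTF (fun z : Str => pr (dec2 (dec2 z).1).1 (pr (dec2 (dec2 z).1).2 (dec2 z).2)) :=
    ptf_pr hd11 (ptf_pr hd12 hd2)
  refine ⟨UU M p C m (shl G m) dT, ⟨?_, ?_, ?_⟩, ?_⟩
  · refine ((hUcv C).2.1 _).2 ?_
    obtain ⟨M₃, hM₃⟩ := hS3 m (shl G m) M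
    have ho : PTF (fun q : Str × Str => ([decide ((dec2 q.1).2.length ≤
        p.eval (dec2 (dec2 q.1).1).2.length) && decide (q.2 = [true])] : Str)) := by
      have h1 : PTF (fun q : Str × Str => (dec2 q.1).2.length) := (hd2.comp PTF.fst).length
      have h2 : PTF (fun q : Str × Str => p.eval (dec2 (dec2 q.1).1).2.length) :=
        ptf_eval p ((hd12.comp PTF.fst).length)
      have h3 : PTF (fun q : Str × Str => (decide ((dec2 q.1).2.length ≤
        p.eval (dec2 (dec2 q.1).1).2.length) && decide (q.2 = [true]))) :=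
        (h1.le h2).and (PTF.snd.eq (PTF.const _))
      fun_prop
    obtain ⟨M', hM'⟩ := hUcm.1 M₃ _ _ hs ho
    refine ⟨M', fun G' y w => ?_⟩
    rw [hM']
    simp only [dec2_pr]
    rw [hM₃]
    rfl
  · refine ⟨p.comp B, fun G' y w h => ?_⟩
    rw [UU_iff] at h
    rw [Polynomial.eval_comp]
    exact h.1.trans (Pool.Agent.RO.eval_mono p (hB y))
  · intro G' y
    obtain ⟨w, hw⟩ := hm (wk m (shl G m) (dT (dec2 y).1).tail
      ((dT (dec2 y).1).headD []).length G') (fun q hq => wk_low G m _ _ _ q hq) (dec2 y).2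
    exact ⟨w, (UU_iff _ _ _ _ _ _ _ _ _).2 hw⟩
  · intro V' hV'
    obtain ⟨r, hr⟩ := hV'.bounded
    obtain ⟨R, hR⟩ := ((hUcv C).2.1 V').1 hV'.poly
    obtain ⟨R₂, hR₂⟩ := hS2 R
    obtain ⟨R₁, hR₁⟩ := hUcm.1 R₂ _ _ hs (PTF.snd (α := Str) (β := Str))
    have hR₁' : ∀ (G₀ : World) (c x w : Str), R₁.run (join G₀ C) (pr (pr c x) w) =
        [V' (shf c.length G₀) (x, w)] := fun G₀ c x w => by
      rw [hR₁]
      simp only [dec2_pr]
      rw [hR₂, hR]
    have hR₁'' : ∀ (G₀ : World) (y w : Str), R₁.run (join G₀ C) (pr y w) =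
        [V' (shf (dec2 y).1.length G₀) ((dec2 y).2, w)] := fun G₀ y w => by
      rw [hR₁]
      simp only [dec2_pr]
      rw [hR₂, hR]
    set V₁ : Str × Str → Bool := fun q => V' (shf (dec2 q.1).1.length G) ((dec2 q.1).2, q.2)
      with hV₁
    have hV₁G : IsTFNPRel (join G C) V₁ := by
      refine ⟨((hCnv (join G C)).2.1 V₁).2 ?_, ⟨r.comp B, fun y w h => ?_⟩, fun y => ?_⟩
      · have h1 := (hMch.2.2.2 (join G C) R₁).2.2.1
        have h2 : PTF (fun l : Str => l.headD false) := PTF.id.headD (PTF.const false)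
        have h3 := Cndg.qc_cmp hCmp ((hEas _ _ (join G C)).1 _ h2) h1
        refine (congrArg (QC (join G C)) (funext fun q => ?_)).mp h3
        obtain ⟨x, w⟩ := q
        show (R₁.run (join G C) (pr x w)).headD false = V₁ (x, w)
        rw [hR₁'']
        rfl
      · rw [Polynomial.eval_comp]
        exact (hr _ _ _ h).trans (Pool.Agent.RO.eval_mono r (hB y))
      · exact hV'.total (shf (dec2 y).1.length G) (dec2 y).2
    obtain ⟨f, h, hf, hh, hfh⟩ := hcomp V₁ hV₁G
    obtain ⟨F, hF⟩ := (hMch.1 (join G C) f).1 (((hCnv (join G C)).1 f).1 hf)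
    obtain ⟨H, hH⟩ := hMch.2.2.1 (join G C) h (((hCnv (join G C)).2.2 h).1 hh)
    have hRed : G ∈ Red M p R₁ (r.comp B) F H C := by
      intro x w hw
      rw [hF x, hSolM] at hw
      rw [hH x w]
      have h1 := hfh x w hw
      refine ⟨?_, ?_⟩
      · rw [Polynomial.eval_comp]
        exact (hr _ _ _ h1).trans (Pool.Agent.RO.eval_mono r (hB x))
      · rw [hR₁'']
        exact congrArg (fun b => [b]) h1
    obtain ⟨m₁, hm₁⟩ := hFR M p R₁ (r.comp B) F H hRed
    set k₁ := max m m₁ with hk₁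
    set T₁ := shl G m₁ with hT₁
    set c₁ := eT (List.replicate k₁ true :: T₁) with hc₁
    have hc1 : (dT c₁).tail = T₁ := by rw [hc₁, hde]; rfl
    have hc2 : ((dT c₁).headD []).length = k₁ := by
      rw [hc₁, hde]
      exact List.length_replicate ..
    have hW₁ : ∀ G' : World, wk m (shl G m) T₁ k₁ G' ∈ Red M p R₁ (r.comp B) F H C :=
      fun G' => hm₁ _ (fun q hq => wk_low2 G m m₁ k₁ (le_max_right _ _) G' q hq)
    obtain ⟨F₃, hF₃⟩ := hS3 m (shl G m) F
    obtain ⟨H₃, hH₃⟩ := hS3 m (shl G m) H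
    refine ⟨fun G' x => pr c₁ (F.run (join (wk m (shl G m) T₁ k₁ G') C)
        (pr (List.replicate k₁ true) x)),
      fun G' q => H.run (join (wk m (shl G m) T₁ k₁ G') C)
        (pr (pr (List.replicate k₁ true) q.1) q.2), ?_, ?_, ?_⟩
    · refine ((hUcv C).1 _).2 ?_
      have hs' : PTF (fun z : Str => pr c₁ (pr (List.replicate k₁ true) z)) :=
        ptf_pr (PTF.const _) (ptf_pr (PTF.const _) PTF.id)
      have ho' : PTF (fun q : Str × Str => pr c₁ q.2) := ptf_pr (PTF.const _) PTF.snd
      obtain ⟨M', hM'⟩ := hUcm.1 F₃ _ _ hs' ho'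
      refine ⟨M', fun G' z => ?_⟩
      rw [hM']
      simp only []
      rw [hF₃, hc1, hc2]
    · refine ((hUcv C).2.2 _).2 ?_
      have hs' : PTF (fun z : Str =>
          pr c₁ (pr (pr (List.replicate k₁ true) (dec2 z).1) (dec2 z).2)) :=
        ptf_pr (PTF.const _) (ptf_pr (ptf_pr (PTF.const _) hd1) hd2)
      obtain ⟨M', hM'⟩ := hUcm.1 H₃ _ _ hs' (PTF.snd (α := Str) (β := Str))
      refine ⟨M', fun G' x w => ?_⟩
      rw [hM']
      simp only [dec2_pr]
      rw [hH₃, hc1, hc2]
    · intro G' x w hw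
      rw [UU_iff] at hw
      simp only [dec2_pr] at hw
      rw [hc1, hc2] at hw
      have h2 := (hW₁ G' _ w hw).2
      rw [hR₁', List.length_replicate, shf_wk m _ _ k₁ (le_max_left _ _)] at h2
      simpa using h2

end Pool.Agent.GW
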