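import Pool.Agent.Work.MP_46935e_lc.GW.Stmts4

/-!
# Block GW, part 4, item BP1: a complete black-box pair gives a complete pair in the generic world
-/

set_option autoImplicit false

noncomputable section

namespace Pool.Agent.GW

open Pool.Agent.RO Pool.Agent.S1 Pool.Agent.PT Pool.Agent.Work.MP_46935e_lc N68a2faeb N08b01508

namespace BP1g

/-- the list of the short strings in the world -/
def shl (G : World) (m : ℕ) : List Str :=
  ((List.finite_length_lt Bool m).toFinset.toList).filter (fun q => G q)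

lemma mem_shl (G : World) (m : ℕ) (q : Str) (hq : q.length < m) : decide (q ∈ shl G m) = G q := by
  have h1 : q ∈ (List.finite_length_lt Bool m).toFinset.toList := by
    rw [Finset.mem_toList, Set.Finite.mem_toFinset]
    exact hq
  have h2 : q ∈ shl G m ↔ G q = true := by
    unfold shl
    rw [List.mem_filter]
    exact ⟨fun h => h.2, fun h => ⟨h1, h⟩⟩
  cases hG : G q with
  | true => rw [decide_eq_true_iff]; exact h2.2 hG
  | false =>
    rw [decide_eq_false_iff_not]
    intro h
    rw [h2.1 h] at hG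
    cases hG

lemma pat_low (G : World) (m : ℕ) (G' : World) (q : Str) (hq : q.length < m) :
    pat m (shl G m) G' q = G q := by
  unfold pat
  rw [if_pos hq]
  exact mem_shl G m q hq

lemma pat_self (G : World) (m : ℕ) : pat m (shl G m) G = G := by
  funext q
  by_cases hq : q.length < m
  · exact pat_low G m G q hq
  · unfold pat
    rw [if_neg hq]

open Classical in
/-- the language without certificates in the patched world -/
noncomputable def lan (M : Mach) (p : Polynomial ℕ) (C : World) (m : ℕ) (S : List Str) (G' : World) :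
    DecisionProblem :=
  fun x => decide (¬ ∃ w, Sol M p (join (pat m S G') C) x w)

lemma lan_true (M : Mach) (p : Polynomial ℕ) (C : World) (m : ℕ) (S : List Str) (G' : World)
    (x : Str) : lan M p C m S G' x = true ↔ ¬ ∃ w, Sol M p (join (pat m S G') C) x w := by
  classical
  unfold lan
  exact decide_eq_true_iff

lemma lan_false (M : Mach) (p : Polynomial ℕ) (C : World) (m : ℕ) (S : List Str) (G' : World)
    (x : Str) : lan M p C m S G' x = false ↔ ∃ w, Sol M p (join (pat m S G') C) x w := by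
  classical
  unfold lan
  exact decide_eq_false_iff_not.trans not_not

lemma lan_all (hUcv : StUcv) (hUcm : StUcm)
    (hS1 : ∀ (m : ℕ) (S : List Str) (M : Mach), ∃ M' : Mach, ∀ C G z,
      M'.run (join G C) z = M.run (join (pat m S G) C) z)
    (M : Mach) (p : Polynomial ℕ) (C : World) (m : ℕ) (S : List Str) :
    CoNPAll C (lan M p C m S) := by
  refine ⟨p, fun G' q => decide (M.run (join (pat m S G') C) (pr q.1 q.2) = [true]), ?_, ?_⟩
  · refine ((hUcv C).2.1 _).2 ?_
    obtain ⟨M₁, hM₁⟩ := hS1 m S M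
    have ho : PTF (fun q : Str × Str => ([decide (q.2 = [true])] : Str)) := by
      have h3 : PTF (fun q : Str × Str => decide (q.2 = [true])) := PTF.snd.eq (PTF.const _)
      fun_prop
    obtain ⟨M₂, hM₂⟩ := hUcm.1 M₁ _ _ (PTF.id (α := Str)) ho
    refine ⟨M₂, fun G' x w => ?_⟩
    rw [hM₂]
    simp only [hM₁]
  · intro G' x
    rw [lan_false]
    constructor
    · rintro ⟨w, h1, h2⟩
      exact ⟨w, h1, decide_eq_true h2⟩
    · rintro ⟨w, h1, h2⟩
      exact ⟨w, h1, of_decide_eq_true h2⟩

lemma coNP_of_all (C G : World) (A : World → DecisionProblem) (h : CoNPAll C A) :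
    A G ∈ coNPRel (join G C) := by
  obtain ⟨p, V, ⟨g, r, hg, hr⟩, hV⟩ := h
  refine ⟨p, V G, ⟨g, r, hg, fun x => hr G x⟩, fun x => ?_⟩
  have h1 : (A G)ᶜ x = true ↔ A G x = false := by
    show (!(A G x)) = true ↔ A G x = false
    cases A G x <;> simp
  rw [h1]
  exact hV G x

/-- machines for a language in coNP relative to the world -/
lemma mach_of (G C : World) (A : DecisionProblem) (h : A ∈ coNPRel (join G C)) :
    ∃ (M : Mach) (p : Polynomial ℕ), ∀ x, A x = true ↔ ¬ ∃ w, Sol M p (join G C) x w := by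
  obtain ⟨p, V, hV, hx⟩ := h
  obtain ⟨M, hM⟩ := (prf_Mch prf_Len).2.1 (join G C) V (((prf_Cnv prf_Len (join G C)).2.1 V).1 hV)
  refine ⟨M, p, fun x => ?_⟩
  have h1 : Aᶜ x = true ↔ A x = false := by
    show (!(A x)) = true ↔ A x = false
    cases A x <;> simp
  have h2 : (∃ w, Sol M p (join G C) x w) ↔ A x = false := by
    rw [← h1]
    refine Iff.trans ?_ (hx x).symm
    constructor
    · rintro ⟨w, h3, h4⟩
      rw [hM x w] at h4
      exact ⟨w, h3, by simpa using h4⟩
    · rintro ⟨w, h3, h4⟩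
      exact ⟨w, h3, by rw [hM x w]; exact congrArg (fun b => [b]) h4⟩
  rw [h2]
  cases A x <;> simp

end BP1g

open BP1g

/-- BP1. -/
theorem prf_BP1 (hDeT : StDeT) (hUcv : StUcv) (hUcm : StUcm) (hSi3 : StSi3) : StBP1 := by
  obtain ⟨eT, dT, hdT, hde⟩ := hDeT
  obtain ⟨hS1, -, -⟩ := hSi3 eT dT hdT hde
  intro C G hF hP
  obtain ⟨A, B, hAB, hcomp⟩ := hP
  refine ⟨A G, B G, ⟨coNP_of_all C G A hAB.memA, coNP_of_all C G B hAB.memB,
    hAB.disjoint G⟩, ?_⟩
  intro A' B' hAB'
  obtain ⟨MA, pA, hMA⟩ := mach_of G C A' hAB'.memA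
  obtain ⟨MB, pB, hMB⟩ := mach_of G C B' hAB'.memB
  have hDis : G ∈ Dis ⟨MA, pA, MB, pB⟩ C := by
    intro x
    by_contra hcon
    rw [not_or] at hcon
    exact hAB'.disjoint x ⟨(hMA x).2 hcon.1, (hMB x).2 hcon.2⟩
  obtain ⟨m, hm⟩ := hF _ hDis
  have hpair : IsPairAll C (lan MA pA C m (shl G m)) (lan MB pB C m (shl G m)) := by
    refine ⟨lan_all hUcv hUcm hS1 MA pA C m _, lan_all hUcv hUcm hS1 MB pB C m _, ?_⟩
    rintro G' x ⟨h1, h2⟩
    rw [lan_true] at h1 h2
    rcases hm (pat m (shl G m) G') (fun q hq => pat_low G m G' q hq) x with h | h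
    · exact h1 h
    · exact h2 h
  obtain ⟨f, ⟨g, r, hg, hr⟩, hf⟩ := hcomp _ _ hpair
  refine ⟨f G, ⟨g, r, hg, fun x => hr G x⟩, ?_, ?_⟩
  · intro x hx
    apply (hf G).1
    rw [lan_true, pat_self]
    exact (hMA x).1 hx
  · intro x hx
    apply (hf G).2
    rw [lan_true, pat_self]
    exact (hMB x).1 hx

end Pool.Agent.GW
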