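import Pool.Agent.Work.MP_46935e_lc.GW.Stmts4
import Pool.Agent.Work.MP_46935e_lc.GW.I_BB2

/-!
# Block GW, part 4, item BP2: from a complete pair in the generic world to a complete black-box pair
-/

set_option autoImplicit false

noncomputable section

namespace Pool.Agent.GW

open Pool.Agent.RO Pool.Agent.S1 Pool.Agent.PT Pool.Agent.Work.MP_46935e_lc N68a2faeb N08b01508

namespace BP2g

open BB2g

/-- a machine for the complement of a language in coNP -/
lemma mach_of {O : World} {A : DecisionProblem} (hA : A ∈ coNPRel O) :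
    ∃ (M : Mach) (p : Polynomial ℕ), ∀ x, A x = false ↔ ∃ w, Sol M p O x w := by
  have hCnv := prf_Cnv prf_Len
  have hMch := prf_Mch prf_Len
  obtain ⟨p, V, hV, h⟩ := hA
  obtain ⟨M, hM⟩ := hMch.2.1 O V (((hCnv O).2.1 V).1 hV)
  refine ⟨M, p, fun x => ?_⟩
  have h1 := h x
  have h2 : (Aᶜ x = true) ↔ A x = false := by
    show ((!(A x)) = true) ↔ A x = false
    cases A x <;> simp
  rw [← h2, h1]
  refine exists_congr fun w => and_congr_right fun _ => ?_
  rw [hM]
  simp

/-- a language whose complement is given by a machine is in coNP -/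
lemma coNP_of {O : World} {A : DecisionProblem} (M : Mach) (p : Polynomial ℕ)
    (h : ∀ x, A x = false ↔ ∃ w, Sol M p O x w) : A ∈ coNPRel O := by
  have hEas := prf_Eas
  have hCmp := prf_Cmp prf_Len (prf_App prf_Len)
  have hCnv := prf_Cnv prf_Len
  have hMch := prf_Mch prf_Len
  refine ⟨p, fun q => decide (M.run O (pr q.1 q.2) = [true]), ?_, fun x => ?_⟩
  · refine ((hCnv O).2.1 _).2 ?_
    have h1 := (hMch.2.2.2 O M).2.2.1
    have h2 : PTF (fun l : Str => decide (l = [true])) := PTF.id.eq (PTF.const [true])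
    exact Cndg.qc_cmp hCmp ((hEas _ _ O).1 _ h2) h1
  · have h2 : (Aᶜ x = true) ↔ A x = false := by
      show ((!(A x)) = true) ↔ A x = false
      cases A x <;> simp
    rw [h2, h x]
    refine exists_congr fun w => and_congr_right fun _ => ?_
    exact (decide_eq_true_iff).symm

open Classical in
/-- the language with the hidden part -/
def UL (M : Mach) (p : Polynomial ℕ) (C : World) (m : ℕ) (S : List Str) (dT : Str → List Str)
    (G' : World) : DecisionProblem := fun y =>
  decide (¬ ∃ w, Sol M p (join (wk m S (dT (dec2 y).1).tail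
    ((dT (dec2 y).1).headD []).length G') C) (dec2 y).2 w)

lemma UL_iff (M : Mach) (p : Polynomial ℕ) (C : World) (m : ℕ) (S : List Str)
    (dT : Str → List Str) (G' : World) (y : Str) : UL M p C m S dT G' y = false ↔
      ∃ w, Sol M p (join (wk m S (dT (dec2 y).1).tail
        ((dT (dec2 y).1).headD []).length G') C) (dec2 y).2 w := by
  unfold UL
  rw [decide_eq_false_iff_not, not_not]

/-- the input transformation -/
lemma ptf_s : PTF (fun z : Str => pr (dec2 (dec2 z).1).1 (pr (dec2 (dec2 z).1).2 (dec2 z).2)) := by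
  have hd : PTF (fun z : Str => dec2 z) := ptf_dec2 PTF.id
  have hd1 : PTF (fun z : Str => (dec2 z).1) := PTF.fst.comp hd
  have hd2 : PTF (fun z : Str => (dec2 z).2) := PTF.snd.comp hd
  have hd11 : PTF (fun z : Str => (dec2 (dec2 z).1).1) := hd1.comp hd1
  have hd12 : PTF (fun z : Str => (dec2 (dec2 z).1).2) := hd2.comp hd1
  exact ptf_pr hd11 (ptf_pr hd12 hd2)

/-- the output test -/
lemma ptf_o (p : Polynomial ℕ) : PTF (fun q : Str × Str => ([decide ((dec2 q.1).2.length ≤
    p.eval (dec2 (dec2 q.1).1).2.length) && decide (q.2 = [true])] : Str)) := by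
  have hd : PTF (fun z : Str => dec2 z) := ptf_dec2 PTF.id
  have hd1 : PTF (fun z : Str => (dec2 z).1) := PTF.fst.comp hd
  have hd2 : PTF (fun z : Str => (dec2 z).2) := PTF.snd.comp hd
  have hd12 : PTF (fun z : Str => (dec2 (dec2 z).1).2) := hd2.comp hd1
  have h1 : PTF (fun q : Str × Str => (dec2 q.1).2.length) := (hd2.comp PTF.fst).length
  have h2 : PTF (fun q : Str × Str => p.eval (dec2 (dec2 q.1).1).2.length) :=
    ptf_eval p ((hd12.comp PTF.fst).length)
  have h3 : PTF (fun q : Str × Str => (decide ((dec2 q.1).2.length ≤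
    p.eval (dec2 (dec2 q.1).1).2.length) && decide (q.2 = [true]))) :=
    (h1.le h2).and (PTF.snd.eq (PTF.const _))
  fun_prop

/-- the verifier of the hidden language is polynomial, uniformly in the oracle -/
lemma UU_all (hUcv : StUcv) (hUcm : StUcm) (M : Mach) (p : Polynomial ℕ) (C : World) (m : ℕ)
    (S : List Str) (dT : Str → List Str)
    (hS3 : ∃ M' : Mach, ∀ C G c z, M'.run (join G C) (pr c z) =
      M.run (join (wk m S (dT c).tail ((dT c).headD []).length G) C) z) :
    IsPolyTimeAll C (UU M p C m S dT) := by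
  refine ((hUcv C).2.1 _).2 ?_
  obtain ⟨M₃, hM₃⟩ := hS3
  obtain ⟨M', hM'⟩ := hUcm.1 M₃ _ _ ptf_s (ptf_o p)
  refine ⟨M', fun G' y w => ?_⟩
  rw [hM']
  simp only [dec2_pr]
  rw [hM₃]
  rfl

lemma UL_coNP (hUcv : StUcv) (hUcm : StUcm) (M : Mach) (p : Polynomial ℕ) (C : World) (m : ℕ)
    (S : List Str) (dT : Str → List Str)
    (hS3 : ∃ M' : Mach, ∀ C G c z, M'.run (join G C) (pr c z) =
      M.run (join (wk m S (dT c).tail ((dT c).headD []).length G) C) z) :
    CoNPAll C (UL M p C m S dT) := by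
  obtain ⟨B, hB⟩ := dec2_bd
  refine ⟨p.comp B, UU M p C m S dT, UU_all hUcv hUcm M p C m S dT hS3, fun G' y => ?_⟩
  rw [UL_iff]
  refine exists_congr fun w => ?_
  rw [UU_iff]
  refine ⟨fun h => ⟨?_, h⟩, fun h => h.2⟩
  rw [Polynomial.eval_comp]
  exact h.1.trans (Pool.Agent.RO.eval_mono p (hB y))

/-- machine for a language of a black-box pair -/
lemma mach_all (hUcv : StUcv) {C : World} {A : World → DecisionProblem} (hA : CoNPAll C A) :
    ∃ (R : Mach) (p : Polynomial ℕ), ∀ G x, A G x = false ↔ ∃ w, Sol R p (join G C) x w := by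
  obtain ⟨p, V, hV, h⟩ := hA
  obtain ⟨R, hR⟩ := ((hUcv C).2.1 V).1 hV
  refine ⟨R, p, fun G x => ?_⟩
  rw [h]
  refine exists_congr fun w => and_congr_right fun _ => ?_
  rw [hR]
  simp

/-- machine for the shifted language -/
lemma mach_shf (hUcm : StUcm) (R : Mach) (p B : Polynomial ℕ)
    (hB : ∀ y : Str, (dec2 y).2.length ≤ B.eval y.length)
    (hS2 : ∃ M' : Mach, ∀ C G c z, M'.run (join G C) (pr c z) =
      R.run (join (shf c.length G) C) z) :
    ∃ R₁ : Mach, ∀ C G₀ y w, Sol R₁ (p.comp B) (join G₀ C) y w ↔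
      Sol R p (join (shf (dec2 y).1.length G₀) C) (dec2 y).2 w := by
  obtain ⟨R₂, hR₂⟩ := hS2
  obtain ⟨R₁, hR₁⟩ := hUcm.1 R₂ _ _ ptf_s (ptf_o p)
  refine ⟨R₁, fun C G₀ y w => ?_⟩
  unfold Sol
  rw [hR₁]
  simp only [dec2_pr]
  rw [hR₂]
  constructor
  · rintro ⟨-, h⟩
    simpa using h
  · intro h
    refine ⟨?_, by simpa using h⟩
    rw [Polynomial.eval_comp]
    exact h.1.trans (Pool.Agent.RO.eval_mono p (hB y))

end BP2g

open BB2g BP2g

/-- BP2. -/
theorem prf_BP2 (hDeT : StDeT) (hUcv : StUcv) (hUcm : StUcm) (hSi3 : StSi3) : StBP2 := by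
  have hCnv := prf_Cnv prf_Len
  have hMch := prf_Mch prf_Len
  obtain ⟨eT, dT, hdT, hde⟩ := hDeT
  obtain ⟨-, hS2, hS3⟩ := hSi3 eT dT hdT hde
  intro C G hFD hFP hP
  obtain ⟨A, B, hAB, hcomp⟩ := hP
  obtain ⟨MA, pA, hMA⟩ := mach_of hAB.memA
  obtain ⟨MB, pB, hMB⟩ := mach_of hAB.memB
  obtain ⟨Bd, hBd⟩ := dec2_bd
  set D : PD := ⟨MA, pA, MB, pB⟩ with hD
  have hDis : G ∈ Dis D C := fun x => by
    by_contra hc
    rw [not_or] at hc
    have h1 : A x = true := by
      rw [← Bool.not_eq_false]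
      exact fun h => hc.1 ((hMA x).1 h)
    have h2 : B x = true := by
      rw [← Bool.not_eq_false]
      exact fun h => hc.2 ((hMB x).1 h)
    exact hAB.disjoint x ⟨h1, h2⟩
  obtain ⟨m, hm⟩ := hFD D hDis
  refine ⟨UL MA pA C m (shl G m) dT, UL MB pB C m (shl G m) dT,
    ⟨UL_coNP hUcv hUcm MA pA C m (shl G m) dT (hS3 m (shl G m) MA),
      UL_coNP hUcv hUcm MB pB C m (shl G m) dT (hS3 m (shl G m) MB), ?_⟩, ?_⟩
  · rintro G' y ⟨h1, h2⟩
    rcases hm (wk m (shl G m) (dT (dec2 y).1).tail ((dT (dec2 y).1).headD []).length G')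
      (fun q hq => wk_low G m _ _ _ q hq) (dec2 y).2 with h | h
    · rw [(UL_iff _ _ _ _ _ _ _ _).2 h] at h1
      cases h1
    · rw [(UL_iff _ _ _ _ _ _ _ _).2 h] at h2
      cases h2
  · intro A' B' hAB'
    obtain ⟨RA, rA, hRA⟩ := mach_all hUcv hAB'.memA
    obtain ⟨RB, rB, hRB⟩ := mach_all hUcv hAB'.memB
    obtain ⟨QA, hQA⟩ := mach_shf hUcm RA rA Bd hBd (hS2 RA)
    obtain ⟨QB, hQB⟩ := mach_shf hUcm RB rB Bd hBd (hS2 RB)
    have hA₁ : ∀ (G₀ : World) (y : Str), A' (shf (dec2 y).1.length G₀) (dec2 y).2 = false ↔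
        ∃ w, Sol QA (rA.comp Bd) (join G₀ C) y w := fun G₀ y => by
      rw [hRA]
      exact exists_congr fun w => (hQA C G₀ y w).symm
    have hB₁ : ∀ (G₀ : World) (y : Str), B' (shf (dec2 y).1.length G₀) (dec2 y).2 = false ↔
        ∃ w, Sol QB (rB.comp Bd) (join G₀ C) y w := fun G₀ y => by
      rw [hRB]
      exact exists_congr fun w => (hQB C G₀ y w).symm
    obtain ⟨f, hf, hfA, hfB⟩ := hcomp (fun y => A' (shf (dec2 y).1.length G) (dec2 y).2)
      (fun y => B' (shf (dec2 y).1.length G) (dec2 y).2)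
      ⟨coNP_of QA (rA.comp Bd) (hA₁ G), coNP_of QB (rB.comp Bd) (hB₁ G),
        fun y => hAB'.disjoint _ _⟩
    obtain ⟨F, hF⟩ := (hMch.1 (join G C) f).1 (((hCnv (join G C)).1 f).1 hf)
    set D₁ : PD := ⟨QA, rA.comp Bd, QB, rB.comp Bd⟩ with hD₁
    have hRed : G ∈ PRd D D₁ F C := by
      intro y
      rw [hF y]
      constructor
      · intro hu
        refine (hA₁ G y).1 ?_
        rw [← Bool.not_eq_true]
        intro h
        have h1 := hfA y h
        rw [(hMA _).2 hu] at h1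
        cases h1
      · intro hu
        refine (hB₁ G y).1 ?_
        rw [← Bool.not_eq_true]
        intro h
        have h1 := hfB y h
        rw [(hMB _).2 hu] at h1
        cases h1
    obtain ⟨m₁, hm₁⟩ := hFP D D₁ F hRed
    set k₁ := max m m₁ with hk₁
    set T₁ := shl G m₁ with hT₁
    set c₁ := eT (List.replicate k₁ true :: T₁) with hc₁
    have hc1 : (dT c₁).tail = T₁ := by rw [hc₁, hde]; rfl
    have hc2 : ((dT c₁).headD []).length = k₁ := by
      rw [hc₁, hde]
      exact List.length_replicate ..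
    have hW₁ : ∀ G' : World, wk m (shl G m) T₁ k₁ G' ∈ PRd D D₁ F C :=
      fun G' => hm₁ _ (fun q hq => wk_low2 G m m₁ k₁ (le_max_right _ _) G' q hq)
    obtain ⟨F₃, hF₃⟩ := hS3 m (shl G m) F
    refine ⟨fun G' x => pr c₁ (F.run (join (wk m (shl G m) T₁ k₁ G') C)
        (pr (List.replicate k₁ true) x)), ?_, fun G' => ⟨fun x hx => ?_, fun x hx => ?_⟩⟩
    · refine ((hUcv C).1 _).2 ?_
      have hs' : PTF (fun z : Str => pr c₁ (pr (List.replicate k₁ true) z)) :=
        ptf_pr (PTF.const _) (ptf_pr (PTF.const _) PTF.id)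
      have ho' : PTF (fun q : Str × Str => pr c₁ q.2) := ptf_pr (PTF.const _) PTF.snd
      obtain ⟨M', hM'⟩ := hUcm.1 F₃ _ _ hs' ho'
      refine ⟨M', fun G' z => ?_⟩
      rw [hM']
      simp only []
      rw [hF₃, hc1, hc2]
    · rw [← Bool.not_eq_false]
      intro h
      rw [UL_iff, dec2_pr] at h
      simp only [] at h
      rw [hc1, hc2] at h
      have h2 := (hA₁ (wk m (shl G m) T₁ k₁ G') _).2 ((hW₁ G' _).1 h)
      rw [dec2_pr] at h2
      simp only [] at h2
      rw [List.length_replicate, shf_wk m _ _ k₁ (le_max_left _ _), hx] at h2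
      cases h2
    · rw [← Bool.not_eq_false]
      intro h
      rw [UL_iff, dec2_pr] at h
      simp only [] at h
      rw [hc1, hc2] at h
      have h2 := (hB₁ (wk m (shl G m) T₁ k₁ G') _).2 ((hW₁ G' _).2 h)
      rw [dec2_pr] at h2
      simp only [] at h2
      rw [List.length_replicate, shf_wk m _ _ k₁ (le_max_left _ _), hx] at h2
      cases h2

end Pool.Agent.GW
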