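import Pool.Agent.Work.MP_46935e_lc.GW.Stmts2

/-!
# Block GW, MP_46935e_lc, item Bad: every finite piece of a world extends to a world relative to which
the machine does not separate the pair
-/

set_option autoImplicit false

noncomputable section

namespace Pool.Agent.GW

open Pool.Agent.RO Pool.Agent.S1 Pool.Agent.PT Pool.Agent.Work.MP_46935e_lc N68a2faeb N08b01508
open Topology Filter

namespace Badg

theorem tendsto (p : Polynomial ℕ) :
    Tendsto (fun n : ℕ => ((p.eval n : ℕ) : ℝ) / 2 ^ n) atTop (𝓝 0) := by
  induction p using Polynomial.induction_on' with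
  | add p q hp hq =>
    have h := hp.add hq
    rw [add_zero] at h
    refine h.congr fun n => ?_
    rw [Polynomial.eval_add, Nat.cast_add, add_div]
  | monomial k a =>
    have h := (tendsto_pow_const_div_const_pow_of_one_lt k (one_lt_two : (1 : ℝ) < 2)).const_mul
      (a : ℝ)
    rw [mul_zero] at h
    refine h.congr fun n => ?_
    rw [Polynomial.eval_monomial, Nat.cast_mul, Nat.cast_pow, mul_div_assoc]

theorem exists_large (p : Polynomial ℕ) (m : ℕ) : ∃ n, m ≤ n ∧ p.eval n < 2 ^ n := by
  have h := (tendsto p).eventually (gt_mem_nhds (zero_lt_one : (0 : ℝ) < 1))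
  obtain ⟨N, hN⟩ := Filter.eventually_atTop.1 h
  refine ⟨max m N, le_max_left _ _, ?_⟩
  have h1 := hN (max m N) (le_max_right _ _)
  rw [div_lt_one (by positivity)] at h1
  exact_mod_cast h1

end Badg

open Badg Polynomial in
theorem prf_Bad (hAdv : StAdv) (hWor : StWor) : StBad := by
  classical
  intro M C G m
  obtain ⟨n, hmn, hn⟩ := exists_large (2 * M.N.comp (4 * X + 1)) m
  set x : Str := List.replicate n true with hx
  have hxl : x.length = n := List.length_replicate
  have hN : 2 * M.N.eval (sz x) < 2 ^ n := by
    refine lt_of_le_of_lt ?_ hn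
    rw [eval_mul, eval_comp]
    have h1 : sz x ≤ 4 * n + 1 := by
      have := sz_bits x
      rwa [hxl] at this
    have h2 : M.N.eval (sz x) ≤ M.N.eval (eval n (4 * X + 1)) := by
      apply Pool.Agent.RO.eval_mono
      simpa using h1
    have h3 : eval n (2 : ℕ[X]) = 2 := by simp
    rw [h3]
    omega
  obtain ⟨hW1, hW2, hW3⟩ := hWor G C m x
  obtain ⟨L, hL, hLt⟩ := hAdv Str M.Q x (fun L => join (aw G m x true L) C) (tch x)
    (fun q => le_rfl) (fun L L' q h => hW1 true L L' q h) (M.N.eval (sz x))
  have hLlen : L.length < 2 ^ x.length := by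
    rw [hxl]
    omega
  have hrun : M.run (join (aw G m x false L) C) x = M.run (join (aw G m x true L) C) x := by
    refine (prf_Loc prf_Cgr M (join (aw G m x true L) C) (join (aw G m x false L) C) x ?_).1
    intro q hq
    unfold Mach.qs at hq
    rw [List.mem_map] at hq
    obtain ⟨i, hi, rfl⟩ := hq
    exact hW2 true false L _ (hLt i (List.mem_range.1 hi))
  have hag : ∀ (c : Bool) (q : Str), q.length < m → aw G m x c L q = G q := by
    intro c q hq
    unfold aw
    rw [if_pos hq]
  have hmx : m ≤ x.length := by rw [hxl]; exact hmn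
  by_cases hr : M.run (join (aw G m x true L) C) x = [true]
  · refine ⟨aw G m x false L, hag false, fun hSp => ?_⟩
    have h1 : cpair false (aw G m x false L) x = true := by
      unfold cpair
      rw [decide_eq_true_iff]
      rintro ⟨w, hw, hw2⟩
      rw [hW3 false L hmx hLlen w hw] at hw2
      exact absurd hw2 (by decide)
    have h2 := (hSp x).2 h1
    rw [hrun, hr] at h2
    exact absurd h2 (by decide)
  · refine ⟨aw G m x true L, hag true, fun hSp => ?_⟩
    have h1 : cpair true (aw G m x true L) x = true := by
      unfold cpair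
      rw [decide_eq_true_iff]
      rintro ⟨w, hw, hw2⟩
      rw [hW3 true L hmx hLlen w hw] at hw2
      exact absurd hw2 (by decide)
    exact hr ((hSp x).1 h1)

end Pool.Agent.GW
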