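import Pool.Agent.Work.MP_46935e_lc.GW.Stmts4

/-!
# Block GW part 4, MP_46935e_lc, item ClP: disjointness and reductions of pairs are closed conditions
-/

set_option autoImplicit false

noncomputable section

namespace Pool.Agent.GW

open Pool.Agent.RO Pool.Agent.S1 Pool.Agent.PT Pool.Agent.Work.MP_46935e_lc N68a2faeb
open Topology Filter

namespace ClPg

theorem dis (hLoc : StLoc) (D : PD) (C : World) : IsClosed (Dis D C) := by
  rw [isClosed_iff_frequently]
  intro G hG x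
  obtain ⟨G', h1, h2, h3⟩ := (hG.and_eventually
    ((Clog.ev_runs hLoc D.A C G x (D.pA.eval x.length)).and
      (Clog.ev_runs hLoc D.B C G x (D.pB.eval x.length)))).exists
  rcases (h1 : ∀ x, (∃ w, Sol D.A D.pA (join G' C) x w) ∨
    ∃ w, Sol D.B D.pB (join G' C) x w) x with ⟨w, hw1, hw2⟩ | ⟨w, hw1, hw2⟩
  · exact Or.inl ⟨w, hw1, by rw [← h2 w hw1]; exact hw2⟩
  · exact Or.inr ⟨w, hw1, by rw [← h3 w hw1]; exact hw2⟩

theorem red (hLoc : StLoc) (D D' : PD) (F : Mach) (C : World) : IsClosed (PRd D D' F C) := by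
  rw [isClosed_iff_frequently]
  intro G hG x
  constructor
  · rintro ⟨u, hu⟩
    obtain ⟨G', h1, ⟨h2, h3⟩, h4⟩ := (hG.and_eventually
      (((Clog.ev_run hLoc F C G x).and
        (Clog.ev_run hLoc D.A C G (pr (F.run (join G C) x) u))).and
        (Clog.ev_runs hLoc D'.A C G x (D'.pA.eval x.length)))).exists
    obtain ⟨w, hw1, hw2⟩ := ((h1 : ∀ x,
      ((∃ u, Sol D.A D.pA (join G' C) (F.run (join G' C) x) u) →
        ∃ w, Sol D'.A D'.pA (join G' C) x w) ∧
      ((∃ u, Sol D.B D.pB (join G' C) (F.run (join G' C) x) u) →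
        ∃ w, Sol D'.B D'.pB (join G' C) x w)) x).1
      ⟨u, by rw [h2]; exact hu.1, by rw [h2, h3]; exact hu.2⟩
    exact ⟨w, hw1, by rw [← h4 w hw1]; exact hw2⟩
  · rintro ⟨u, hu⟩
    obtain ⟨G', h1, ⟨h2, h3⟩, h4⟩ := (hG.and_eventually
      (((Clog.ev_run hLoc F C G x).and
        (Clog.ev_run hLoc D.B C G (pr (F.run (join G C) x) u))).and
        (Clog.ev_runs hLoc D'.B C G x (D'.pB.eval x.length)))).exists
    obtain ⟨w, hw1, hw2⟩ := ((h1 : ∀ x,
      ((∃ u, Sol D.A D.pA (join G' C) (F.run (join G' C) x) u) →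
        ∃ w, Sol D'.A D'.pA (join G' C) x w) ∧
      ((∃ u, Sol D.B D.pB (join G' C) (F.run (join G' C) x) u) →
        ∃ w, Sol D'.B D'.pB (join G' C) x w)) x).2
      ⟨u, by rw [h2]; exact hu.1, by rw [h2, h3]; exact hu.2⟩
    exact ⟨w, hw1, by rw [← h4 w hw1]; exact hw2⟩

end ClPg

theorem prf_ClP : StClP := fun D D' F C =>
  ⟨ClPg.dis (prf_Loc prf_Cgr) D C, ClPg.red (prf_Loc prf_Cgr) D D' F C⟩

end Pool.Agent.GW
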