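import Pool.Agent.Work.MP_46935e_lc.GW.Stmts2

/-!
# Block GW, MP_46935e_lc, item ClS: the worlds relative to which a machine separates form a closed
set (helper79)
-/

set_option autoImplicit false

noncomputable section

namespace Pool.Agent.GW

open Pool.Agent.RO Pool.Agent.S1 Pool.Agent.PT Pool.Agent.Work.MP_46935e_lc N68a2faeb N08b01508
open Topology Filter

namespace ClSg

/-- all positions with small padding and short candidates are the same near `G` -/
theorem ev_pos (G : World) (x : Str) (n k : ℕ) :
    ∀ᶠ G' : World in 𝓝 G, ∀ i < k, ∀ w : Str, w.length ≤ n →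
      G' (cpos i x w) = G (cpos i x w) := by
  have h : ∀ᶠ G' : World in 𝓝 G, ∀ i ∈ {i : ℕ | i < k}, ∀ w : Str, w.length ≤ n →
      G' (cpos i x w) = G (cpos i x w) :=
    (Filter.eventually_all_finite (Set.finite_lt_nat k)).2 fun i _ => Clog.ev_cols G x n i
  exact h

theorem hol_eq (G G' : World) (x a : Str) (h : ∀ i < x.length, G' (cpos i x a) = G (cpos i x a)) :
    hol G' x a = hol G x a := by
  unfold hol
  exact List.map_congr_left fun i hi => h i (List.mem_range.1 hi)

theorem coll_iff (G G' : World) (x w : Str)
    (h : ∀ i < x.length + 1, ∀ w : Str, w.length ≤ 2 * (x.length + 1) →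
      G' (cpos i x w) = G (cpos i x w)) : Coll G' x w ↔ Coll G x w := by
  unfold Coll
  refine and_congr_right fun hw => and_congr_right fun _ => ?_
  have h1 : ∀ a : Str, a.length ≤ 2 * (x.length + 1) → hol G' x a = hol G x a := fun a ha =>
    hol_eq G G' x a fun i hi => h i (by omega) a ha
  rw [h1 _ (by rw [List.length_take, hw]; omega), h1 _ (by rw [List.length_drop, hw]; omega)]

theorem cpair_eq (b : Bool) (G G' : World) (x : Str)
    (h : ∀ i < x.length + 1, ∀ w : Str, w.length ≤ 2 * (x.length + 1) →
      G' (cpos i x w) = G (cpos i x w)) : cpair b G' x = cpair b G x := by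
  unfold cpair
  refine decide_eq_decide.2 (not_congr (exists_congr fun w => ?_))
  rw [coll_iff G G' x w h]
  refine and_congr_right fun hw => ?_
  rw [h x.length (by omega) w (le_of_eq hw.1)]

end ClSg

open ClSg in
theorem prf_ClS : StClS := by
  intro M C
  rw [isClosed_iff_frequently]
  intro G hG x
  obtain ⟨G', h1, h2, h3⟩ := (hG.and_eventually ((Clog.ev_run (prf_Loc prf_Cgr) M C G x).and
    (ev_pos G x (2 * (x.length + 1)) (x.length + 1)))).exists
  have h4 := (h1 : G' ∈ Sp M C) x
  rw [cpair_eq true G G' x h3, cpair_eq false G G' x h3, h2] at h4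
  exact h4

end Pool.Agent.GW
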