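import Pool.Agent.Work.MP_46935e_lc.GW.Stmts2

/-!
# Block GW part 2, MP_46935e_lc, item ClT: totality and reductions are closed conditions
-/

set_option autoImplicit false

noncomputable section

namespace Pool.Agent.GW

open Pool.Agent.RO Pool.Agent.S1 Pool.Agent.PT Pool.Agent.Work.MP_46935e_lc N68a2faeb
open Topology Filter

namespace ClTg

theorem tot (hLoc : StLoc) (M : Mach) (p : Polynomial ℕ) (C : World) : IsClosed (Tot M p C) := by
  rw [isClosed_iff_frequently]
  intro G hG x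
  obtain ⟨G', h1, h2⟩ := (hG.and_eventually
    (Clog.ev_runs hLoc M C G x (p.eval x.length))).exists
  obtain ⟨w, hw1, hw2⟩ := (h1 : ∀ x, ∃ w, Sol M p (join G' C) x w) x
  exact ⟨w, hw1, by rw [← h2 w hw1]; exact hw2⟩

theorem red (hLoc : StLoc) (M : Mach) (p : Polynomial ℕ) (R : Mach) (r : Polynomial ℕ)
    (F H : Mach) (C : World) : IsClosed (Red M p R r F H C) := by
  rw [isClosed_iff_frequently]
  intro G hG x w hw
  obtain ⟨G', h1, ⟨⟨h2, h3⟩, h4⟩, h5⟩ := (hG.and_eventually
    (((Clog.ev_run hLoc F C G x).and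
      (Clog.ev_run hLoc M C G (pr (F.run (join G C) x) w))).and
      (Clog.ev_run hLoc H C G (pr x w)) |>.and
      (Clog.ev_run hLoc R C G (pr x (H.run (join G C) (pr x w)))))).exists
  have h6 := (h1 : ∀ x w, Sol M p (join G' C) (F.run (join G' C) x) w →
    Sol R r (join G' C) x (H.run (join G' C) (pr x w))) x w
    ⟨by rw [h2]; exact hw.1, by rw [h2, h3]; exact hw.2⟩
  rw [h4] at h6
  exact ⟨h6.1, by rw [← h5]; exact h6.2⟩

end ClTg

theorem prf_ClT : StClT := fun M p R r F H C =>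
  ⟨ClTg.tot (prf_Loc prf_Cgr) M p C, ClTg.red (prf_Loc prf_Cgr) M p R r F H C⟩

end Pool.Agent.GW
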