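import Pool.Agent.Work.MP_46935e_lc.GW.Stmts4

/-!
# Block GW, part 4, item CoP: comeagrely many oracles force disjointness and reductions of pairs
-/

set_option autoImplicit false

noncomputable section

namespace Pool.Agent.GW

open Pool.Agent.RO Pool.Agent.S1 Pool.Agent.PT Pool.Agent.Work.MP_46935e_lc N68a2faeb N08b01508
open Topology

namespace CoPg

theorem countable_pd : Countable PD := by
  have h0 : Countable (Polynomial ℕ) := countable_polyN
  have hM : Countable Mach := prf_Cnt.1
  have hinj : Function.Injective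
      (fun D : PD => ((D.A, D.pA), (D.B, D.pB))) := by
    rintro ⟨A, pA, B, pB⟩ ⟨A', pA', B', pB'⟩ h
    simp only [Prod.mk.injEq] at h
    obtain ⟨⟨h1, h2⟩, h3, h4⟩ := h
    subst h1 h2 h3 h4
    rfl
  exact hinj.countable

end CoPg

theorem prf_CoP (hFcd : StFcd) (hClP : StClP) : StCoP := by
  intro C
  have hD : Countable PD := CoPg.countable_pd
  have hM : Countable Mach := prf_Cnt.1
  obtain ⟨F₀⟩ : Nonempty (PD → Mach) := ⟨fun D => D.A⟩
  have h1 : ∀ D : PD, {G : World | Fcd (Dis D C) G} ∈ residual World :=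
    fun D => hFcd _ (hClP D D (F₀ D) C).1
  have h2 : ∀ d : PD × PD × Mach,
      {G : World | Fcd (PRd d.1 d.2.1 d.2.2 C) G} ∈ residual World :=
    fun d => hFcd _ (hClP d.1 d.2.1 d.2.2 C).2
  refine Filter.mem_of_superset
    (Filter.inter_mem (countable_iInter_mem.2 h1) (countable_iInter_mem.2 h2)) ?_
  rintro G ⟨hG1, hG2⟩
  refine ⟨fun D => ?_, fun D D' F => ?_⟩
  · exact Set.mem_iInter.1 hG1 D
  · exact Set.mem_iInter.1 hG2 (D, D', F)

end Pool.Agent.GW
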