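import Pool.Agent.Work.MP_46935e_lc.GW.Stmts2

/-!
# Block GW, part 2, item CoT: comeagrely many oracles force totality and reductions
-/

set_option autoImplicit false

noncomputable section

namespace Pool.Agent.GW

open Pool.Agent.RO Pool.Agent.S1 Pool.Agent.PT Pool.Agent.Work.MP_46935e_lc N68a2faeb N08b01508
open Topology

theorem prf_CoT (hFcd : StFcd) (hClT : StClT) : StCoT := by
  intro C
  have h0 : Countable (Polynomial ℕ) := countable_polyN
  have hM : Countable Mach := prf_Cnt.1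
  have h1 : ∀ d : Mach × Polynomial ℕ, {G : World | Fcd (Tot d.1 d.2 C) G} ∈ residual World :=
    fun d => hFcd _ (hClT d.1 d.2 d.1 d.2 d.1 d.1 C).1
  have h2 : ∀ d : (Mach × Polynomial ℕ) × (Mach × Polynomial ℕ) × (Mach × Mach),
      {G : World | Fcd (Red d.1.1 d.1.2 d.2.1.1 d.2.1.2 d.2.2.1 d.2.2.2 C) G} ∈ residual World :=
    fun d => hFcd _ (hClT d.1.1 d.1.2 d.2.1.1 d.2.1.2 d.2.2.1 d.2.2.2 C).2
  refine Filter.mem_of_superset
    (Filter.inter_mem (countable_iInter_mem.2 h1) (countable_iInter_mem.2 h2)) ?_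
  rintro G ⟨hG1, hG2⟩
  refine ⟨fun M p => ?_, fun M p R r F H => ?_⟩
  · exact Set.mem_iInter.1 hG1 (M, p)
  · exact Set.mem_iInter.1 hG2 ((M, p), (R, r), (F, H))

end Pool.Agent.GW
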