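import Pool.Agent.Work.MP_46935e_lc.GW.Stmts2

/-!
# Item DeT of the block GW: coding lists of strings by strings
-/

set_option autoImplicit false

noncomputable section

namespace Pool.Agent.GW

open Pool.Agent.RO Pool.Agent.S1 Pool.Agent.PT Pool.Agent.Work.MP_46935e_lc N68a2faeb

namespace DeTg

/-- The code of one string, followed by a separator. -/
def e1 (t : List Bool) : List Bool := t.flatMap (fun b => [true, b]) ++ [false, false]

/-- The code of a list of strings. -/
def eL (T : List (List Bool)) : List Bool := T.flatMap e1

/-- State machine for decoding. -/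
def st (s : ℕ × (List Bool × List (List Bool))) (c : Bool) : ℕ × (List Bool × List (List Bool)) :=
  if s.1 = 0 then (if c = true then (1, s.2.1, s.2.2) else (2, s.2.1, s.2.2))
  else if s.1 = 1 then (0, s.2.1 ++ [c], s.2.2)
  else (0, [], s.2.2 ++ [s.2.1])

/-- The decoding function. -/
def dL (l : List Bool) : List (List Bool) := (l.foldl st (0, [], [])).2.2

theorem st_word (t : List Bool) : ∀ (r c : List Bool) (o : List (List Bool)),
    (t.flatMap (fun b => [true, b]) ++ r).foldl st (0, c, o) = r.foldl st (0, c ++ t, o) := by
  induction t with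
  | nil => intro r c o; simp
  | cons b t ih =>
    intro r c o
    have h := ih r (c ++ [b]) o
    rw [List.flatMap_cons, List.append_assoc, List.cons_append, List.cons_append,
      List.nil_append, List.foldl_cons, List.foldl_cons]
    have h1 : st (st (0, c, o) true) b = (0, c ++ [b], o) := by
      simp [st]
    rw [h1, h, List.append_assoc, List.singleton_append]

theorem st_e1 (t r : List Bool) (o : List (List Bool)) :
    (e1 t ++ r).foldl st (0, [], o) = r.foldl st (0, [], o ++ [t]) := by
  unfold e1
  rw [List.append_assoc, st_word, List.nil_append, List.cons_append, List.cons_append,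
    List.nil_append, List.foldl_cons, List.foldl_cons]
  have h1 : st (st (0, t, o) false) false = (0, [], o ++ [t]) := by
    simp [st]
  rw [h1]

theorem st_eL (T : List (List Bool)) : ∀ o : List (List Bool),
    (eL T).foldl st (0, [], o) = (0, [], o ++ T) := by
  induction T with
  | nil => intro o; simp [eL]
  | cons t T ih =>
    intro o
    have h : eL (t :: T) = e1 t ++ eL T := by
      unfold eL
      rw [List.flatMap_cons]
    rw [h, st_e1, ih, List.append_assoc, List.singleton_append]

theorem dL_eL (T : List (List Bool)) : dL (eL T) = T := by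
  unfold dL
  rw [st_eL, List.nil_append]

theorem ptf_dL : PTF dL := by
  have hstep : PTF (fun p : List Bool × ((ℕ × (List Bool × List (List Bool))) × Bool) =>
      st p.2.1 p.2.2) := by
    unfold st
    have h1 : PTF (fun p : List Bool × ((ℕ × (List Bool × List (List Bool))) × Bool) =>
        p.2.1.1) := PTF.fst.comp (PTF.fst.comp PTF.snd)
    have h2 : PTF (fun p : List Bool × ((ℕ × (List Bool × List (List Bool))) × Bool) =>
        p.2.1.2.1) := PTF.fst.comp (PTF.snd.comp (PTF.fst.comp PTF.snd))
    have h3 : PTF (fun p : List Bool × ((ℕ × (List Bool × List (List Bool))) × Bool) =>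
        p.2.1.2.2) := PTF.snd.comp (PTF.snd.comp (PTF.fst.comp PTF.snd))
    have h4 : PTF (fun p : List Bool × ((ℕ × (List Bool × List (List Bool))) × Bool) =>
        p.2.2) := PTF.snd.comp PTF.snd
    have hc : PTF (fun p : List Bool × ((ℕ × (List Bool × List (List Bool))) × Bool) =>
        [p.2.2]) := PTF.cons h4 (PTF.const [])
    have hd : PTF (fun p : List Bool × ((ℕ × (List Bool × List (List Bool))) × Bool) =>
        [p.2.1.2.1]) := PTF.cons h2 (PTF.const [])
    refine PTF.ite (h1.eq (PTF.const 0)) ?_ (PTF.ite (h1.eq (PTF.const 1)) ?_ ?_)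
    · exact PTF.ite (p := fun p : List Bool × ((ℕ × (List Bool × List (List Bool))) × Bool) =>
        p.2.2 = true) (h4.eq (PTF.const true)) ((PTF.const 1).pair (h2.pair h3))
        ((PTF.const 2).pair (h2.pair h3))
    · exact (PTF.const 0).pair ((h2.append hc).pair h3)
    · exact (PTF.const 0).pair ((PTF.const []).pair (h3.append hd))
  have h := PTF.foldl_add (l := fun l : List Bool => l)
    (init := fun _ : List Bool => ((0 : ℕ), (([] : List Bool), ([] : List (List Bool)))))
    (step := fun p : List Bool × ((ℕ × (List Bool × List (List Bool))) × Bool) =>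
      st p.2.1 p.2.2)
    PTF.id (PTF.const _) hstep (fun _ => 20) (PB.const _) (fun a s b _ => by
      obtain ⟨n, x, y⟩ := s
      have h1 := sz_bool b
      have h3 : sz (x ++ [b]) + 1 = sz x + (sz b + 1 + 1) := by
        have := sz_append x [b]
        rw [sz_cons, sz_nil] at this
        omega
      have h4 : sz (y ++ [x]) + 1 = sz y + (sz x + 1 + 1) := by
        have := sz_append y [x]
        rw [sz_cons, sz_nil] at this
        omega
      have h0 := sz_nat 0
      have h0' := sz_nat 1
      have h0'' := sz_nat 2
      have hn := sz_nat n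
      have hx : sz ([] : List Bool) = 1 := sz_nil
      simp only [st]
      split_ifs <;> simp only [sz_pair] <;> omega)
  exact PTF.snd.comp (PTF.snd.comp h)

end DeTg

/-- Item DeT. -/
theorem prf_DeT : StDeT := ⟨DeTg.eL, DeTg.dL, DeTg.ptf_dL, DeTg.dL_eL⟩

end Pool.Agent.GW
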