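import Pool.Agent.Work.MP_46935e_lc.GW.Stmts2

/-!
# Block GW, part 2, item Fcd: comeagrely many oracles force a closed property which they have
-/

set_option autoImplicit false

noncomputable section

namespace Pool.Agent.GW

open Pool.Agent.RO Pool.Agent.S1 Pool.Agent.PT Pool.Agent.Work.MP_46935e_lc N68a2faeb
open Topology

theorem prf_Fcd : StFcd := by
  intro K hK
  have h1 : (frontier K)ᶜ ∈ residual World := by
    refine residual_of_dense_open isClosed_frontier.isOpen_compl ?_
    rw [← interior_eq_empty_iff_dense_compl]
    exact interior_frontier hK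
  refine Filter.mem_of_superset h1 ?_
  intro G hG hgood
  have h3 : G ∈ interior K := by
    by_contra h
    apply hG
    rw [hK.frontier_eq]
    exact ⟨hgood, h⟩
  obtain ⟨m, hm⟩ := Comg.agree isOpen_interior h3
  exact ⟨m, fun G' hG' => interior_subset (hm G' hG')⟩

end Pool.Agent.GW
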