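import Pool.Agent.Work.MP_46935e_lc.GW.Stmts2

/-!
# Block GW, part 2, item Fro: the world without oracle
-/

set_option autoImplicit false

noncomputable section

namespace Pool.Agent.GW

open Pool.Agent.RO Pool.Agent.S1 Pool.Agent.PT Pool.Agent.Work.MP_46935e_lc N68a2faeb N08b01508
open Topology

namespace Frog

theorem qans_nul {α : Type} (Q : α × Str → Str) (x : α) (n : ℕ) :
    qans Q nul x n = List.replicate n false := by
  induction n with
  | zero => rfl
  | succ n ih =>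
    show qans Q nul x n ++ [false] = _
    rw [ih, List.replicate_succ']

theorem ptf_repl {α : Type} [Enc α] (N : Polynomial ℕ) :
    PTF (fun x : α => List.replicate (N.eval (sz x)) false) := by
  have h : PTF (fun x : α => N.eval (sz x)) := ptf_eval N (ptf_sz PTF.id)
  fun_prop

theorem qc_nul {α β : Type} [Enc α] [Enc β] (f : α → β) : QC nul f ↔ PTF f := by
  constructor
  · rintro ⟨Q, N, out, _, hout, h⟩
    have h1 : PTF (fun x : α => out (x, List.replicate (N.eval (sz x)) false)) :=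
      hout.comp (PTF.id.pair (ptf_repl N))
    refine h1.congr (fun x => ?_)
    have h2 := h x
    rw [qans_nul] at h2
    exact h2
  · exact (prf_Eas α β nul).1 f

theorem ipt_of_ptf_fun {f : Str → Str} (h : PTF f) : IsPolyTime f :=
  tm2_of_ptf (d := unB) h (ptf_unB PTF.id) (fun a => by
    show unB (N487b59b3.bitEncode a) = a
    rw [bitEncode_list, unB_encB]) ptf_encL

theorem rel_fun (f : Str → Str) : IsPolyTimeRel nul f ↔ IsPolyTime f := by
  rw [((prf_Cnv prf_Len) nul).1 f, qc_nul]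
  exact ⟨ipt_of_ptf_fun, ptf_of_isPolyTime_fun⟩

theorem rel_pred (V : Str × Str → Bool) : IsPolyTimeRel nul V ↔ IsPolyTime V := by
  rw [((prf_Cnv prf_Len) nul).2.1 V, qc_nul]
  exact ⟨isPolyTime_of_ptf, ptf_of_isPolyTime⟩

theorem np_nul (L : DecisionProblem) : L ∈ NPRel nul ↔ L ∈ NP := by
  constructor
  · rintro ⟨p, V, hV, h⟩
    exact ⟨p, V, (rel_pred V).1 hV, h⟩
  · rintro ⟨p, V, hV, h⟩
    exact ⟨p, V, (rel_pred V).2 hV, h⟩

theorem conp_nul (L : DecisionProblem) : L ∈ coNPRel nul ↔ L ∈ coNP := np_nul Lᶜ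

theorem pair_nul (A B : DecisionProblem) : IsDisjointCoNPPairRel nul A B ↔ IsDisjointCoNPPair A B :=
  ⟨fun h => ⟨(conp_nul A).1 h.memA, (conp_nul B).1 h.memB, h.disjoint⟩,
   fun h => ⟨(conp_nul A).2 h.memA, (conp_nul B).2 h.memB, h.disjoint⟩⟩

theorem red_nul (A B A' B' : DecisionProblem) :
    PairReducibleRel nul A B A' B' ↔ PairReducible A B A' B' := by
  constructor
  · rintro ⟨f, hf, h⟩
    exact ⟨f, (rel_fun f).1 hf, h⟩
  · rintro ⟨f, hf, h⟩
    exact ⟨f, (rel_fun f).2 hf, h⟩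

end Frog

theorem prf_Fro : StFro := by
  constructor
  · rintro ⟨A, B, h1, h2⟩
    exact ⟨A, B, (Frog.pair_nul A B).1 h1, fun A' B' h => (Frog.red_nul _ _ _ _).1
      (h2 A' B' ((Frog.pair_nul A' B').2 h))⟩
  · rintro ⟨A, B, h1, h2⟩
    exact ⟨A, B, (Frog.pair_nul A B).2 h1, fun A' B' h => (Frog.red_nul _ _ _ _).2
      (h2 A' B' ((Frog.pair_nul A' B').1 h))⟩

end Pool.Agent.GW
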