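import Pool.Agent.Work.MP_46935e_lc.GW.Stmts2
import Pool.Agent.Work.MP_46935e_lc.S1.Fin

/-!
# Block GW, item Ins: inseparable pairs
-/

set_option autoImplicit false

noncomputable section

namespace Pool.Agent.GW

open Pool.Agent.RO Pool.Agent.S1 Pool.Agent.PT Pool.Agent.Work.MP_46935e_lc N68a2faeb N08b01508
open Topology

theorem prf_Ins (hFcd : StFcd) (hClS : StClS) (hBad : StBad) (hPhp : StPhp) : StIns := by
  intro C
  have hc : Countable Mach := prf_Cnt.1
  have h1 : ∀ M : Mach, {G : World | Fcd (Sp M C) G} ∈ residual World :=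
    fun M => hFcd _ (hClS M C)
  refine Filter.mem_of_superset (countable_iInter_mem.2 h1) ?_
  intro G hG
  refine ⟨cpair true G, cpair false G, (hPhp C G).2, fun S hS hsep => ?_⟩
  have hq : QC (join G C) (fun x : Str => [S x]) :=
    ((prf_Cnv prf_Len (join G C)).1 _).1 (singleton_poly hS)
  obtain ⟨M, hM⟩ := ((prf_Mch prf_Len).1 (join G C) (fun x : Str => [S x])).1 hq
  have hmem : G ∈ Sp M C := by
    intro x
    constructor
    · intro hx
      rw [hM, hsep.1 x hx]
    · intro hx
      rw [hM, hsep.2 x hx]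
  obtain ⟨m, hm⟩ := (Set.mem_iInter.1 hG M) hmem
  obtain ⟨G', hG', hn⟩ := hBad M C G m
  exact hn (hm G' hG')

end Pool.Agent.GW
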