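import Pool.Agent.Work.MP_46935e_lc.GW.Stmts2

/-! Item Jon of block [46935e GW] (helper15): machines relative to `C` run relative to `join G C`. -/

set_option autoImplicit false

noncomputable section

namespace Pool.Agent.GW

open Pool.Agent.RO Pool.Agent.S1 Pool.Agent.PT Pool.Agent.Work.MP_46935e_lc N68a2faeb N08b01508
open Topology

namespace Jong

theorem qans_join {α : Type} (Q : α × Str → Str) (C G : World) (x : α) (n : ℕ) :
    qans (fun p => false :: Q p) (join G C) x n = qans Q C x n := by
  induction n with
  | zero => rfl
  | succ n ih =>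
    show qans (fun p => false :: Q p) (join G C) x n ++
      [join G C (false :: Q (x, qans (fun p => false :: Q p) (join G C) x n))] =
      qans Q C x n ++ [C (Q (x, qans Q C x n))]
    rw [ih]
    rfl

theorem ptf_cons {α : Type} [Enc α] (Q : α → Str) (hQ : PTF Q) : PTF (fun p => false :: Q p) := by
  fun_prop

end Jong

/-- Item Jon. -/
theorem prf_Jon : StJon := by
  intro M
  refine ⟨⟨fun p => false :: M.Q p, M.N, M.out, Jong.ptf_cons M.Q M.hQ, M.hout⟩, ?_⟩
  intro C G z
  unfold Mach.run
  show M.out (z, qans (fun p => false :: M.Q p) (join G C) z (M.N.eval (sz z))) = _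
  rw [Jong.qans_join]

end Pool.Agent.GW

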