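import Pool.Agent.Work.MP_46935e_lc.GW.Stmts2

/-!
# Block GW, part 2, item Nul: joining the empty oracle changes nothing
-/

set_option autoImplicit false

noncomputable section

namespace Pool.Agent.GW

open Pool.Agent.RO Pool.Agent.S1 Pool.Agent.PT Pool.Agent.Work.MP_46935e_lc N68a2faeb

namespace Nulg

variable {α β : Type} [Enc α] [Enc β]

/-- The corrected answers. -/
def rp (Q : α × Str → Str) (z : α) (a : Str) : Str :=
  a.foldl (fun s b => s ++ [(Q (z, s)).headD false && b]) []

omit [Enc α] in
theorem rp_append (Q : α × Str → Str) (z : α) (a : Str) (b : Bool) :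
    rp Q z (a ++ [b]) = rp Q z a ++ [(Q (z, rp Q z a)).headD false && b] := by
  unfold rp
  rw [List.foldl_append]
  rfl

theorem ptf_rp {Q : α × Str → Str} (hQ : PTF Q) : PTF (fun p : α × Str => rp Q p.1 p.2) := by
  have hs : PTF (fun q : (α × Str) × (Str × Bool) =>
      q.2.1 ++ [(Q (q.1.1, q.2.1)).headD false && q.2.2]) := by
    refine PTF.append (PTF.fst.comp PTF.snd) (PTF.cons (PTF.and (PTF.headD (hQ.comp
      (PTF.pair (PTF.fst.comp PTF.fst) (PTF.fst.comp PTF.snd))) (PTF.const false))
      (PTF.snd.comp PTF.snd)) (PTF.const []))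
  have h := PTF.foldl_add (l := fun p : α × Str => p.2) (init := fun _ => ([] : Str))
    (step := fun q : (α × Str) × (Str × Bool) =>
      q.2.1 ++ [(Q (q.1.1, q.2.1)).headD false && q.2.2]) PTF.snd (PTF.const []) hs
    (fun _ => 4) (PB.const 4) (fun a s b _ => by
      have h1 := sz_append s [(Q (a.1, s)).headD false && b]
      have h2 : sz [(Q (a.1, s)).headD false && b] ≤ 5 := by
        rw [sz_cons, sz_nil]
        have := sz_bool ((Q (a.1, s)).headD false && b)
        omega
      show sz (s ++ [(Q (a.1, s)).headD false && b]) ≤ _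
      omega)
  exact h

theorem join_nul (G : World) (q : Str) : join G nul q = (q.headD false && G q.tail) := by
  rcases q with _ | ⟨b, w⟩
  · rfl
  · cases b <;> rfl

omit [Enc α] in
theorem rp_qans (Q : α × Str → Str) (G : World) (z : α) (n : ℕ) :
    rp Q z (qans (fun p : α × Str => (Q (p.1, rp Q p.1 p.2)).tail) G z n) =
      qans Q (join G nul) z n := by
  induction n with
  | zero => rfl
  | succ n ih =>
    rw [qans, rp_append, ih, qans, join_nul]

omit [Enc α] in
theorem qans_cons (Q : α × Str → Str) (G C : World) (z : α) (n : ℕ) :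
    qans (fun p : α × Str => true :: Q p) (join G C) z n = qans Q G z n := by
  induction n with
  | zero => rfl
  | succ n ih =>
    rw [qans, qans, ih]
    rfl

theorem qc_nul (G : World) (f : α → β) : QC (join G nul) f ↔ QC G f := by
  constructor
  · rintro ⟨Q, N, out, hQ, hout, h⟩
    have h1 := ptf_rp hQ
    refine ⟨fun p => (Q (p.1, rp Q p.1 p.2)).tail, N, fun p => out (p.1, rp Q p.1 p.2), ?_, ?_, ?_⟩
    · exact PTF.tail (hQ.comp (PTF.fst.pair h1))
    · exact hout.comp (PTF.fst.pair h1)
    · intro x
      show out (x, rp Q x _) = _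
      rw [rp_qans, h]
  · rintro ⟨Q, N, out, hQ, hout, h⟩
    refine ⟨fun p => true :: Q p, N, out, PTF.cons (PTF.const true) hQ, hout, fun x => ?_⟩
    rw [qans_cons, h]

end Nulg

open Nulg in
theorem prf_Nul : StNul := by
  intro G
  have hc := prf_Cnv prf_Len
  have h1 : ∀ f : Str → Str, IsPolyTimeRel (join G nul) f ↔ IsPolyTimeRel G f := fun f =>
    ((hc (join G nul)).1 f).trans ((qc_nul G f).trans ((hc G).1 f).symm)
  have h2 : ∀ V : Str × Str → Bool, IsPolyTimeRel (join G nul) V ↔ IsPolyTimeRel G V := fun V =>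
    ((hc (join G nul)).2.1 V).trans ((qc_nul G V).trans ((hc G).2.1 V).symm)
  have h3 : ∀ f : Str × Str → Str, IsPolyTimeRel (join G nul) f ↔ IsPolyTimeRel G f := fun f =>
    ((hc (join G nul)).2.2 f).trans ((qc_nul G f).trans ((hc G).2.2 f).symm)
  have hN : NPRel (join G nul) = NPRel G := by
    ext L
    exact exists_congr fun p => exists_congr fun V => and_congr_left fun _ => h2 V
  have hcN : coNPRel (join G nul) = coNPRel G := by
    unfold coNPRel
    rw [hN]
  have hD : ∀ A B, IsDisjointCoNPPairRel (join G nul) A B ↔ IsDisjointCoNPPairRel G A B := by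
    intro A B
    constructor
    · rintro ⟨a, b, c⟩
      rw [hcN] at a b
      exact ⟨a, b, c⟩
    · rintro ⟨a, b, c⟩
      rw [← hcN] at a b
      exact ⟨a, b, c⟩
  have hR : ∀ A B A' B', PairReducibleRel (join G nul) A B A' B' ↔ PairReducibleRel G A B A' B' :=
    fun A B A' B' => exists_congr fun f => and_congr_left fun _ => h1 f
  have hT : ∀ V, IsTFNPRel (join G nul) V ↔ IsTFNPRel G V := by
    intro V
    constructor
    · rintro ⟨a, b, c⟩
      exact ⟨(h2 V).1 a, b, c⟩
    · rintro ⟨a, b, c⟩
      exact ⟨(h2 V).2 a, b, c⟩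
  have hS : ∀ V V', SearchReducibleRel (join G nul) V V' ↔ SearchReducibleRel G V V' :=
    fun V V' => exists_congr fun f => exists_congr fun h =>
      and_congr (h1 f) (and_congr_left fun _ => h3 h)
  constructor
  · unfold HasPair
    simp only [hD, hR]
  · unfold HasTFNP
    simp only [hT, hS]

end Pool.Agent.GW
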