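import Pool.Agent.Work.MP_46935e_lc.GW.Stmts2

/-!
# Block GW part 2, item PHP: the pigeonhole pair
-/

set_option autoImplicit false

noncomputable section

namespace Pool.Agent.GW

open Pool.Agent.RO Pool.Agent.S1 Pool.Agent.PT Pool.Agent.Work.MP_46935e_lc N68a2faeb

namespace Phpg

lemma length_hol (G : World) (x a : Str) : (hol G x a).length = x.length := by
  simp [hol]

lemma exists_coll (G : World) (x : Str) : ∃ w, Coll G x w := by
  have hc : Fintype.card (List.Vector Bool x.length) <
      Fintype.card (List.Vector Bool (x.length + 1)) := by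
    rw [card_vector, card_vector, Fintype.card_bool]
    exact Nat.pow_lt_pow_right (by norm_num) (Nat.lt_succ_self _)
  obtain ⟨a, b, hab, h⟩ := Fintype.exists_ne_map_eq_of_card_lt
    (α := List.Vector Bool (x.length + 1)) (β := List.Vector Bool x.length)
    (fun a => ⟨hol G x a.1, length_hol G x a.1⟩) hc
  have h1 : (a.1 ++ b.1).take (x.length + 1) = a.1 := by
    rw [List.take_append_of_le_length (by rw [a.2]), List.take_of_length_le (by rw [a.2])]
  have h2 : (a.1 ++ b.1).drop (x.length + 1) = b.1 := by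
    rw [List.drop_append_of_le_length (by rw [a.2]), List.drop_of_length_le (by rw [a.2]),
      List.nil_append]
  refine ⟨a.1 ++ b.1, ?_, ?_, ?_⟩
  · rw [List.length_append, a.2, b.2]
    ring
  · rw [h1, h2]
    exact fun h3 => hab (Subtype.ext h3)
  · rw [h1, h2]
    exact congrArg Subtype.val h

/-- The certificate predicate. -/
def Vp (b : Bool) (G : World) (p : Str × Str) : Bool :=
  (decide (p.2.length = 2 * (p.1.length + 1)) &&
    (!decide (p.2.take (p.1.length + 1) = p.2.drop (p.1.length + 1)) &&
      decide (hol G p.1 (p.2.take (p.1.length + 1)) = hol G p.1 (p.2.drop (p.1.length + 1))))) &&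
    (G (cpos p.1.length p.1 p.2) == !b)

lemma Vp_iff (b : Bool) (G : World) (x w : Str) :
    Vp b G (x, w) = true ↔ Coll G x w ∧ G (cpos x.length x w) = !b := by
  unfold Vp Coll
  simp only [Bool.and_eq_true, decide_eq_true_eq, Bool.not_eq_true', decide_eq_false_iff_not,
    beq_iff_eq]

lemma qc_hol (C G : World) (e : Str × Str → Str) (he : PTF e) :
    QC (join G C) (fun p : Str × Str => hol G p.1 (e p)) := by
  have hq : PTF (fun r : (Str × Str) × ℕ => true :: cpos r.2 r.1.1 (e r.1)) := by
    unfold cpos pr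
    fun_prop
  have ht : QC (join G C) (fun r : (Str × Str) × ℕ => (join G C) (true :: cpos r.2 r.1.1 (e r.1))) :=
    (prf_Eas ((Str × Str) × ℕ) Bool (join G C)).2.1 _ hq
  have hl : PTF (fun p : Str × Str => List.range p.1.length) := by fun_prop
  exact prf_Map prf_Len (Str × Str) ℕ Bool (join G C) _ _ hl ht

lemma qc_Vp (C G : World) (b : Bool) : QC (join G C) (Vp b G) := by
  have hEas := prf_Eas
  have hCmp : StCmp := prf_Cmp prf_Len (prf_App prf_Len)
  have h1 := qc_hol C G (fun p : Str × Str => p.2.take (p.1.length + 1)) (by fun_prop)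
  have h2 := qc_hol C G (fun p : Str × Str => p.2.drop (p.1.length + 1)) (by fun_prop)
  have hq : PTF (fun r : Str × Str => true :: cpos r.1.length r.1 r.2) := by
    unfold cpos pr
    fun_prop
  have h3 : QC (join G C) (fun p : Str × Str => (join G C) (true :: cpos p.1.length p.1 p.2)) :=
    (hEas (Str × Str) Bool (join G C)).2.1 _ hq
  have h4 := Cndg.qc_pair hEas hCmp (Cndg.qc_pair hEas hCmp h1 h2) h3
  have hF : PTF (fun r : (Str × Str) × ((Str × Str) × Bool) =>
      (decide (r.1.2.length = 2 * (r.1.1.length + 1)) &&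
        (!decide (r.1.2.take (r.1.1.length + 1) = r.1.2.drop (r.1.1.length + 1)) &&
          decide (r.2.1.1 = r.2.1.2))) && (r.2.2 == !b)) := by
    fun_prop
  exact hCmp (Str × Str) ((Str × Str) × Bool) Bool (join G C) _ _ h4
    ((hEas _ _ (join G C)).1 _ hF)

lemma cpair_false (b : Bool) (G : World) (x : Str) : cpair b G x = false ↔
    ∃ w : Str, w.length ≤ (2 * Polynomial.X + 2 : Polynomial ℕ).eval x.length ∧
      Vp b G (x, w) = true := by
  unfold cpair
  rw [decide_eq_false_iff_not, not_not]
  constructor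
  · rintro ⟨w, hw, hb⟩
    refine ⟨w, ?_, (Vp_iff b G x w).2 ⟨hw, hb⟩⟩
    rw [hw.1]
    simp only [Polynomial.eval_add, Polynomial.eval_mul, Polynomial.eval_ofNat, Polynomial.eval_X]
    omega
  · rintro ⟨w, -, hw⟩
    exact ⟨w, (Vp_iff b G x w).1 hw⟩

open Classical in
lemma cpair_true {b : Bool} {G : World} {x w : Str} (h : cpair b G x = true) (hw : Coll G x w) :
    G (cpos x.length x w) ≠ !b := by
  unfold cpair at h
  rw [decide_eq_true_iff] at h
  exact fun h1 => h ⟨w, hw, h1⟩

lemma cpair_mem (C G : World) (b : Bool) : cpair b G ∈ coNPRel (join G C) :=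
  Revg.mem_coNP_iff.2 ⟨2 * Polynomial.X + 2, Vp b G,
    ((prf_Cnv prf_Len (join G C)).2.1 _).2 (qc_Vp C G b), fun x => cpair_false b G x⟩

end Phpg

open Phpg

/-- PHP. -/
theorem prf_Php : StPhp := by
  intro C G
  refine ⟨exists_coll G, cpair_mem C G true, cpair_mem C G false, ?_⟩
  rintro x ⟨h1, h2⟩
  obtain ⟨w, hw⟩ := exists_coll G x
  cases h : G (cpos x.length x w) with
  | false => exact cpair_true h1 hw h
  | true => exact cpair_true h2 hw h

end Pool.Agent.GW
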