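import Pool.Agent.Work.MP_46935e_lc.GW.Stmts3

/-!
# Block GW, item Si3: three simulations
-/

set_option autoImplicit false

noncomputable section

namespace Pool.Agent.GW

open Pool.Agent.RO Pool.Agent.S1 Pool.Agent.PT Pool.Agent.Work.MP_46935e_lc N68a2faeb

namespace Si3g

theorem pr_ptf {α : Type} [Enc α] {f g : α → Str} (hf : PTF f) (hg : PTF g) :
    PTF (fun a => pr (f a) (g a)) := by
  unfold pr
  exact (ptf_dl hf).append hg

/-- the simulated answer (first simulation) -/
def a1 (m : ℕ) (S : List Str) (x : (Str × Str) × Bool) : Bool :=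
  if x.1.2.headD false = true then
    (if (x.1.2.drop 1).length < m then decide (x.1.2.drop 1 ∈ S) else x.2) else x.2

theorem ptf_a1 (m : ℕ) (S : List Str) : PTF (a1 m S) := by
  unfold a1
  have hq : PTF (fun x : (Str × Str) × Bool => x.1.2) := by fun_prop
  have hb : PTF (fun x : (Str × Str) × Bool => x.2) := by fun_prop
  have h1 : PTF (fun x : (Str × Str) × Bool => x.1.2.drop 1) := PTF.drop hq (PTF.const 1)
  have h2 : PTF (fun x : (Str × Str) × Bool => decide (x.1.2.drop 1 ∈ S)) :=
    (PTF.mem h1 (PTF.const S)).congr fun _ => decide_eq_decide.2 Iff.rfl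
  have h4 : PTF (fun x : (Str × Str) × Bool => decide ((x.1.2.drop 1).length < m)) :=
    h1.length.lt (PTF.const m)
  have h6 : PTF (fun x : (Str × Str) × Bool => decide (x.1.2.headD false = true)) :=
    (PTF.headD hq (PTF.const false)).eq (PTF.const true)
  exact PTF.ite h6 (PTF.ite h4 h2 hb) hb

theorem join_a1 (m : ℕ) (S : List Str) (C G : World) (c q : Str) :
    join (pat m S G) C q = a1 m S ((c, q), join G C q) := by
  unfold a1
  cases q with
  | nil => rfl
  | cons b w =>
    cases b
    · simp [join]
    · simp [join, pat]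

/-- the translated query (second simulation) -/
def t2 (x : Str × Str) : Str :=
  if x.2.headD false = true then true :: (List.replicate x.1.length true ++ false :: x.2.drop 1)
  else x.2

theorem ptf_t2 : PTF t2 := by
  unfold t2
  have hc : PTF (fun x : Str × Str => x.1) := PTF.fst
  have hq : PTF (fun x : Str × Str => x.2) := PTF.snd
  have h1 : PTF (fun x : Str × Str => x.2.drop 1) := PTF.drop hq (PTF.const 1)
  have h2 : PTF (fun x : Str × Str => List.replicate x.1.length true) :=
    PTF.replicate hc.length (PTF.const true)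
  have h6 : PTF (fun x : Str × Str => decide (x.2.headD false = true)) :=
    (PTF.headD hq (PTF.const false)).eq (PTF.const true)
  exact PTF.ite h6 (PTF.cons (PTF.const true) (h2.append (PTF.cons (PTF.const false) h1))) hq

theorem join_t2 (C G : World) (c q : Str) :
    join (shf c.length G) C q = join G C (t2 (c, q)) := by
  unfold t2
  cases q with
  | nil => rfl
  | cons b w =>
    cases b
    · simp [join]
    · simp [join, shf]

/-- the length read off from the code (third simulation) -/
def kd (dT : Str → List Str) (c : Str) : ℕ := ((dT c).headD []).length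

theorem ptf_kd {α : Type} [Enc α] {dT : Str → List Str} (h : PTF dT) {f : α → Str} (hf : PTF f) :
    PTF (fun x => kd dT (f x)) :=
  (PTF.headD (h.comp hf) (PTF.const [])).length

/-- the translated query (third simulation) -/
def t3 (dT : Str → List Str) (x : Str × Str) : Str :=
  if x.2.headD false = true then true :: (x.2.drop 1).drop (kd dT x.1 + 1) else x.2

theorem ptf_t3 {dT : Str → List Str} (h : PTF dT) : PTF (t3 dT) := by
  unfold t3
  have hk : PTF (fun x : Str × Str => kd dT x.1) := ptf_kd h PTF.fst
  have hq : PTF (fun x : Str × Str => x.2) := PTF.snd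
  have h1 : PTF (fun x : Str × Str => x.2.drop 1) := PTF.drop hq (PTF.const 1)
  have h6 : PTF (fun x : Str × Str => decide (x.2.headD false = true)) :=
    (PTF.headD hq (PTF.const false)).eq (PTF.const true)
  exact PTF.ite h6 (PTF.cons (PTF.const true) (PTF.drop h1 hk.succ)) hq

/-- the simulated answer (third simulation) -/
def a3 (dT : Str → List Str) (m : ℕ) (S : List Str) (x : (Str × Str) × Bool) : Bool :=
  if x.1.2.headD false = true then
    (if (x.1.2.drop 1).length < m then decide (x.1.2.drop 1 ∈ S) else
      if (x.1.2.drop 1).length < kd dT x.1.1 then decide (x.1.2.drop 1 ∈ (dT x.1.1).tail) else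
        if (x.1.2.drop 1).take (kd dT x.1.1 + 1) = List.replicate (kd dT x.1.1) true ++ [false]
          then x.2 else false) else x.2

theorem ptf_a3 {dT : Str → List Str} (h : PTF dT) (m : ℕ) (S : List Str) : PTF (a3 dT m S) := by
  unfold a3
  have hc : PTF (fun x : (Str × Str) × Bool => x.1.1) := by fun_prop
  have hq : PTF (fun x : (Str × Str) × Bool => x.1.2) := by fun_prop
  have hb : PTF (fun x : (Str × Str) × Bool => x.2) := by fun_prop
  have hk : PTF (fun x : (Str × Str) × Bool => kd dT x.1.1) := ptf_kd h hc
  have h1 : PTF (fun x : (Str × Str) × Bool => x.1.2.drop 1) := PTF.drop hq (PTF.const 1)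
  have h2 : PTF (fun x : (Str × Str) × Bool => decide (x.1.2.drop 1 ∈ S)) :=
    (PTF.mem h1 (PTF.const S)).congr fun _ => decide_eq_decide.2 Iff.rfl
  have h3 : PTF (fun x : (Str × Str) × Bool => decide (x.1.2.drop 1 ∈ (dT x.1.1).tail)) :=
    (PTF.mem h1 (h.comp hc).tail).congr fun _ => decide_eq_decide.2 Iff.rfl
  have h4 : PTF (fun x : (Str × Str) × Bool => decide ((x.1.2.drop 1).length < m)) :=
    h1.length.lt (PTF.const m)
  have h5 : PTF (fun x : (Str × Str) × Bool => decide ((x.1.2.drop 1).length < kd dT x.1.1)) :=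
    h1.length.lt hk
  have h7 : PTF (fun x : (Str × Str) × Bool =>
      decide ((x.1.2.drop 1).take (kd dT x.1.1 + 1) =
        List.replicate (kd dT x.1.1) true ++ [false])) :=
    (h1.take hk.succ).eq ((PTF.replicate hk (PTF.const true)).append (PTF.const [false]))
  have h6 : PTF (fun x : (Str × Str) × Bool => decide (x.1.2.headD false = true)) :=
    (PTF.headD hq (PTF.const false)).eq (PTF.const true)
  exact PTF.ite h6 (PTF.ite h4 h2 (PTF.ite h5 h3 (PTF.ite h7 hb (PTF.const false)))) hb

theorem join_a3 (dT : Str → List Str) (m : ℕ) (S : List Str) (C G : World) (c q : Str) :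
    join (wk m S (dT c).tail ((dT c).headD []).length G) C q =
      a3 dT m S ((c, q), join G C (t3 dT (c, q))) := by
  unfold a3 t3
  cases q with
  | nil => rfl
  | cons b w =>
    cases b
    · simp [join]
    · simp only [join, wk, kd, List.headD_cons, if_true, List.drop_succ_cons, List.drop_zero]

end Si3g

open Si3g in
/-- item Si3 -/
theorem prf_Si3 (hSim : StSim) (hUcm : StUcm) : StSi3 := by
  intro eT dT hdT _
  refine ⟨fun m S M => ?_, fun M => ?_, fun m S M => ?_⟩
  · obtain ⟨M1, h1⟩ := hSim M (fun x => x.2) (a1 m S) PTF.snd (ptf_a1 m S)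
    obtain ⟨M2, h2⟩ := hUcm.1 M1 (fun z => pr [] z) (fun x => x.2)
      (pr_ptf (PTF.const []) PTF.id) PTF.snd
    refine ⟨M2, fun C G z => ?_⟩
    rw [h2]
    exact h1 (join G C) (join (pat m S G) C) [] z fun q => join_a1 m S C G [] q
  · obtain ⟨M1, h1⟩ := hSim M t2 (fun x => x.2) ptf_t2 PTF.snd
    exact ⟨M1, fun C G c z => h1 (join G C) (join (shf c.length G) C) c z fun q =>
      join_t2 C G c q⟩
  · obtain ⟨M1, h1⟩ := hSim M (t3 dT) (a3 dT m S) (ptf_t3 hdT) (ptf_a3 hdT m S)
    exact ⟨M1, fun C G c z => h1 (join G C)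
      (join (wk m S (dT c).tail ((dT c).headD []).length G) C) c z fun q =>
        join_a3 dT m S C G c q⟩

end Pool.Agent.GW
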