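import Pool.Agent.Work.MP_46935e_lc.GW.Stmts3

/-!
# Block GW part 3, item Sim: simulation of another oracle
-/

set_option autoImplicit false

noncomputable section

namespace Pool.Agent.GW

open Pool.Agent.RO Pool.Agent.S1 Pool.Agent.PT Pool.Agent.Work.MP_46935e_lc N68a2faeb

namespace Simg

/-- the simulated answers -/
def rp (M : Mach) (a : (Str × Str) × Bool → Bool) (p : Str × Str) (A : Str) : Str :=
  A.foldl (fun s b => s ++ [a ((p.1, M.Q (p.2, s)), b)]) []

theorem rp_append (M : Mach) (a : (Str × Str) × Bool → Bool) (p : Str × Str) (A : Str)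
    (b : Bool) : rp M a p (A ++ [b]) = rp M a p A ++ [a ((p.1, M.Q (p.2, rp M a p A)), b)] := by
  unfold rp
  rw [List.foldl_append]
  rfl

theorem ptf_rp (M : Mach) {a : (Str × Str) × Bool → Bool} (ha : PTF a) :
    PTF (fun r : (Str × Str) × Str => rp M a r.1 r.2) := by
  have hs : PTF (fun t : ((Str × Str) × Str) × (Str × Bool) =>
      t.2.1 ++ [a ((t.1.1.1, M.Q (t.1.1.2, t.2.1)), t.2.2)]) := by
    have h1 : PTF (fun t : ((Str × Str) × Str) × (Str × Bool) =>
        M.Q (t.1.1.2, t.2.1)) := M.hQ.comp (by fun_prop)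
    have h2 : PTF (fun t : ((Str × Str) × Str) × (Str × Bool) =>
        a ((t.1.1.1, M.Q (t.1.1.2, t.2.1)), t.2.2)) := by
      refine ha.comp (PTF.pair (PTF.pair ?_ h1) ?_)
      · fun_prop
      · fun_prop
    exact PTF.append (by fun_prop) (PTF.cons h2 (PTF.const _))
  refine PTF.foldl_add (l := fun r : (Str × Str) × Str => r.2)
    (init := fun _ => ([] : Str)) PTF.snd (PTF.const _) hs (fun _ => 10) (PB.const 10) ?_
  intro r s b _
  have h1 := sz_append s [a ((r.1.1, M.Q (r.1.2, s)), b)]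
  have h2 := sz_cons (a ((r.1.1, M.Q (r.1.2, s)), b)) ([] : Str)
  have h3 := sz_bool (a ((r.1.1, M.Q (r.1.2, s)), b))
  have h4 : sz ([] : Str) = 1 := sz_nil
  show sz (s ++ [a ((r.1.1, M.Q (r.1.2, s)), b)]) ≤ sz s + 10
  omega

end Simg

open Simg in
/-- item Sim -/
theorem prf_Sim : StSim := by
  intro M t a ht ha
  have hrp := ptf_rp M ha
  have hd : PTF (fun r : Str × Str => dec2 r.1) := ptf_dec2 PTF.fst
  obtain ⟨k, hk⟩ := (PTF.snd.comp (ptf_dec2 (PTF.id (α := Str)))).size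
  let M' : Mach := {
    Q := fun r => t ((dec2 r.1).1, M.Q ((dec2 r.1).2, rp M a (dec2 r.1) r.2))
    N := M.N.comp ((Polynomial.X + 2) ^ k)
    out := fun r => M.out ((dec2 r.1).2, rp M a (dec2 r.1)
      (r.2.take (M.N.eval (sz (dec2 r.1).2))))
    hQ := by
      have h1 : PTF (fun r : Str × Str => rp M a (dec2 r.1) r.2) := hrp.comp (hd.pair PTF.snd)
      have h2 : PTF (fun r : Str × Str => M.Q ((dec2 r.1).2, rp M a (dec2 r.1) r.2)) :=
        M.hQ.comp ((PTF.snd.comp hd).pair h1)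
      exact ht.comp ((PTF.fst.comp hd).pair h2)
    hout := by
      have h1 : PTF (fun r : Str × Str => r.2.take (M.N.eval (sz (dec2 r.1).2))) :=
        PTF.snd.take (ptf_eval M.N (ptf_sz (PTF.snd.comp hd)))
      have h2 : PTF (fun r : Str × Str => rp M a (dec2 r.1)
          (r.2.take (M.N.eval (sz (dec2 r.1).2)))) := hrp.comp (hd.pair h1)
      exact M.hout.comp ((PTF.snd.comp hd).pair h2) }
  refine ⟨M', ?_⟩
  intro O O' c z hO
  have hdec : dec2 (pr c z) = (c, z) := dec2_dl _ _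
  have key : ∀ i, rp M a (c, z) (qans M'.Q O (pr c z) i) = qans M.Q O' z i := by
    intro i
    induction i with
    | zero => rfl
    | succ i ih =>
      rw [qans, rp_append, ih, qans]
      congr 2
      show a ((c, M.Q (z, qans M.Q O' z i)), O (t ((dec2 (pr c z)).1,
        M.Q ((dec2 (pr c z)).2, rp M a (dec2 (pr c z)) (qans M'.Q O (pr c z) i))))) = _
      rw [hdec, ih, hO]
  have h1 : M.N.eval (sz z) ≤ M'.N.eval (sz (pr c z)) := by
    show M.N.eval (sz z) ≤ (M.N.comp ((Polynomial.X + 2) ^ k)).eval (sz (pr c z))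
    rw [Polynomial.eval_comp]
    refine Pool.Agent.RO.eval_mono M.N ?_
    have h3 : sz (dec2 (pr c z)).2 ≤ (sz (pr c z) + 2) ^ k := hk (pr c z)
    rw [hdec] at h3
    simpa using h3
  show M.out ((dec2 (pr c z)).2, rp M a (dec2 (pr c z))
      ((qans M'.Q O (pr c z) (M'.N.eval (sz (pr c z)))).take (M.N.eval (sz (dec2 (pr c z)).2)))) =
    M.out (z, qans M.Q O' z (M.N.eval (sz z)))
  rw [hdec]
  show M.out (z, rp M a (c, z)
      ((qans M'.Q O (pr c z) (M'.N.eval (sz (pr c z)))).take (M.N.eval (sz z)))) =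
    M.out (z, qans M.Q O' z (M.N.eval (sz z)))
  rw [(prf_Len _ _ _ _ _).2 _ h1, key]

end Pool.Agent.GW
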