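import Pool.Agent.Work.MP_46935e_lc.GW.Stmts3

/-!
# Block GW, MP_46935e_lc, item Ucm: closure of machines under composition, uniformly in the oracle
(helper79)
-/

set_option autoImplicit false

noncomputable section

namespace Pool.Agent.GW

open Pool.Agent.RO Pool.Agent.S1 Pool.Agent.PT Pool.Agent.Work.MP_46935e_lc N68a2faeb N08b01508

namespace Ucmg

/-- uniform version of `prf_Cmp` -/
theorem cmp_unif (hLen : StLen) (hApp : StApp) {α β γ : Type} [Enc α] [Enc β] [Enc γ]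
    (Q₁ : α × Str → Str) (N₁ : Polynomial ℕ) (out₁ : α × Str → β)
    (Q₂ : (α × β) × Str → Str) (N₂ : Polynomial ℕ) (out₂ : (α × β) × Str → γ)
    (hQ₁ : PTF Q₁) (hout₁ : PTF out₁) (hQ₂ : PTF Q₂) (hout₂ : PTF out₂) :
    ∃ (Q : α × Str → Str) (N : Polynomial ℕ) (out : α × Str → γ), PTF Q ∧ PTF out ∧
      ∀ (O : World) (x : α) (y : β), out₁ (x, qans Q₁ O x (N₁.eval (sz x))) = y →
        out (x, qans Q O x (N.eval (sz x))) =
          out₂ ((x, y), qans Q₂ O (x, y) (N₂.eval (sz (x, y)))) := by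
  obtain ⟨k, hk⟩ := hout₁.size
  obtain ⟨B, hB⟩ : ∃ B : Polynomial ℕ,
      ∀ n, B.eval n = n + (n + (4 * N₁.eval n + 1) + 1 + 2) ^ k + 1 :=
    ⟨Polynomial.X + (Polynomial.X + (4 * N₁ + 1) + 1 + 2) ^ k + 1, fun n => by simp⟩
  refine ⟨Cmpg.qf Q₁ N₁ out₁ Q₂, N₁ + N₂.comp B, Cmpg.ofn N₁ out₁ N₂ out₂,
    Cmpg.ptf_qf N₁ hQ₁ hout₁ hQ₂, Cmpg.ptf_ofn N₁ N₂ hout₁ hout₂, ?_⟩
  intro O x y hf
  have h1 : sz (x, y) ≤ B.eval (sz x) := by
    have h3 := hk (x, qans Q₁ O x (N₁.eval (sz x)))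
    simp only [hf] at h3
    have h4 := sz_bits (qans Q₁ O x (N₁.eval (sz x)))
    rw [(hLen _ _ _ _ _).1] at h4
    have h5 : (sz (x, qans Q₁ O x (N₁.eval (sz x))) + 2) ^ k ≤
        (sz x + (4 * N₁.eval (sz x) + 1) + 1 + 2) ^ k := by
      apply Nat.pow_le_pow_left
      rw [sz_pair]
      omega
    rw [sz_pair, hB]
    omega
  have hM : (N₁ + N₂.comp B).eval (sz x) = N₁.eval (sz x) + N₂.eval (B.eval (sz x)) := by
    rw [Polynomial.eval_add, Polynomial.eval_comp]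
  have hl : (qans Q₁ O x (N₁.eval (sz x))).length = N₁.eval (sz x) := (hLen _ _ _ _ _).1
  have hy : ∀ b : Str, Cmpg.yv out₁ N₁ (x, qans Q₁ O x (N₁.eval (sz x)) ++ b) = y := by
    intro b
    show out₁ (x, (qans Q₁ O x (N₁.eval (sz x)) ++ b).take (N₁.eval (sz x))) = y
    rw [List.take_left' hl, hf]
  have hd : ∀ b : Str, (qans Q₁ O x (N₁.eval (sz x)) ++ b).drop (N₁.eval (sz x)) = b :=
    fun b => List.drop_left' hl
  have hA := hApp α (α × β) Q₁ (Cmpg.qf Q₁ N₁ out₁ Q₂) Q₂ O x (x, y) (N₁.eval (sz x))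
    (fun a ha => if_pos ha) (fun b => by
      have hn : ¬ (qans Q₁ O x (N₁.eval (sz x)) ++ b).length < N₁.eval (sz x) := by
        rw [List.length_append, hl]
        omega
      show (if (qans Q₁ O x (N₁.eval (sz x)) ++ b).length < N₁.eval (sz x) then _ else _) = _
      rw [if_neg hn, hy b, hd b])
  rw [hM, hA]
  show out₂ ((x, Cmpg.yv out₁ N₁ (x, _)), List.take (N₂.eval (sz (x, Cmpg.yv out₁ N₁ (x, _)))) _) = _
  rw [hy, hd, (hLen _ _ _ _ _).2 _ (Pool.Agent.RO.eval_mono N₂ h1)]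

theorem part1 (M : Mach) (s : Str → Str) (o : Str × Str → Str) (hs : PTF s) (ho : PTF o) :
    ∃ M' : Mach, ∀ O z, M'.run O z = o (z, M.run O (s z)) := by
  have hLen := prf_Len
  obtain ⟨k, hk⟩ := hs.size
  have h1 : PTF (fun p : Str × Str => M.N.eval (sz (s p.1))) :=
    ptf_eval M.N (ptf_sz (hs.comp PTF.fst))
  have hQ : PTF (fun p : Str × Str => M.Q (s p.1, p.2)) :=
    M.hQ.comp (PTF.pair (hs.comp PTF.fst) PTF.snd)
  have hout : PTF (fun p : Str × Str =>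
      o (p.1, M.out (s p.1, p.2.take (M.N.eval (sz (s p.1)))))) :=
    ho.comp (PTF.pair PTF.fst (M.hout.comp (PTF.pair (hs.comp PTF.fst) (PTF.take PTF.snd h1))))
  refine ⟨⟨fun p => M.Q (s p.1, p.2), M.N.comp ((Polynomial.X + 2) ^ k),
    fun p => o (p.1, M.out (s p.1, p.2.take (M.N.eval (sz (s p.1))))), hQ, hout⟩, ?_⟩
  intro O z
  have h2 : M.N.eval (sz (s z)) ≤ (M.N.comp ((Polynomial.X + 2) ^ k)).eval (sz z) := by
    rw [Polynomial.eval_comp]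
    refine RO.eval_mono M.N ?_
    have h3 := hk z
    simpa using h3
  unfold Mach.run
  simp only
  rw [Pudg.qans_comp, (hLen Str M.Q O (s z) _).2 _ h2]

theorem part2 (M₁ M₂ : Mach) : ∃ M' : Mach, ∀ O z, M'.run O z = M₂.run O (M₁.run O z) := by
  have hLen := prf_Len
  have h1 : PTF (fun p : (Str × Str) × Str => M₂.N.eval (sz p.1.2)) :=
    ptf_eval M₂.N (ptf_sz (PTF.snd.comp PTF.fst))
  have hQ : PTF (fun p : (Str × Str) × Str => M₂.Q (p.1.2, p.2)) :=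
    M₂.hQ.comp (PTF.pair (PTF.snd.comp PTF.fst) PTF.snd)
  have hout : PTF (fun p : (Str × Str) × Str => M₂.out (p.1.2, p.2.take (M₂.N.eval (sz p.1.2)))) :=
    M₂.hout.comp (PTF.pair (PTF.snd.comp PTF.fst) (PTF.take PTF.snd h1))
  obtain ⟨Q, N, out, hQ', hout', h⟩ := cmp_unif hLen (prf_App hLen) M₁.Q M₁.N M₁.out
    (fun p : (Str × Str) × Str => M₂.Q (p.1.2, p.2)) M₂.N
    (fun p : (Str × Str) × Str => M₂.out (p.1.2, p.2.take (M₂.N.eval (sz p.1.2))))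
    M₁.hQ M₁.hout hQ hout
  refine ⟨⟨Q, N, out, hQ', hout'⟩, fun O z => ?_⟩
  have h2 := h O z (M₁.run O z) rfl
  have h3 : M₂.N.eval (sz (M₁.run O z)) ≤ M₂.N.eval (sz (z, M₁.run O z)) := by
    refine RO.eval_mono M₂.N ?_
    rw [sz_pair]
    omega
  rw [Pudg.qans_comp (α := Str × Str) M₂.Q O Prod.snd (z, M₁.run O z)] at h2
  simp only at h2
  rw [(hLen Str M₂.Q O (M₁.run O z) _).2 _ h3] at h2
  exact h2

end Ucmg

theorem prf_Ucm : StUcm := ⟨fun M s o hs ho => Ucmg.part1 M s o hs ho, Ucmg.part2⟩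

end Pool.Agent.GW
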