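import Pool.Agent.Work.MP_46935e_lc.GW.Stmts3

/-!
# Block GW, MP_46935e_lc, item Ucv: uniform conversion between step functions and machines
-/

set_option autoImplicit false

noncomputable section

namespace Pool.Agent.GW

open Pool.Agent.RO Pool.Agent.S1 Pool.Agent.PT Pool.Agent.Work.MP_46935e_lc N68a2faeb N08b01508

namespace Ucvg

/-- uniformly query computable families -/
def UQ (C : World) {α β : Type} [Enc α] [Enc β] (f : World → α → β) : Prop :=
  ∃ (Q : α × Str → Str) (N : Polynomial ℕ) (out : α × Str → β), PTF Q ∧ PTF out ∧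
    ∀ G x, out (x, qans Q (join G C) x (N.eval (sz x))) = f G x

theorem gen {α β : Type} [N487b59b3 α] [N487b59b3 β] [Enc α] [Enc β] (hLen : StLen)
    (toF : ∀ g : α × Str → Bool × Str, IsPolyTime g → PTF g)
    (ofF : ∀ g : α × Str → Bool × Str, PTF g → IsPolyTime g)
    (hbe : PTF (fun y : β => N487b59b3.bitEncode y)) (dec : Str → β) (hdec : PTF dec)
    (hd : ∀ y : β, dec (N487b59b3.bitEncode y) = y)
    (h1 : ∀ x : α, (N487b59b3.bitEncode x).length ≤ 6 * sz x + 1)
    (h2 : ∀ x : α, sz x ≤ 4 * (N487b59b3.bitEncode x).length + 3)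
    (C : World) (f : World → α → β) : IsPolyTimeAll C f ↔ UQ C f := by
  constructor
  · rintro ⟨g, p, hg, hr⟩
    have hgF := toF g hg
    refine ⟨Cnvg.Qg g, p.comp (Polynomial.C 6 * Polynomial.X + Polynomial.C 1), Cnvg.og dec g,
      Cnvg.ptf_Qg hgF, Cnvg.ptf_og hdec hgF, fun G x => ?_⟩
    have hN : (p.comp (Polynomial.C 6 * Polynomial.X + Polynomial.C 1)).eval (sz x) =
        p.eval (6 * sz x + 1) := by simp
    rw [hN]
    set n := p.eval (6 * sz x + 1) with hn
    have ht : p.eval (N487b59b3.bitEncode x).length ≤ n := RO.eval_mono p (h1 x)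
    obtain ⟨i, hi, h3, h4, h5⟩ := Cnvg.halts g (join G C) x _ _ 0 (hr G x)
      (fun j hj => by omega)
    have hin : i ≤ n := by omega
    have htk : ∀ j, j ≤ n → (qans (Cnvg.Qg g) (join G C) x n).take j =
        qans (Cnvg.Qg g) (join G C) x j := (hLen α (Cnvg.Qg g) (join G C) x n).2
    have hlen := (hLen α (Cnvg.Qg g) (join G C) x n).1
    have hix : Cnvg.ix g (x, qans (Cnvg.Qg g) (join G C) x n) = i := by
      unfold Cnvg.ix
      have h6 : (List.range ((qans (Cnvg.Qg g) (join G C) x n).length + 1)).find?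
          (fun j => (g (x, (qans (Cnvg.Qg g) (join G C) x n).take j)).1) = some i := by
        rw [hlen, List.find?_range_eq_some]
        refine ⟨?_, List.mem_range.2 (by omega), fun j hj => ?_⟩
        · rw [htk i hin]; exact h3
        · rw [htk j (by omega), h5 j hj]; rfl
      show (Option.getD _ 0) = i
      rw [h6]
      rfl
    unfold Cnvg.og
    rw [hix]
    show dec (g (x, (qans (Cnvg.Qg g) (join G C) x n).take i)).2 = f G x
    rw [htk i hin, h4, hd]
  · rintro ⟨Q, N, out, hQ, hout, ho⟩
    refine ⟨Cnvg.gg (fun y => N487b59b3.bitEncode y) Q N out,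
      N.comp (Polynomial.C 4 * Polynomial.X + Polynomial.C 3) + Polynomial.C 1,
      ofF _ (Cnvg.ptf_gg hbe hQ N hout), fun G x => ?_⟩
    have hN : (N.comp (Polynomial.C 4 * Polynomial.X + Polynomial.C 3) + Polynomial.C 1).eval
        (N487b59b3.bitEncode x).length = N.eval (4 * (N487b59b3.bitEncode x).length + 3) + 1 := by
      simp
    rw [hN]
    have h3 := Cnvg.run_gg hLen (fun y : β => N487b59b3.bitEncode y) Q N out (join G C) x
      (N.eval (sz x)) 0 (by omega)
    refine orun_mono _ (join G C) x _ (N.eval (sz x) + 1) [] _ ?_ ?_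
    · have := RO.eval_mono N (h2 x)
      omega
    · rw [← ho G x]
      exact h3

variable {α β γ : Type} [Enc α] [Enc β] [Enc γ]

theorem post {C : World} {f : World → α → β} (hf : UQ C f) {h : β → γ} (hh : PTF h) :
    UQ C (fun G x => h (f G x)) := by
  obtain ⟨Q, N, out, hQ, hout, hx⟩ := hf
  exact ⟨Q, N, fun p => h (out p), hQ, hh.comp hout, fun G x => congrArg h (hx G x)⟩

theorem pre (hLen : StLen) {C : World} {f : World → β → γ} (hf : UQ C f) {g : α → β}
    (hg : PTF g) : UQ C (fun G x => f G (g x)) := by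
  obtain ⟨Q, N, out, hQ, hout, hx⟩ := hf
  obtain ⟨k, hk⟩ := hg.size
  refine ⟨fun p => Q (g p.1, p.2), N.comp ((Polynomial.X + 2) ^ k),
    fun p => out (g p.1, p.2.take (N.eval (sz (g p.1)))), ?_, ?_, fun G x => ?_⟩
  · exact hQ.comp (PTF.pair (hg.comp PTF.fst) PTF.snd)
  · exact hout.comp (PTF.pair (hg.comp PTF.fst)
      (PTF.take PTF.snd (ptf_eval N (ptf_sz (hg.comp PTF.fst)))))
  · have h1 : N.eval (sz (g x)) ≤ (N.comp ((Polynomial.X + 2) ^ k)).eval (sz x) := by
      rw [Polynomial.eval_comp]
      refine Pool.Agent.RO.eval_mono N ?_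
      simpa using hk x
    show out (g x, (qans (fun p : α × Str => Q (g p.1, p.2)) (join G C) x
      ((N.comp ((Polynomial.X + 2) ^ k)).eval (sz x))).take (N.eval (sz (g x)))) = f G (g x)
    rw [(hLen α _ (join G C) x _).2 _ h1, Mchg.qans_comp]
    exact hx G (g x)

theorem toM {C : World} {f : World → Str → Str} (h : UQ C f) :
    ∃ M : Mach, ∀ G z, M.run (join G C) z = f G z := by
  obtain ⟨Q, N, out, hQ, hout, hx⟩ := h
  exact ⟨⟨Q, N, out, hQ, hout⟩, hx⟩

theorem ofM (C : World) (M : Mach) : UQ C (fun G z => M.run (join G C) z) :=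
  ⟨M.Q, M.N, M.out, M.hQ, M.hout, fun _ _ => rfl⟩

theorem main (hLen : StLen) : StUcv := by
  intro C
  have hS1 : ∀ x : Str, (N487b59b3.bitEncode x).length ≤ 6 * sz x + 1 := fun x => by
    rw [length_bitEncode_list]
    have := length_le_sz x
    omega
  have hS2 : ∀ x : Str, sz x ≤ 4 * (N487b59b3.bitEncode x).length + 3 := fun x => by
    rw [length_bitEncode_list]
    have := sz_bits x
    omega
  have hP1 : ∀ x : Str × Str, (N487b59b3.bitEncode x).length ≤ 6 * sz x + 1 := fun x => by
    obtain ⟨z, w⟩ := x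
    rw [length_bitEncode_pair, sz_pair]
    have := length_le_sz z
    have := length_le_sz w
    omega
  have hP2 : ∀ x : Str × Str, sz x ≤ 4 * (N487b59b3.bitEncode x).length + 3 := fun x => by
    obtain ⟨z, w⟩ := x
    rw [length_bitEncode_pair, sz_pair]
    have := sz_bits z
    have := sz_bits w
    omega
  have hbS : PTF (fun y : Str => N487b59b3.bitEncode y) :=
    (ptf_encB PTF.id).congr (fun y => (bitEncode_list y).symm)
  have hdS : ∀ y : Str, unB (N487b59b3.bitEncode y) = y := fun y => by
    rw [bitEncode_list, unB_encB]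
  have hbB : PTF (fun y : Bool => N487b59b3.bitEncode y) :=
    (PTF.id.cons (PTF.const [])).congr (fun y => (bitEncode_bool y).symm)
  refine ⟨fun f => ?_, fun V => ?_, fun h => ?_⟩
  · rw [gen hLen (fun g hg => ptf_of_P hg) (fun g hg => of_ptf_P hg) hbS unB
      (ptf_unB PTF.id) hdS hS1 hS2 C f]
    refine ⟨toM, ?_⟩
    rintro ⟨M, hM⟩
    have h1 : (fun G z => M.run (join G C) z) = f := by
      funext G z
      exact hM G z
    rw [← h1]
    exact ofM C M
  · rw [gen hLen (fun g hg => ptf_of_T hg) (fun g hg => of_ptf_T hg) hbB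
      (fun l => l.headD false) (PTF.id.headD (PTF.const false)) (fun y => rfl) hP1 hP2 C V]
    constructor
    · intro hV
      have h1 : UQ C (fun (G : World) (z : Str) => [V G (dec2 z)]) :=
        post (h := fun b : Bool => [b]) (pre hLen hV (ptf_dec2 PTF.id))
          (PTF.cons PTF.id (PTF.const []))
      obtain ⟨M, hM⟩ := toM h1
      refine ⟨M, fun G x w => ?_⟩
      rw [hM]
      unfold pr
      rw [dec2_dl]
    · rintro ⟨M, hM⟩
      have h2 : UQ C (fun (G : World) (p : Str × Str) =>
          (M.run (join G C) (pr p.1 p.2)).headD false) :=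
        post (h := fun l : Str => l.headD false)
          (pre hLen (ofM C M) Mchg.ptf_pr) (PTF.id.headD (PTF.const false))
      have h1 : (fun (G : World) (p : Str × Str) =>
          (M.run (join G C) (pr p.1 p.2)).headD false) = V := by
        funext G p
        obtain ⟨x, w⟩ := p
        show (M.run (join G C) (pr x w)).headD false = V G (x, w)
        rw [hM]
        rfl
      rw [← h1]
      exact h2
  · rw [gen hLen (fun g hg => ptf_of_T hg) (fun g hg => of_ptf_T hg) hbS unB
      (ptf_unB PTF.id) hdS hP1 hP2 C h]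
    constructor
    · intro hh
      have h1 : UQ C (fun (G : World) (z : Str) => h G (dec2 z)) :=
        pre hLen hh (ptf_dec2 PTF.id)
      obtain ⟨M, hM⟩ := toM h1
      refine ⟨M, fun G x w => ?_⟩
      rw [hM]
      unfold pr
      rw [dec2_dl]
    · rintro ⟨M, hM⟩
      have h2 : UQ C (fun (G : World) (p : Str × Str) => M.run (join G C) (pr p.1 p.2)) :=
        pre hLen (ofM C M) Mchg.ptf_pr
      have h1 : (fun (G : World) (p : Str × Str) => M.run (join G C) (pr p.1 p.2)) = h := by
        funext G p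
        obtain ⟨x, w⟩ := p
        exact hM G x w
      rw [← h1]
      exact h2

end Ucvg

/-- **item Ucv** -/
theorem prf_Ucv : StUcv := Ucvg.main prf_Len

end Pool.Agent.GW
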