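import Pool.Agent.Work.MP_46935e_lc.GW.Stmts2

set_option autoImplicit false

noncomputable section

namespace Pool.Agent.GW

open Pool.Agent.RO Pool.Agent.S1 Pool.Agent.PT Pool.Agent.Work.MP_46935e_lc N68a2faeb N08b01508
open Topology

namespace Worg

theorem idx_cpos (i : ℕ) (x a : Str) : (cpos i x a).idxOf false = i := by
  unfold cpos
  rw [List.idxOf_append_of_notMem (by simp)]
  simp

theorem pw_cpos (i : ℕ) (x a : Str) : pw (true :: cpos i x a) = a := by
  unfold pw
  have h1 : (true :: cpos i x a).idxOf false = i + 1 := by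
    rw [List.idxOf_cons_ne _ (by simp), idx_cpos]
  rw [h1]
  have h2 : (true :: cpos i x a).drop (i + 1 + 1) = pr x a := by
    unfold cpos
    rw [List.drop_succ_cons]
    have : (List.replicate i true ++ false :: pr x a).drop (i + 1) = pr x a := by
      rw [List.drop_append]
      simp
    exact this
  rw [h2]
  unfold pr
  rw [dec2_dl]

theorem cpos_inj {i j : ℕ} {x a b : Str} (h : cpos i x a = cpos j x b) : i = j ∧ a = b := by
  constructor
  · rw [← idx_cpos i x a, h, idx_cpos]
  · rw [← pw_cpos i x a, h, pw_cpos]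

theorem val_eq (G : World) (m : ℕ) (x : Str) (c c' : Bool) (L L' : List Str) (q : Str)
    (h : ∀ t ∈ tch x (true :: q), t ∈ L) : aw G m x c (L ++ L') q = aw G m x c' L q := by
  classical
  unfold aw
  by_cases hm : q.length < m
  · rw [if_pos hm, if_pos hm]
  · rw [if_neg hm, if_neg hm]
    refine decide_eq_decide.2 ?_
    have h1 : ∀ i a, q = cpos i x a → a.take (x.length + 1) ∈ L ∧ a.drop (x.length + 1) ∈ L := by
      rintro i a rfl
      unfold tch at h
      rw [pw_cpos] at h
      exact ⟨h _ (by simp), h _ (by simp)⟩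
    have h2 : ∀ i a, a.length = x.length + 1 → q = cpos i x a → (L ++ L').idxOf a = L.idxOf a := by
      intro i a ha hq
      have h3 := (h1 i a hq).1
      rw [List.take_of_length_le (by omega)] at h3
      exact List.idxOf_append_of_mem h3
    constructor
    · rintro (⟨i, a, ha, hi, hq, ht⟩ | ⟨_, w, hq, hw⟩)
      · exact Or.inl ⟨i, a, ha, hi, hq, by rw [← h2 i a ha hq]; exact ht⟩
      · exact absurd ⟨List.mem_append_left _ (h1 _ w hq).1, List.mem_append_left _ (h1 _ w hq).2⟩ hw
    · rintro (⟨i, a, ha, hi, hq, ht⟩ | ⟨_, w, hq, hw⟩)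
      · exact Or.inl ⟨i, a, ha, hi, hq, by rw [h2 i a ha hq]; exact ht⟩
      · exact absurd (h1 _ w hq) hw

theorem join_eq (G C : World) (m : ℕ) (x : Str) (c c' : Bool) (L L' : List Str) (q : Str)
    (h : ∀ t ∈ tch x q, t ∈ L) :
    join (aw G m x c (L ++ L')) C q = join (aw G m x c' L) C q := by
  match q with
  | [] => rfl
  | false :: z => rfl
  | true :: q => exact val_eq G m x c c' L L' q h

theorem len_cpos (i : ℕ) (x a : Str) : x.length < (cpos i x a).length := by
  unfold cpos pr
  rw [List.length_append, List.length_replicate, List.length_cons, List.length_append, dl,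
    N487b59b3.length_delimit]
  omega

theorem bit (G : World) (m : ℕ) (x : Str) (c : Bool) (L : List Str) (hm : m ≤ x.length) (i : ℕ)
    (a : Str) (ha : a.length = x.length + 1) (hi : i < x.length) :
    aw G m x c L (cpos i x a) = (L.idxOf a).testBit i := by
  classical
  unfold aw
  have hl := len_cpos i x a
  rw [if_neg (by omega)]
  rw [Bool.decide_or]
  have h1 : ¬ (c = true ∧ ∃ w, cpos i x a = cpos x.length x w ∧
      ¬ (w.take (x.length + 1) ∈ L ∧ w.drop (x.length + 1) ∈ L)) := by
    rintro ⟨_, w, hw, _⟩
    have := (cpos_inj hw).1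
    omega
  rw [decide_eq_false h1, Bool.or_false]
  by_cases hb : (L.idxOf a).testBit i = true
  · rw [hb]
    exact decide_eq_true ⟨i, a, ha, hi, rfl, hb⟩
  · rw [Bool.not_eq_true] at hb
    rw [hb]
    refine decide_eq_false ?_
    rintro ⟨j, b, _, _, hq, ht⟩
    obtain ⟨rfl, rfl⟩ := cpos_inj hq
    rw [hb] at ht
    exact Bool.noConfusion ht

theorem col (G : World) (m : ℕ) (x : Str) (c : Bool) (L : List Str) (hm : m ≤ x.length)
    (w : Str) (hw : ¬ (w.take (x.length + 1) ∈ L ∧ w.drop (x.length + 1) ∈ L)) :
    aw G m x c L (cpos x.length x w) = c := by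
  classical
  unfold aw
  have hl := len_cpos x.length x w
  rw [if_neg (by omega)]
  cases c with
  | true => exact decide_eq_true (Or.inr ⟨rfl, w, rfl, hw⟩)
  | false =>
    refine decide_eq_false ?_
    rintro (⟨i, a, _, hi, hq, _⟩ | ⟨h, _⟩)
    · have := (cpos_inj hq).1
      omega
    · exact Bool.noConfusion h

end Worg

open Worg in
theorem prf_Wor : StWor := by
  intro G C m x
  refine ⟨fun c L L' q h => join_eq G C m x c c L L' q h, fun c c' L q h => ?_,
    fun c L hm hL w hw => ?_⟩
  · have := join_eq G C m x c' c L [] q h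
    rwa [List.append_nil] at this
  · refine col G m x c L hm w ?_
    rintro ⟨h1, h2⟩
    obtain ⟨hlen, hne, hh⟩ := hw
    apply hne
    set a := w.take (x.length + 1) with ha
    set b := w.drop (x.length + 1) with hb
    have la : a.length = x.length + 1 := by rw [ha, List.length_take]; omega
    have lb : b.length = x.length + 1 := by rw [hb, List.length_drop]; omega
    have h3 : L.idxOf a = L.idxOf b := by
      have ia := List.idxOf_lt_length_of_mem h1
      have ib := List.idxOf_lt_length_of_mem h2
      refine Nat.eq_of_testBit_eq fun i => ?_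
      by_cases hi : i < x.length
      · have h4 : (hol (aw G m x c L) x a)[i]? = (hol (aw G m x c L) x b)[i]? := by rw [hh]
        unfold hol at h4
        rw [List.getElem?_map, List.getElem?_map, List.getElem?_range hi] at h4
        simp only [Option.map_some, Option.some.injEq] at h4
        rwa [bit G m x c L hm i a la hi, bit G m x c L hm i b lb hi] at h4
      · rw [Nat.testBit_lt_two_pow (lt_of_lt_of_le (lt_trans ia hL) (Nat.pow_le_pow_right (by norm_num) (not_lt.1 hi))),
          Nat.testBit_lt_two_pow (lt_of_lt_of_le (lt_trans ib hL) (Nat.pow_le_pow_right (by norm_num) (not_lt.1 hi)))]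
    have h5 := List.getElem_idxOf (List.idxOf_lt_length_of_mem h1)
    have h6 := List.getElem_idxOf (List.idxOf_lt_length_of_mem h2)
    rw [← h5, ← h6]
    simp only [h3]

end Pool.Agent.GW
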