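import Pool.Agent.Work.MP_46935e_lc.GW.Stmts2

/-!
# Block GW, item NV: a world relative to which generic oracles have complete problems

Written by helper62.  The world `C` is defined by recursion on the length: at the position `cz z` of an
instance `z = pr κ (pr x t)` it says whether for ALL worlds `G` the machine coded by `κ` accepts some
`w`, `|w| ≤ |t|`, on the input `x` relative to `join G C`.
-/

set_option autoImplicit false

noncomputable section

namespace Pool.Agent.GW

open Pool.Agent.RO Pool.Agent.S1 Pool.Agent.PT Pool.Agent.Work.MP_46935e_lc N68a2faeb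
open Topology

namespace NVg

open Unig

/-! ### The universal machine -/

/-- The universal function is computed by one machine relative to all oracles. -/
theorem exists_UM : ∃ U : Mach, ∀ (O : World) (s : Str), U.run O s = UE O (dec2 s) := by
  obtain ⟨B, hB⟩ := Revg.exists_bd (φ := fun s : Str => (dec2 s).1) (ptf_dec2 PTF.id).fst'
  have h1 : PTF (fun p : Str × Str => (dec2 p.1, p.2)) := (ptf_dec2 PTF.fst).pair PTF.snd
  refine ⟨⟨fun p => QU (dec2 p.1, p.2), B, fun p => OU (dec2 p.1, p.2), ptf_QU.comp h1,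
    ptf_OU.comp h1⟩, fun O s => ?_⟩
  show OU (dec2 s, qans (fun p : Str × Str => QU (dec2 p.1, p.2)) O s (B.eval (sz s))) = _
  rw [Revg.qans_pre QU dec2 O s]
  have h2 : nn (dec2 s).1 ≤ B.eval (sz s) := (min_le_right _ _).trans (hB s)
  generalize dec2 s = d at h2 ⊢
  obtain ⟨κ, z⟩ := d
  show univ (c2 κ) (tt κ) (ser (z, (qans QU O (κ, z) (B.eval (sz s))).take (nn κ))) = UE O (κ, z)
  rw [Revg.qans_take QU O (κ, z) _ _ h2, qans_QU]
  rfl

/-- Every machine is simulated (the second part of `prf_Uni`). -/
theorem sim (hLen : StLen) (M : Mach) : ∃ κ : ℕ → Str, PTF κ ∧ ∃ P : Polynomial ℕ,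
    ∀ (O : World) (z : Str) (n : ℕ), P.eval z.length ≤ n → UE O (κ n, z) = M.run O z := by
  have hF2 : PTF (fun p : Str × Str => M.out (p.1, p.2.take (M.N.eval (sz p.1)))) := by
    refine M.hout.comp (PTF.pair PTF.fst (PTF.take PTF.snd (ptf_eval _ ?_)))
    exact ptf_sz PTF.fst
  obtain ⟨t1, k1, ht1⟩ := compile2 M.hQ
  obtain ⟨t2, k2, ht2⟩ := compile2 hF2
  refine ⟨fun n => ser ((t1, t2), (n, (9 * n + 9) ^ (k1 + k2))), ?_,
    M.N.comp (4 * Polynomial.X + 1) + Polynomial.X, fun O z n hn => ?_⟩
  · have h1 : PTF (fun n : ℕ => (9 * n + 9) ^ (k1 + k2)) :=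
      PTF.pow_const (by fun_prop) _
    exact ptf_ser' (PTF.pair (PTF.const _) (PTF.pair PTF.id h1))
  · rw [Polynomial.eval_add, Polynomial.eval_comp, Polynomial.eval_X, Polynomial.eval_add,
      Polynomial.eval_mul, Polynomial.eval_ofNat, Polynomial.eval_X, Polynomial.eval_one] at hn
    have hz : sz z ≤ 4 * z.length + 1 := sz_bits z
    have hN : M.N.eval (sz z) ≤ n := by
      have h1 := Pool.Agent.RO.eval_mono M.N hz
      omega
    have hzn : z.length ≤ n := by omega
    set κ : Str := ser ((t1, t2), (n, (9 * n + 9) ^ (k1 + k2))) with hκ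
    have hp : parse κ = Enc.enc ((t1, t2), (n, (9 * n + 9) ^ (k1 + k2))) := parse_ser _
    have hc1 : c1 κ = t1 := by
      unfold c1
      rw [hp, enc_pair, D.hd_cons, enc_pair, D.hd_cons, dLN_enc]
    have hc2 : c2 κ = t2 := by
      unfold c2
      rw [hp, enc_pair, D.hd_cons, enc_pair, D.tl_cons, dLN_enc]
    have htt : tt κ = (9 * n + 9) ^ (k1 + k2) := by
      unfold tt
      rw [hp, enc_pair, D.tl_cons, enc_pair, D.tl_cons, dN_enc]
    have hnn : nn κ = n := by
      unfold nn
      rw [hp, enc_pair, D.tl_cons, enc_pair, D.hd_cons, dN_enc]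
      refine min_eq_left ?_
      have h1 : κ.length ≤ sz κ := length_le_sz κ
      have h2 : κ.length = sz ((t1, t2), (n, (9 * n + 9) ^ (k1 + k2))) := length_ser _
      have h3 : sz ((t1, t2), (n, (9 * n + 9) ^ (k1 + k2))) =
        sz (t1, t2) + sz (n, (9 * n + 9) ^ (k1 + k2)) + 1 := sz_pair _ _
      have h4 : sz (n, (9 * n + 9) ^ (k1 + k2)) = sz n + sz ((9 * n + 9) ^ (k1 + k2)) + 1 :=
        sz_pair _ _
      have h5 : sz n = 2 * n + 1 := sz_nat n
      omega
    have htime : ∀ (a : Str) (k : ℕ), a.length ≤ n → k ≤ k1 + k2 →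
        (sz z + sz a + 3) ^ k ≤ (9 * n + 9) ^ (k1 + k2) := by
      intro a k ha hk
      have h1 : sz a ≤ 4 * a.length + 1 := sz_bits a
      have h2 : sz z + sz a + 3 ≤ 9 * n + 9 := by omega
      exact (Nat.pow_le_pow_left h2 k).trans (Nat.pow_le_pow_right (by omega) hk)
    have hlen : ∀ i, (qans M.Q O z i).length = i := fun i => (hLen Str M.Q O z i).1
    have hq : ∀ i ≤ n, qans (qf κ) O z i = qans M.Q O z i := by
      refine Unig.qans_congr O z n fun i hi => ?_
      unfold qf
      rw [hc1, htt]
      exact ht1 z _ _ (htime _ k1 (by rw [hlen]; omega) (by omega))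
    show univ (c2 κ) (tt κ) (ser (z, qans (qf κ) O z (nn κ))) = M.run O z
    rw [hc2, htt, hnn, hq n le_rfl,
      ht2 z _ _ (htime _ k2 (by rw [hlen]) (by omega)), (hLen Str M.Q O z n).2 _ hN]
    rfl

/-! ### Wiring a finite piece of the oracle into a machine -/

/-- The world which is given by the list `S` below `m` and by `G` from `m` on. -/
def pt (m : ℕ) (S : List Str) (G : World) : World :=
  fun q => if q.length < m then decide (q ∈ S) else G q

/-- Correction of an answer. -/
def an (m : ℕ) (S : List Str) (q : Str) (b : Bool) : Bool :=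
  if q.headD false = true then (if (q.drop 1).length < m then decide (q.drop 1 ∈ S) else b) else b

theorem an_spec (m : ℕ) (S : List Str) (G C : World) (q : Str) :
    an m S q (join G C q) = join (pt m S G) C q := by
  rcases q with _ | ⟨a, q⟩
  · rfl
  · cases a
    · rfl
    · rfl

/-- The corrected answers. -/
def rp (m : ℕ) (S : List Str) (Q : Str × Str → Str) (p : Str × Str) : Str :=
  p.2.foldl (fun s b => s ++ [an m S (Q (p.1, s)) b]) []

theorem ptf_rp (m : ℕ) (S : List Str) {Q : Str × Str → Str} (hQ : PTF Q) : PTF (rp m S Q) := by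
  have hstep : PTF (fun r : (Str × Str) × (Str × Bool) =>
      r.2.1 ++ [an m S (Q (r.1.1, r.2.1)) r.2.2]) := by
    have h1 : PTF (fun r : (Str × Str) × (Str × Bool) => Q (r.1.1, r.2.1)) :=
      hQ.comp (by fun_prop)
    have h2 : PTF (fun r : (Str × Str) × (Str × Bool) => an m S (Q (r.1.1, r.2.1)) r.2.2) := by
      unfold an
      have h3 : PTF (fun r : (Str × Str) × (Str × Bool) =>
          decide ((Q (r.1.1, r.2.1)).drop 1 ∈ S)) := by
        have h5 : PTF (fun r : (Str × Str) × (Str × Bool) => (Q (r.1.1, r.2.1)).drop 1) := by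
          fun_prop
        exact (PTF.mem h5 (PTF.const S)).congr (fun r => decide_eq_decide.2 Iff.rfl)
      refine PTF.ite (by fun_prop) (PTF.ite ?_ h3 (by fun_prop)) (by fun_prop)
      have h4 : PTF (fun r : (Str × Str) × (Str × Bool) => ((Q (r.1.1, r.2.1)).drop 1).length) := by
        fun_prop
      exact h4.lt (PTF.const m)
    fun_prop
  have h := PTF.foldl_add (l := fun p : Str × Str => p.2) (init := fun _ : Str × Str => ([] : Str))
    (step := fun r : (Str × Str) × (Str × Bool) => r.2.1 ++ [an m S (Q (r.1.1, r.2.1)) r.2.2])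
    PTF.snd (PTF.const _) hstep (fun _ => 20) (PB.const _) (fun a s b _ => by
      have h1 := sz_append s [an m S (Q (a.1, s)) b]
      rw [sz_cons, sz_nil] at h1
      have h2 := sz_bool (an m S (Q (a.1, s)) b)
      show sz (s ++ [an m S (Q (a.1, s)) b]) ≤ sz s + 20
      omega)
  exact h

/-- The machine with the finite piece wired in. -/
theorem wire (m : ℕ) (S : List Str) (M : Mach) : ∃ M' : Mach, ∀ (C G : World) (z : Str),
    M'.run (join G C) z = M.run (join (pt m S G) C) z := by
  have h0 : PTF (fun p : Str × Str => (p.1, rp m S M.Q p)) := PTF.fst.pair (ptf_rp m S M.hQ)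
  refine ⟨⟨fun p => M.Q (p.1, rp m S M.Q p), M.N, fun p => M.out (p.1, rp m S M.Q p),
    M.hQ.comp h0, M.hout.comp h0⟩, fun C G z => ?_⟩
  have h1 : ∀ n, rp m S M.Q (z, qans (fun p => M.Q (p.1, rp m S M.Q p)) (join G C) z n) =
      qans M.Q (join (pt m S G) C) z n := by
    intro n
    induction n with
    | zero => rfl
    | succ n ih =>
      have h2 : ∀ (a : Str) (b : Bool), rp m S M.Q (z, a ++ [b]) =
          rp m S M.Q (z, a) ++ [an m S (M.Q (z, rp m S M.Q (z, a))) b] := by
        intro a b
        unfold rp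
        rw [List.foldl_append]
        rfl
      rw [qans, h2, ih, an_spec]
      rfl
  show M.out (z, rp m S M.Q (z, qans (fun p => M.Q (p.1, rp m S M.Q p)) (join G C) z
    (M.N.eval (sz z)))) = _
  rw [h1]
  rfl

/-! ### Recursion on the length -/

theorem fixC (F : World → World)
    (hF : ∀ (C C' : World) (q : Str), (∀ q' : Str, q'.length < q.length → C q' = C' q') →
      F C q = F C' q) : ∃ C : World, ∀ q, C q = F C q := by
  classical
  let C : World := (measure (List.length : Str → ℕ)).wf.fix
    (fun q rec => F (fun q' => if h : q'.length < q.length then rec q' h else false) q)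
  refine ⟨C, fun q => ?_⟩
  have h1 : C q = F (fun q' => if h : q'.length < q.length then C q' else false) q := by
    show (measure (List.length : Str → ℕ)).wf.fix _ q = _
    rw [WellFounded.fix_eq]
  rw [h1]
  refine hF _ _ _ fun q' hq' => ?_
  exact dif_pos hq'

theorem rep_inj : ∀ (a b : ℕ) (z z' : Str),
    List.replicate a true ++ false :: z = List.replicate b true ++ false :: z' → z = z' := by
  intro a
  induction a with
  | zero =>
    intro b z z' h
    cases b with
    | zero => simpa using h
    | succ b => simp [List.replicate_succ] at h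
  | succ a ih =>
    intro b z z' h
    cases b with
    | zero => simp [List.replicate_succ] at h
    | succ b =>
      rw [List.replicate_succ, List.replicate_succ, List.cons_append, List.cons_append] at h
      exact ih b z z' (List.cons.inj h).2

/-! ### The world and the complete problem -/

/-- code of the machine -/
def ka (z : Str) : Str := (dec2 z).1
/-- input -/
def xx (z : Str) : Str := (dec2 (dec2 z).2).1
/-- bound -/
def bd (z : Str) : Str := (dec2 (dec2 z).2).2

theorem ptf_ka : PTF ka := (ptf_dec2 PTF.id).fst'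
theorem ptf_xx : PTF xx := (ptf_dec2 (ptf_dec2 PTF.id).snd').fst'
theorem ptf_bd : PTF bd := (ptf_dec2 (ptf_dec2 PTF.id).snd').snd'

/-- `w` is accepted. -/
def Ver (U : Mach) (O : World) (z w : Str) : Prop :=
  w.length ≤ (bd z).length ∧ U.run O (pr (ka z) (pr (xx z) w)) = [true]

/-- position of the instance `z` -/
def cz (P : Polynomial ℕ) (z : Str) : Str := List.replicate (P.eval z.length) true ++ false :: z

theorem ptf_cz (P : Polynomial ℕ) : PTF (cz P) := by
  unfold cz
  have h1 : PTF (fun z : Str => P.eval z.length) := ptf_eval P (by fun_prop)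
  fun_prop

theorem length_cz (P : Polynomial ℕ) (z : Str) : (cz P z).length = P.eval z.length + (z.length + 1) := by
  unfold cz
  rw [List.length_append, List.length_replicate, List.length_cons]

theorem exists_P (hBnd : StBnd) (U : Mach) : ∃ P : Polynomial ℕ, ∀ (O : World) (z w : Str),
    w.length ≤ (bd z).length → ∀ q ∈ U.qs O (pr (ka z) (pr (xx z) w)), q.length ≤ P.eval z.length := by
  obtain ⟨P₀, hP₀⟩ := hBnd U
  obtain ⟨B, hB⟩ := Revg.exists_bd (φ := fun z : Str => pr (ka z) (pr (xx z) (bd z)))
    (Pudg.ptf_prr ptf_ka (Pudg.ptf_prr ptf_xx ptf_bd))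
  refine ⟨P₀.comp (B.comp (4 * Polynomial.X + 1)), fun O z w hw q hq => ?_⟩
  refine ((hP₀ O _).2.2 q hq).trans ?_
  rw [Polynomial.eval_comp]
  refine Pool.Agent.RO.eval_mono P₀ ?_
  rw [Polynomial.eval_comp]
  have h1 : (pr (ka z) (pr (xx z) w)).length ≤ (pr (ka z) (pr (xx z) (bd z))).length := by
    rw [Pudg.length_pr, Pudg.length_pr, Pudg.length_pr, Pudg.length_pr]
    omega
  refine h1.trans ((length_le_sz _).trans ((hB z).trans (Pool.Agent.RO.eval_mono B ?_)))
  have := sz_bits z
  simpa using this

open Classical in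
/-- The step of the recursion. -/
def FF (U : Mach) (P : Polynomial ℕ) (C : World) : World := fun q =>
  decide (∃ z, q = cz P z ∧ ∀ G : World, ∃ w, Ver U (join G C) z w)

theorem ver_congr (hLoc : StLoc) (U : Mach) (P : Polynomial ℕ)
    (hP : ∀ (O : World) (z w : Str), w.length ≤ (bd z).length →
      ∀ q ∈ U.qs O (pr (ka z) (pr (xx z) w)), q.length ≤ P.eval z.length)
    (C C' G : World) (z w : Str) (h : ∀ q' : Str, q'.length < (cz P z).length → C q' = C' q')
    (hv : Ver U (join G C) z w) : Ver U (join G C') z w := by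
  refine ⟨hv.1, ?_⟩
  rw [(hLoc U (join G C) (join G C') _ ?_).1]
  · exact hv.2
  · intro q hq
    have h1 := hP _ z w hv.1 q hq
    rcases q with _ | ⟨a, q⟩
    · rfl
    · cases a
      · show C' q = C q
        refine (h q ?_).symm
        rw [length_cz]
        rw [List.length_cons] at h1
        omega
      · rfl

theorem FF_congr (hLoc : StLoc) (U : Mach) (P : Polynomial ℕ)
    (hP : ∀ (O : World) (z w : Str), w.length ≤ (bd z).length →
      ∀ q ∈ U.qs O (pr (ka z) (pr (xx z) w)), q.length ≤ P.eval z.length)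
    (C C' : World) (q : Str) (h : ∀ q' : Str, q'.length < q.length → C q' = C' q') :
    FF U P C q = FF U P C' q := by
  unfold FF
  rw [decide_eq_decide]
  constructor
  · rintro ⟨z, rfl, hz⟩
    refine ⟨z, rfl, fun G => ?_⟩
    obtain ⟨w, hw⟩ := hz G
    exact ⟨w, ver_congr hLoc U P hP C C' G z w h hw⟩
  · rintro ⟨z, rfl, hz⟩
    refine ⟨z, rfl, fun G => ?_⟩
    obtain ⟨w, hw⟩ := hz G
    exact ⟨w, ver_congr hLoc U P hP C' C G z w (fun q' hq' => (h q' hq').symm) hw⟩

/-- The complete problem. -/
def UU (U : Mach) (P : Polynomial ℕ) (O : World) (p : Str × Str) : Bool :=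
  if O (false :: cz P p.1) = true then
    decide (p.2.length ≤ (bd p.1).length) && decide (U.run O (pr (ka p.1) (pr (xx p.1) p.2)) = [true])
  else p.2.isEmpty

theorem qc_UU (hEas : StEas) (hCmp : StCmp) (hMch : StMch) (U : Mach) (P : Polynomial ℕ) (O : World) :
    QC O (UU U P O) := by
  have h1 : QC O (fun p : Str × Str => O (false :: cz P p.1)) := by
    refine (hEas (Str × Str) Bool O).2.1 (fun p => false :: cz P p.1) ?_
    exact PTF.cons (PTF.const false) ((ptf_cz P).comp PTF.fst)
  have h2 : QC O (fun p : Str × Str => U.run O (pr (ka p.1) (pr (xx p.1) p.2))) :=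
    Cndg.qc_pre (g := fun r : Str × Str => U.run O (pr r.1 r.2))
      (e := fun p : Str × Str => (ka p.1, pr (xx p.1) p.2)) (hMch.2.2.2 O U).2.2.1
      ((ptf_ka.comp PTF.fst).pair (Pudg.ptf_prr (ptf_xx.comp PTF.fst) PTF.snd))
  have h3 := Cndg.qc_pair hEas hCmp h1 h2
  have h4 := Cndg.qc_pair hEas hCmp ((hEas (Str × Str) (Str × Str) O).1 _ PTF.id) h3
  have h5 : PTF (fun r : (Str × Str) × (Bool × Str) =>
      if r.2.1 = true then decide (r.1.2.length ≤ (bd r.1.1).length) && decide (r.2.2 = [true])
      else r.1.2.isEmpty) := by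
    have h6 : PTF (fun r : (Str × Str) × (Bool × Str) => bd r.1.1) :=
      ptf_bd.comp (PTF.fst.comp PTF.fst)
    fun_prop
  exact Cndg.qc_cmp (g := fun r : (Str × Str) × (Bool × Str) =>
      if r.2.1 = true then decide (r.1.2.length ≤ (bd r.1.1).length) && decide (r.2.2 = [true])
      else r.1.2.isEmpty) hCmp ((hEas _ _ O).1 _ h5) h4

/-- A machine which rejects. -/
def Rej : Mach := ⟨fun _ => [], 0, fun _ => [], PTF.const _, PTF.const _⟩

theorem rej_sol (p : Polynomial ℕ) (O : World) (x w : Str) : ¬ Sol Rej p O x w := by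
  rintro ⟨-, h⟩
  cases h

end NVg

open NVg

theorem nvc_of (hLen : StLen) (hEas : StEas) (hCmp : StCmp) (hCnv : StCnv) (hMch : StMch)
    (hBnd : StBnd) (hLoc : StLoc) (hCom : StCom) : StNvc := by
  classical
  obtain ⟨U, hU⟩ := exists_UM
  obtain ⟨P, hP⟩ := exists_P hBnd U
  obtain ⟨C, hC⟩ := fixC (FF U P) (FF_congr hLoc U P hP)
  have hC1 : ∀ z, C (cz P z) = true ↔ ∀ G : World, ∃ w, Ver U (join G C) z w := by
    intro z
    rw [hC]
    unfold FF
    rw [decide_eq_true_iff]
    constructor
    · rintro ⟨z', h1, h2⟩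
      have h3 : z = z' := rep_inj _ _ _ _ h1
      rw [h3]; exact h2
    · intro h
      exact ⟨z, rfl, h⟩
  refine ⟨C, Filter.mem_of_superset (hCom C) ?_⟩
  intro G hG
  set O := join G C with hO
  have hUU : ∀ z w, UU U P O (z, w) = true ↔
      (C (cz P z) = true ∧ Ver U O z w) ∨ (C (cz P z) = false ∧ w = []) := by
    intro z w
    show (if C (cz P z) = true then
      decide (w.length ≤ (bd z).length) && decide (U.run O (pr (ka z) (pr (xx z) w)) = [true])
      else w.isEmpty) = true ↔ _
    cases h : C (cz P z)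
    · simp
    · simp [Ver]
  refine ⟨UU U P O, ⟨?_, ?_, ?_⟩, ?_⟩
  · exact ((hCnv O).2.1 _).2 (qc_UU hEas hCmp hMch U P O)
  · obtain ⟨B, hB⟩ := Revg.exists_bd ptf_bd
    refine ⟨B.comp (4 * Polynomial.X + 1), fun z w h => ?_⟩
    rcases (hUU z w).1 h with h1 | h1
    · refine h1.2.1.trans ((length_le_sz _).trans ((hB z).trans ?_))
      rw [Polynomial.eval_comp]
      refine Pool.Agent.RO.eval_mono B ?_
      have := sz_bits z
      simpa using this
    · rw [h1.2]; exact Nat.zero_le _
  · intro z
    cases h : C (cz P z)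
    · exact ⟨[], (hUU z []).2 (Or.inr ⟨h, rfl⟩)⟩
    · obtain ⟨w, hw⟩ := (hC1 z).1 h G
      exact ⟨w, (hUU z w).2 (Or.inl ⟨h, hw⟩)⟩
  · intro V' hV'
    obtain ⟨p, hp⟩ := hV'.bounded
    have hQ' : QC O V' := ((hCnv O).2.1 V').1 hV'.poly
    obtain ⟨M, hM⟩ := hMch.2.1 O V' hQ'
    have hgood : Good ⟨M, p, Rej, 0, Rej, 0, Rej⟩ 0 C G := by
      refine ⟨fun x => ?_, fun x u h => absurd h (rej_sol _ _ _ _), fun x u h => absurd h (rej_sol _ _ _ _)⟩
      obtain ⟨w, hw⟩ := hV'.total x
      exact ⟨w, hp x w hw, by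
        show M.run O (pr x w) = [true]
        rw [hM x w, hw]⟩
    obtain ⟨m, hm⟩ := hG _ _ hgood
    -- the finite piece
    set S : List Str := (((List.finite_length_lt Bool m).toFinset).filter (fun q => G q = true)).toList
      with hS
    have hSmem : ∀ q : Str, q.length < m → (decide (q ∈ S) = G q) := by
      intro q hq
      have h1 : q ∈ S ↔ G q = true := by
        rw [hS, Finset.mem_toList, Finset.mem_filter, Set.Finite.mem_toFinset]
        exact ⟨fun h => h.2, fun h => ⟨hq, h⟩⟩
      cases hGq : G q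
      · rw [decide_eq_false_iff_not, h1, hGq]; simp
      · rw [decide_eq_true_iff, h1, hGq]
    have hptG : pt m S G = G := by
      funext q
      unfold pt
      split_ifs with h
      · exact hSmem q h
      · rfl
    obtain ⟨M', hM'⟩ := wire m S M
    have htot : ∀ (G' : World) (x : Str), ∃ w, w.length ≤ p.eval x.length ∧
        M'.run (join G' C) (pr x w) = [true] := by
      intro G' x
      have h1 : ∀ q : Str, q.length < m → pt m S G' q = G q := by
        intro q hq
        unfold pt
        rw [if_pos hq]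
        exact hSmem q hq
      obtain ⟨w, hw1, hw2⟩ := (hm (pt m S G') h1).total x
      exact ⟨w, hw1, by rw [hM']; exact hw2⟩
    obtain ⟨κ, hκ, R, hR⟩ := sim hLen M'
    set nP : Polynomial ℕ := R.comp (2 * Polynomial.X + 1 + p) with hnP
    set f : Str → Str := fun x => pr (κ (nP.eval x.length))
      (pr x (List.replicate (p.eval x.length) true)) with hf
    have hfP : PTF f := by
      have e1 : PTF (fun x : Str => nP.eval x.length) := ptf_eval nP (by fun_prop)
      have e2 : PTF (fun x : Str => p.eval x.length) := ptf_eval p (by fun_prop)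
      exact Pudg.ptf_prr (hκ.comp e1) (Pudg.ptf_prr PTF.id (by fun_prop))
    have hka : ∀ x, ka (f x) = κ (nP.eval x.length) := by
      intro x
      show (dec2 (dl _ ++ _)).1 = _
      rw [dec2_dl]
    have hd2 : ∀ x, (dec2 (f x)).2 = pr x (List.replicate (p.eval x.length) true) := by
      intro x
      show (dec2 (dl _ ++ _)).2 = _
      rw [dec2_dl]
    have hxx : ∀ x, xx (f x) = x := by
      intro x
      unfold xx
      rw [hd2]
      show (dec2 (dl _ ++ _)).1 = _
      rw [dec2_dl]
    have hbd : ∀ x, (bd (f x)).length = p.eval x.length := by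
      intro x
      unfold bd
      rw [hd2]
      show (dec2 (dl _ ++ _)).2.length = _
      rw [dec2_dl]
      exact List.length_replicate
    have hrun : ∀ (O' : World) (x w : Str), w.length ≤ p.eval x.length →
        U.run O' (pr (ka (f x)) (pr (xx (f x)) w)) = M'.run O' (pr x w) := by
      intro O' x w hw
      rw [hU, hka, hxx]
      have h1 : dec2 (pr (κ (nP.eval x.length)) (pr x w)) = (κ (nP.eval x.length), pr x w) := dec2_dl _ _
      rw [h1]
      refine hR O' (pr x w) _ ?_
      rw [hnP, Polynomial.eval_comp]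
      refine Pool.Agent.RO.eval_mono R ?_
      rw [Pudg.length_pr]
      simp only [Polynomial.eval_add, Polynomial.eval_mul, Polynomial.eval_ofNat, Polynomial.eval_X,
        Polynomial.eval_one]
      omega
    refine ⟨f, fun q => q.2, ((hCnv O).1 f).2 ((hEas Str Str O).1 f hfP),
      ((hCnv O).2.2 _).2 ((hEas (Str × Str) Str O).1 _ PTF.snd), fun x w h => ?_⟩
    have hCz : C (cz P (f x)) = true := by
      rw [hC1]
      intro G'
      obtain ⟨w', h1, h2⟩ := htot G' x
      exact ⟨w', by rw [hbd]; exact h1, by rw [hrun _ _ _ h1]; exact h2⟩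
    rcases (hUU (f x) w).1 h with h1 | h1
    · obtain ⟨-, h2, h3⟩ := h1
      rw [hbd] at h2
      rw [hrun _ _ _ h2, hO, hM', hptG, ← hO, hM x w] at h3
      show V' (x, w) = true
      exact (List.cons.inj h3).1
    · rw [hCz] at h1
      exact absurd h1.1 (by simp)

/-- NVC: there is a world relative to which comeagrely many oracles have a complete TFNP problem. -/
theorem prf_Nvc : StNvc := by
  have hLen := prf_Len
  have hApp := prf_App hLen
  have hCgr := prf_Cgr
  have hEas := prf_Eas
  have hCmp := prf_Cmp hLen hApp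
  have hCnv := prf_Cnv hLen
  have hMch := prf_Mch hLen
  have hBnd := prf_Bnd hLen
  have hLoc := prf_Loc hCgr
  have hCnt := prf_Cnt
  have hClo := prf_Clo hLoc
  have hCom := prf_Com hCnt hClo
  exact nvc_of hLen hEas hCmp hCnv hMch hBnd hLoc hCom

end Pool.Agent.GW
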