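import Pool.Agent.Work.MP_46935e_lc.GW.Fin4
import Pool.Agent.Work.MP_46935e_lc.GW.NV
import Pool.Agent.Work.MP_46935e_lc.GW.I_Fcd
import Pool.Agent.Work.MP_46935e_lc.GW.I_ClT
import Pool.Agent.Work.MP_46935e_lc.GW.I_CoT
import Pool.Agent.Work.MP_46935e_lc.GW.I_Jon
import Pool.Agent.Work.MP_46935e_lc.GW.I_DeT
import Pool.Agent.Work.MP_46935e_lc.GW.I_Nul
import Pool.Agent.Work.MP_46935e_lc.GW.I_Fro
import Pool.Agent.Work.MP_46935e_lc.GW.I_Php
import Pool.Agent.Work.MP_46935e_lc.GW.I_Adv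
import Pool.Agent.Work.MP_46935e_lc.GW.I_Wor
import Pool.Agent.Work.MP_46935e_lc.GW.I_ClS
import Pool.Agent.Work.MP_46935e_lc.GW.I_Bad
import Pool.Agent.Work.MP_46935e_lc.GW.I_Ins
import Pool.Agent.Work.MP_46935e_lc.GW.I_Ucv
import Pool.Agent.Work.MP_46935e_lc.GW.I_Ucm
import Pool.Agent.Work.MP_46935e_lc.GW.I_Sim
import Pool.Agent.Work.MP_46935e_lc.GW.I_Si3
import Pool.Agent.Work.MP_46935e_lc.GW.I_BB1
import Pool.Agent.Work.MP_46935e_lc.GW.I_BB2
import Pool.Agent.Work.MP_46935e_lc.GW.I_BB3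
import Pool.Agent.Work.MP_46935e_lc.GW.I_ClP
import Pool.Agent.Work.MP_46935e_lc.GW.I_CoP
import Pool.Agent.Work.MP_46935e_lc.GW.I_BP1
import Pool.Agent.Work.MP_46935e_lc.GW.I_BP2

/-!
# Block GW: assembly of parts 1 to 4
-/

set_option autoImplicit false

namespace Pool.Agent.GW

theorem prf_All4 : StAll4 := by
  have hFcd := prf_Fcd
  have hClT := prf_ClT
  have hCoT := prf_CoT hFcd hClT
  have hJon := prf_Jon
  have hDeT := prf_DeT
  have hNul := prf_Nul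
  have hFro := prf_Fro
  have hPhp := prf_Php
  have hAdv := prf_Adv
  have hWor := prf_Wor
  have hClS := prf_ClS
  have hBad := prf_Bad hAdv hWor
  have hIns := prf_Ins hFcd hClS hBad hPhp
  have hUcv := prf_Ucv
  have hUcm := prf_Ucm
  have hSim := prf_Sim
  have hSi3 := prf_Si3 hSim hUcm
  have hBB1 := prf_BB1 hDeT hUcv hUcm hSi3
  have hBB2 := prf_BB2 hDeT hUcv hUcm hSi3
  have hBB3 := prf_BB3 hUcv hJon
  have hClP := prf_ClP
  have hCoP := prf_CoP hFcd hClP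
  have hBP1 := prf_BP1 hDeT hUcv hUcm hSi3
  have hBP2 := prf_BP2 hDeT hUcv hUcm hSi3
  exact all4_of prf_Main hCoT hNul hFro hIns prf_Nvc hBB1 hBB2 hBB3 hCoP hBP1 hBP2

end Pool.Agent.GW
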