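import Pool.Agent.Work.MP_46935e_lc.GW.All4

/-!
# Block GW: final form of the theorem (complete pairs in generic worlds are not separable)
-/

set_option autoImplicit false

namespace Pool.Agent.GW

open Pool.Agent.RO Pool.Agent.S1 Pool.Agent.PT Pool.Agent.Work.MP_46935e_lc N68a2faeb N08b01508
open Filter

/-- For comeagrely many `G` no complete disjoint coNP pair relative to `join G C` is separable. -/
theorem complete_not_separable (C : World) : ∀ᶠ G in residual World, ∀ A B : DecisionProblem,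
    (∀ A' B' : DecisionProblem, IsDisjointCoNPPairRel (join G C) A' B' →
      PairReducibleRel (join G C) A' B' A B) →
    ∀ S : DecisionProblem, IsPolyTimeRel (join G C) S → ¬ Separates S A B := by
  have hc : Countable Mach := prf_Cnt.1
  have h1 : ∀ M : Mach, {G : World | Fcd (Sp M C) G} ∈ residual World :=
    fun M => prf_Fcd _ (prf_ClS M C)
  refine Filter.mem_of_superset (countable_iInter_mem.2 h1) ?_
  intro G hG A B hcomp S hS hsep
  obtain ⟨f, hf, hfA, hfB⟩ := hcomp (cpair true G) (cpair false G) (prf_Php C G).2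
  obtain ⟨M, hM⟩ := ((prf_Mch prf_Len).1 (join G C) (fun x : Str => [S x])).1
    (((prf_Cnv prf_Len (join G C)).1 _).1 (singleton_poly hS))
  obtain ⟨F, hF⟩ := ((prf_Mch prf_Len).1 (join G C) f).1
    (((prf_Cnv prf_Len (join G C)).1 _).1 hf)
  obtain ⟨M', hM'⟩ := prf_Ucm.2 F M
  have hmem : G ∈ Sp M' C := by
    intro x
    constructor
    · intro hx
      rw [hM', hF, hM, hsep.1 _ (hfA x hx)]
    · intro hx
      rw [hM', hF, hM, hsep.2 _ (hfB x hx)]
  obtain ⟨m, hm⟩ := (Set.mem_iInter.1 hG M') hmem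
  obtain ⟨G', hG', hn⟩ := prf_Bad prf_Adv prf_Wor M' C G m
  exact hn (hm G' hG')

/-- The final statement. -/
def StAll5 : Prop :=
  (∀ C : World,
    (HasPairAll C ↔ HasTFNPAll C) ∧
    (HasTFNPAll C → HasTFNP C ∧ ∀ᶠ G in residual World, HasTFNP (join G C) ∧
      ∃ A B : DecisionProblem, IsDisjointCoNPPairRel (join G C) A B ∧
        (∀ A' B' : DecisionProblem, IsDisjointCoNPPairRel (join G C) A' B' →
          PairReducibleRel (join G C) A' B' A B) ∧
        ∀ S : DecisionProblem, IsPolyTimeRel (join G C) S → ¬ Separates S A B) ∧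
    (¬ HasTFNPAll C → ∀ᶠ G in residual World, ¬ HasTFNP (join G C) ∧ ¬ HasPair (join G C))) ∧
  (∃ C : World, HasTFNPAll C) ∧
  (∃ C : World, HasPair C ∧ ¬ HasTFNPAll C) ∧
  ((¬ ∃ A B : DecisionProblem, IsCompleteCoNPPair A B) →
    ¬ HasTFNPAll nul ∧ ∀ᶠ G in residual World, ¬ HasTFNP G ∧ ¬ HasPair G)

theorem prf_All5 : StAll5 := by
  obtain ⟨a1, a2, a3, a4⟩ := prf_All4
  refine ⟨fun C => ?_, a2, a3, fun h => ⟨(a4 h).1, ?_⟩⟩
  · obtain ⟨b0, b1, b2, b3, _⟩ := a1 C
    refine ⟨b0, fun h => ⟨b3 h, ?_⟩, fun h => ?_⟩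
    · filter_upwards [b1 h, complete_not_separable C] with G h1 h2
      obtain ⟨⟨A, B, hAB, hcomp⟩, hT⟩ := h1
      exact ⟨hT, A, B, hAB, hcomp, h2 A B hcomp⟩
    · filter_upwards [b2 h] with G h1
      exact ⟨h1.2, h1.1⟩
  · filter_upwards [(a4 h).2] with G h1
    exact ⟨h1.2, h1.1⟩

end Pool.Agent.GW
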