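import Pool.Agent.Work.MP_46935e_lc.S1.Inst
import Pool.Agent.Work.MP_46935e_lc.RobustRun
import Pool.Agent.Work.PT.Auto

/-!
# Block GW (generic world), MP_46935e_lc: definitions.  Captain helper16

THEOREM.  (i) For every oracle `O`: if TFNP relative to `O` has a complete problem then a complete
disjoint coNP pair exists relative to `O`.  (ii) For every oracle `C` and comeagrely many `G`:
relative to `join G C` a complete disjoint coNP pair exists if and only if TFNP has a complete problem.
-/

set_option autoImplicit false

noncomputable section

namespace Pool.Agent.GW

open Pool.Agent.RO Pool.Agent.S1 Pool.Agent.PT Pool.Agent.Work.MP_46935e_lc N68a2faeb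

/-! ### Query computable functions -/

/-- The answers of the oracle `O` to the first `n` queries of the query function `Q` (which is given
the input `x` and the answers received so far). -/
def qans {α : Type} (Q : α × Str → Str) (O : World) (x : α) : ℕ → Str
  | 0 => []
  | n + 1 => qans Q O x n ++ [O (Q (x, qans Q O x n))]

/-- Query computable functions: a polynomial number of queries, then an output function; both are
polynomial-time functions of the input and the answers. -/
def QC (O : World) {α β : Type} [Enc α] [Enc β] (f : α → β) : Prop :=
  ∃ (Q : α × Str → Str) (N : Polynomial ℕ) (out : α × Str → β), PTF Q ∧ PTF out ∧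
    ∀ x, out (x, qans Q O x (N.eval (sz x))) = f x

/-! ### Machines with string input and output -/

/-- A machine: query function, number of queries, output function. -/
structure Mach where
  Q : Str × Str → Str
  N : Polynomial ℕ
  out : Str × Str → Str
  hQ : PTF Q
  hout : PTF out

/-- The function computed by the machine relative to `O`. -/
def Mach.run (M : Mach) (O : World) (z : Str) : Str := M.out (z, qans M.Q O z (M.N.eval (sz z)))

/-- The queries of the machine `M` on the input `z`. -/
def Mach.qs (M : Mach) (O : World) (z : Str) : List Str :=
  (List.range (M.N.eval (sz z))).map (fun i => M.Q (z, qans M.Q O z i))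

/-- pair of strings (`dec2 (pr x w) = (x, w)` is `dec2_dl`) -/
def pr (x w : Str) : Str := dl x ++ w

/-- `w` is a solution of `x`: short, and accepted by the machine `M`. -/
def Sol (M : Mach) (p : Polynomial ℕ) (O : World) (x w : Str) : Prop :=
  w.length ≤ p.eval x.length ∧ M.run O (pr x w) = [true]

/-! ### Complete problems -/

/-- TFNP relative to `O` has a complete problem. -/
def HasTFNP (O : World) : Prop := ∃ V, IsTFNPRel O V ∧ ∀ V', IsTFNPRel O V' → SearchReducibleRel O V' V

/-- A complete disjoint coNP pair exists relative to `O`. -/
def HasPair (O : World) : Prop := ∃ A B, IsDisjointCoNPPairRel O A B ∧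
  ∀ A' B', IsDisjointCoNPPairRel O A' B' → PairReducibleRel O A' B' A B

/-! ### The pair with hidden colours -/

/-- Position of the colour of the candidate `w` for the instance `x` (`m` is the padding). -/
def cpos (m : ℕ) (x w : Str) : Str := List.replicate m true ++ false :: pr x w

/-- The candidate of a query `true :: cpos m x w` to `join G C`. -/
def pw (q : Str) : Str := (dec2 (q.drop (q.idxOf false + 1))).2

/-- Data: a search problem `R`, a pair (certified complements `A`, `B`) and a reduction `f`. -/
structure Dat where
  R : Mach
  pR : Polynomial ℕ
  A : Mach
  pA : Polynomial ℕ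
  B : Mach
  pB : Polynomial ℕ
  f : Mach

/-- Relative to `join G C` the search problem `R` is total and `f` reduces its pair with hidden
colours (padding `P`) to the pair given by `A`, `B`. -/
structure Good (D : Dat) (P : Polynomial ℕ) (C G : World) : Prop where
  total : ∀ x, ∃ w, Sol D.R D.pR (join G C) x w
  redA : ∀ x u, Sol D.A D.pA (join G C) (D.f.run (join G C) x) u →
    ∃ w, Sol D.R D.pR (join G C) x w ∧ G (cpos (P.eval x.length) x w) = false
  redB : ∀ x u, Sol D.B D.pB (join G C) (D.f.run (join G C) x) u →
    ∃ w, Sol D.R D.pR (join G C) x w ∧ G (cpos (P.eval x.length) x w) = true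

/-- The padding `P` is longer than all queries of `R`. -/
def Pad (D : Dat) (P : Polynomial ℕ) : Prop :=
  ∀ (O : World) (x w : Str), w.length ≤ D.pR.eval x.length → ∀ q ∈ D.R.qs O (pr x w),
    q.length ≤ P.eval x.length

/-- `G` forces `Good` by a finite piece. -/
def Forced (D : Dat) (P : Polynomial ℕ) (C G : World) (m : ℕ) : Prop :=
  ∀ G' : World, (∀ q : Str, q.length < m → G' q = G q) → Good D P C G'

/-- The strings read off from the queries of `f` on `x` and of `V` on `pr (f x) u`. -/
def cands (f V : Mach) (O : World) (x u : Str) : List Str :=
  (f.qs O x ++ V.qs O (pr (f.run O x) u)).map pw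

end Pool.Agent.GW
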