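import Pool.Agent.Work.MP_46935e_lc.GW.Stmts

/-!
# Block GW (generic world): the theorem from PUD, COM, REV
-/

set_option autoImplicit false

namespace Pool.Agent.GW

open Pool.Agent.RO Pool.Agent.S1 N68a2faeb

theorem main_of (hPud : StPud) (hCom : StCom) (hRev : StRev) : StMain := by
  refine ⟨hPud, fun C => ?_⟩
  filter_upwards [hCom C] with G hG
  exact ⟨hRev C G hG, hPud (join G C)⟩

theorem result_of (h : StMain) :
    (∀ O : List Bool → Bool,
      (∃ V : List Bool × List Bool → Bool, IsTFNPRel O V ∧
        ∀ V' : List Bool × List Bool → Bool, IsTFNPRel O V' → SearchReducibleRel O V' V) →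
      ∃ A B : DecisionProblem, IsDisjointCoNPPairRel O A B ∧
        ∀ A' B' : DecisionProblem, IsDisjointCoNPPairRel O A' B' →
          PairReducibleRel O A' B' A B) ∧
    ∀ C : List Bool → Bool, ∀ᶠ G in residual (List Bool → Bool),
      ((∃ A B : DecisionProblem, IsDisjointCoNPPairRel (join G C) A B ∧
        ∀ A' B' : DecisionProblem, IsDisjointCoNPPairRel (join G C) A' B' →
          PairReducibleRel (join G C) A' B' A B) ↔
      ∃ V : List Bool × List Bool → Bool, IsTFNPRel (join G C) V ∧
        ∀ V' : List Bool × List Bool → Bool, IsTFNPRel (join G C) V' →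
          SearchReducibleRel (join G C) V' V) := h

end Pool.Agent.GW
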