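import Pool.Agent.Work.MP_46935e_lc.GW.Stmts2
import Pool.Agent.Work.MP_46935e_lc.S1.Fin

/-!
# Block GW, part 2: the theorems from the items
-/

set_option autoImplicit false

namespace Pool.Agent.GW

open Pool.Agent.RO Pool.Agent.S1 N68a2faeb N08b01508 Filter

/-- The final statement of the block. -/
def StAll : Prop :=
  (∀ C : World, ∀ᶠ G in residual World,
    (HasPair (join G C) ↔ HasTFNP (join G C)) ∧ (HasTFNP (join G C) → HasTFNP C) ∧
    ∃ A B : DecisionProblem, IsDisjointCoNPPairRel (join G C) A B ∧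
      ∀ S : DecisionProblem, IsPolyTimeRel (join G C) S → ¬ Separates S A B) ∧
  (∃ C : World, ∀ᶠ G in residual World, HasTFNP (join G C)) ∧
  (∃ C : World, HasPair C ∧ ∀ᶠ G in residual World, ¬ HasPair (join G C)) ∧
  ((¬ ∃ A B : DecisionProblem, IsCompleteCoNPPair A B) →
    ∀ᶠ G in residual World, ¬ HasPair G ∧ ¬ HasTFNP G)

theorem dw2_of (hCoT : StCoT) (hDwn : StDwn) (C : World) :
    ∀ᶠ G in residual World, HasTFNP (join G C) → HasTFNP C := by
  filter_upwards [hCoT C] with G hG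
  exact hDwn C G hG.1 hG.2

theorem all_of (hMain : StMain) (hCoT : StCoT) (hDwn : StDwn) (hNul : StNul) (hFro : StFro)
    (hIns : StIns) (hNvc : StNvc) : StAll := by
  refine ⟨fun C => ?_, hNvc, ?_, fun hQ => ?_⟩
  · filter_upwards [hMain.2 C, dw2_of hCoT hDwn C, hIns C] with G h1 h2 h3
    exact ⟨h1, h2, h3⟩
  · obtain ⟨O, h1, h2⟩ := S1.main
    refine ⟨O, ⟨oneL true, oneL false, pair0 O, fun A' B' h => ?_⟩, ?_⟩
    · obtain ⟨S, hS, hA, hB⟩ := h1 A' B' h
      refine ⟨fun x => [S x], singleton_poly hS, fun x hx => ?_, fun x hx => ?_⟩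
      · simp only [oneL, decide_eq_true_eq]
        rw [hA x hx]
      · simp only [oneL, decide_eq_true_eq]
        rw [hB x hx]
    · filter_upwards [hMain.2 O, dw2_of hCoT hDwn O] with G h3 h4
      intro hP
      obtain ⟨V, hV, hV'⟩ := h4 (h3.1 hP)
      obtain ⟨V', h5, h6, _⟩ := h2 V hV
      exact h6 (hV' V' h5)
  · filter_upwards [hMain.2 nul, dw2_of hCoT hDwn nul] with G h1 h2
    have h3 : HasTFNP (join G nul) → False := fun h =>
      hQ (hFro.1 (hMain.1 nul (h2 h)))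
    exact ⟨fun h => h3 (h1.1 ((hNul G).1.2 h)), fun h => h3 ((hNul G).2.2 h)⟩

end Pool.Agent.GW
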