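import Pool.Agent.Work.MP_46935e_lc.GW.Stmts3
import Pool.Agent.Work.MP_46935e_lc.GW.Fin2

/-!
# Block GW, part 3: the final theorem from the items
-/

set_option autoImplicit false

namespace Pool.Agent.GW

open Pool.Agent.RO Pool.Agent.S1 N68a2faeb N08b01508 Filter

/-- The final statement of the block. -/
def StAll3 : Prop :=
  (∀ C : World,
    (HasTFNPAll C → ∀ᶠ G in residual World, HasPair (join G C) ∧ HasTFNP (join G C)) ∧
    (¬ HasTFNPAll C → ∀ᶠ G in residual World, ¬ HasPair (join G C) ∧ ¬ HasTFNP (join G C)) ∧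
    (HasTFNPAll C → HasTFNP C) ∧
    ∀ᶠ G in residual World, ∃ A B : DecisionProblem, IsDisjointCoNPPairRel (join G C) A B ∧
      ∀ S : DecisionProblem, IsPolyTimeRel (join G C) S → ¬ Separates S A B) ∧
  (∃ C : World, HasTFNPAll C) ∧
  (∃ C : World, HasPair C ∧ ¬ HasTFNPAll C) ∧
  ((¬ ∃ A B : DecisionProblem, IsCompleteCoNPPair A B) →
    ∀ᶠ G in residual World, ¬ HasPair G ∧ ¬ HasTFNP G)

theorem all3_of (hMain : StMain) (hCoT : StCoT) (hNul : StNul) (hFro : StFro)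
    (hIns : StIns) (hNvc : StNvc) (hBB1 : StBB1) (hBB2 : StBB2) (hBB3 : StBB3) : StAll3 := by
  have z1 : ∀ C : World, HasTFNPAll C → ∀ᶠ G in residual World, HasPair (join G C) ∧ HasTFNP (join G C) := by
    intro C hC
    filter_upwards [hCoT C] with G hG
    have h := hBB1 C G hG.1 hC
    exact ⟨hMain.1 _ h, h⟩
  have z2 : ∀ C : World, ¬ HasTFNPAll C →
      ∀ᶠ G in residual World, ¬ HasPair (join G C) ∧ ¬ HasTFNP (join G C) := by
    intro C hC
    filter_upwards [hCoT C, hMain.2 C] with G hG h1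
    have h2 : ¬ HasTFNP (join G C) := fun h => hC (hBB2 C G hG.1 hG.2 h)
    exact ⟨fun h => h2 (h1.1 h), h2⟩
  refine ⟨fun C => ⟨z1 C, z2 C, hBB3 C, hIns C⟩, ?_, ?_, fun hQ => ?_⟩
  · obtain ⟨C, hC⟩ := hNvc
    refine ⟨C, ?_⟩
    by_contra hn
    have hC' : ∀ᶠ G in residual World, HasTFNP (join G C) := hC
    obtain ⟨G, hG⟩ := (dense_of_mem_residual (hC'.and (z2 C hn))).nonempty
    exact hG.2.2 hG.1
  · obtain ⟨O, h1, h2⟩ := Pool.Agent.S1.main
    refine ⟨O, ⟨oneL true, oneL false, pair0 O, fun A' B' h => ?_⟩, ?_⟩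
    · obtain ⟨S, hS, hA, hB⟩ := h1 A' B' h
      refine ⟨fun x => [S x], singleton_poly hS, fun x hx => ?_, fun x hx => ?_⟩
      · simp only [oneL, decide_eq_true_eq]
        rw [hA x hx]
      · simp only [oneL, decide_eq_true_eq]
        rw [hB x hx]
    · intro hA
      obtain ⟨V, hV, hV'⟩ := hBB3 O hA
      obtain ⟨V', h5, h6, _⟩ := h2 V hV
      exact h6 (hV' V' h5)
  · have hn : ¬ HasTFNPAll nul := fun h => hQ (hFro.1 (hMain.1 nul (hBB3 nul h)))
    filter_upwards [z2 nul hn] with G h1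
    exact ⟨fun h => h1.1 ((hNul G).1.2 h), fun h => h1.2 ((hNul G).2.2 h)⟩

end Pool.Agent.GW
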