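import Pool.Agent.Work.MP_46935e_lc.GW.Stmts4
import Pool.Agent.Work.MP_46935e_lc.GW.Fin3

/-!
# Block GW, part 4: the final theorem from the items
-/

set_option autoImplicit false

namespace Pool.Agent.GW

open Pool.Agent.RO Pool.Agent.S1 N68a2faeb N08b01508 Filter

/-- The final statement of the block. -/
def StAll4 : Prop :=
  (∀ C : World,
    (HasPairAll C ↔ HasTFNPAll C) ∧
    (HasTFNPAll C → ∀ᶠ G in residual World, HasPair (join G C) ∧ HasTFNP (join G C)) ∧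
    (¬ HasTFNPAll C → ∀ᶠ G in residual World, ¬ HasPair (join G C) ∧ ¬ HasTFNP (join G C)) ∧
    (HasTFNPAll C → HasTFNP C) ∧
    ∀ᶠ G in residual World, ∃ A B : DecisionProblem, IsDisjointCoNPPairRel (join G C) A B ∧
      ∀ S : DecisionProblem, IsPolyTimeRel (join G C) S → ¬ Separates S A B) ∧
  (∃ C : World, HasTFNPAll C) ∧
  (∃ C : World, HasPair C ∧ ¬ HasTFNPAll C) ∧
  ((¬ ∃ A B : DecisionProblem, IsCompleteCoNPPair A B) →
    ¬ HasTFNPAll nul ∧ ∀ᶠ G in residual World, ¬ HasPair G ∧ ¬ HasTFNP G)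

theorem all4_of (hMain : StMain) (hCoT : StCoT) (hNul : StNul) (hFro : StFro)
    (hIns : StIns) (hNvc : StNvc) (hBB1 : StBB1) (hBB2 : StBB2) (hBB3 : StBB3)
    (hCoP : StCoP) (hBP1 : StBP1) (hBP2 : StBP2) : StAll4 := by
  obtain ⟨a1, a2, a3, a4⟩ := all3_of hMain hCoT hNul hFro hIns hNvc hBB1 hBB2 hBB3
  refine ⟨fun C => ?_, a2, a3, fun hQ => ⟨fun h => hQ (hFro.1 (hMain.1 nul (hBB3 nul h))), a4 hQ⟩⟩
  obtain ⟨b1, b2, b3, b4⟩ := a1 C
  refine ⟨⟨fun h => ?_, fun h => ?_⟩, b1, b2, b3, b4⟩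
  · by_contra hn
    have hC : ∀ᶠ G in residual World, (∀ D, Fcd (Dis D C) G) ∧ ∀ D D' F, Fcd (PRd D D' F C) G :=
      hCoP C
    obtain ⟨G, hG⟩ := (dense_of_mem_residual (hC.and (b2 hn))).nonempty
    exact hG.2.1 (hBP1 C G hG.1.1 h)
  · have hC : ∀ᶠ G in residual World, (∀ D, Fcd (Dis D C) G) ∧ ∀ D D' F, Fcd (PRd D D' F C) G :=
      hCoP C
    obtain ⟨G, hG⟩ := (dense_of_mem_residual (hC.and (b1 h))).nonempty
    exact hBP2 C G hG.1.1 hG.1.2 hG.2.1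

end Pool.Agent.GW
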