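import Pool.Agent.Work.MP_46935e_lc.GW.Stmts2

/-!
# MP_46935e_lc, block GW part 2, item Adv: the adaptive adversary
-/

set_option autoImplicit false

noncomputable section

namespace Pool.Agent.GW

open Pool.Agent.RO Pool.Agent.S1 Pool.Agent.PT Pool.Agent.Work.MP_46935e_lc N68a2faeb N08b01508

theorem prf_Adv : StAdv := by
  intro α Q x W touch htouch hstab n
  induction n with
  | zero => exact ⟨[], by simp, fun i hi => absurd hi (Nat.not_lt_zero i)⟩
  | succ n ih =>
    obtain ⟨L, hL, hLi⟩ := ih
    have key : ∀ i, i ≤ n →
        qans Q (W (L ++ touch (Q (x, qans Q (W L) x n)))) x i = qans Q (W L) x i := by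
      intro i
      induction i with
      | zero => intro _; rfl
      | succ i ih2 =>
        intro hi
        have h1 := ih2 (by omega)
        show qans Q (W (L ++ touch (Q (x, qans Q (W L) x n)))) x i ++
            [W (L ++ touch (Q (x, qans Q (W L) x n)))
              (Q (x, qans Q (W (L ++ touch (Q (x, qans Q (W L) x n)))) x i))] =
          qans Q (W L) x i ++ [W L (Q (x, qans Q (W L) x i))]
        rw [h1, hstab L _ _ (hLi i (by omega))]
    refine ⟨L ++ touch (Q (x, qans Q (W L) x n)), ?_, ?_⟩
    · rw [List.length_append]
      have := htouch (Q (x, qans Q (W L) x n))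
      omega
    · intro i hi t ht
      rw [key i (by omega)] at ht
      rcases Nat.lt_succ_iff_lt_or_eq.1 hi with h | h
      · exact List.mem_append_left _ (hLi i h t ht)
      · subst h
        exact List.mem_append_right _ ht

end Pool.Agent.GW
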