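import Pool.Agent.Work.MP_46935e_lc.GW.Stmts2

/-!
# Block GW, item Tab: simulation of an oracle which is given by two lists
-/

set_option autoImplicit false

noncomputable section

namespace Pool.Agent.GW

open Pool.Agent.RO Pool.Agent.S1 Pool.Agent.PT Pool.Agent.Work.MP_46935e_lc N68a2faeb

namespace Tabg

/-- the simulated answer to the query `q`, when `b` is the answer of `C` to `q.drop 1` -/
def an (m : ℕ) (S T : List Str) (q : Str) (b : Bool) : Bool :=
  if q = [] then false else if q.headD false = true then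
    (if (q.drop 1).length < m then decide (q.drop 1 ∈ S) else decide (q.drop 1 ∈ T)) else b

theorem an_join (m : ℕ) (S T : List Str) (C : World) (q : Str) :
    an m S T q (C (q.drop 1)) = join (wt m S T) C q := by
  unfold an
  cases q with
  | nil => rfl
  | cons a w =>
    cases a
    · simp [join]
    · simp [join, wt]

theorem ptf_an {α : Type} [Enc α] (m : ℕ) (S : List Str) {T : α → List Str} {q : α → Str}
    {b : α → Bool} (hT : PTF T) (hq : PTF q) (hb : PTF b) :
    PTF (fun x => an m S (T x) (q x) (b x)) := by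
  unfold an
  have h1 : PTF (fun x => (q x).drop 1) := PTF.drop hq (PTF.const 1)
  have h2 : PTF (fun x => decide ((q x).drop 1 ∈ S)) := (PTF.mem h1 (PTF.const S)).congr fun _ => decide_eq_decide.2 Iff.rfl
  have h3 : PTF (fun x => decide ((q x).drop 1 ∈ T x)) := (PTF.mem h1 hT).congr fun _ => decide_eq_decide.2 Iff.rfl
  have h4 : PTF (fun x => decide (((q x).drop 1).length < m)) := h1.length.lt (PTF.const m)
  have h5 : PTF (fun x => decide (q x = [])) := hq.eq (PTF.const [])
  have h6 : PTF (fun x => decide ((q x).headD false = true)) :=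
    (PTF.headD hq (PTF.const false)).eq (PTF.const true)
  exact PTF.ite h5 (PTF.const false) (PTF.ite h6 (PTF.ite h4 h2 h3) hb)

/-- the simulated answers -/
def rp (m : ℕ) (S : List Str) (M : Mach) (p : List Str × Str) (a : Str) : Str :=
  a.foldl (fun s b => s ++ [an m S p.1 (M.Q (p.2, s)) b]) []

theorem rp_append (m : ℕ) (S : List Str) (M : Mach) (p : List Str × Str) (a : Str) (b : Bool) :
    rp m S M p (a ++ [b]) = rp m S M p a ++ [an m S p.1 (M.Q (p.2, rp m S M p a)) b] := by
  unfold rp
  rw [List.foldl_append]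
  rfl

theorem ptf_rp (m : ℕ) (S : List Str) (M : Mach) :
    PTF (fun r : (List Str × Str) × Str => rp m S M r.1 r.2) := by
  have hs : PTF (fun t : ((List Str × Str) × Str) × (Str × Bool) =>
      t.2.1 ++ [an m S t.1.1.1 (M.Q (t.1.1.2, t.2.1)) t.2.2]) := by
    have h1 : PTF (fun t : ((List Str × Str) × Str) × (Str × Bool) =>
        M.Q (t.1.1.2, t.2.1)) := M.hQ.comp (by fun_prop)
    have h2 : PTF (fun t : ((List Str × Str) × Str) × (Str × Bool) =>
        an m S t.1.1.1 (M.Q (t.1.1.2, t.2.1)) t.2.2) := ptf_an m S (by fun_prop) h1 (by fun_prop)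
    exact PTF.append (by fun_prop) (PTF.cons h2 (PTF.const _))
  refine PTF.foldl_add (l := fun r : (List Str × Str) × Str => r.2)
    (init := fun _ => ([] : Str)) PTF.snd (PTF.const _) hs (fun _ => 10) (PB.const 10) ?_
  intro a s b _
  have h1 := sz_append s [an m S a.1.1 (M.Q (a.1.2, s)) b]
  have h2 := sz_cons (an m S a.1.1 (M.Q (a.1.2, s)) b) ([] : Str)
  have h3 := sz_bool (an m S a.1.1 (M.Q (a.1.2, s)) b)
  have h4 : sz ([] : Str) = 1 := sz_nil
  show sz (s ++ [an m S a.1.1 (M.Q (a.1.2, s)) b]) ≤ sz s + 10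
  omega

end Tabg

open Tabg in
/-- item Tab -/
theorem prf_Tab : StTab := by
  intro m S M C
  have hrp := ptf_rp m S M
  refine ⟨fun r => (M.Q (r.1.2, rp m S M r.1 r.2)).drop 1, M.N,
    fun r => M.out (r.1.2, rp m S M r.1 (r.2.take (M.N.eval (sz r.1.2)))), ?_, ?_, ?_⟩
  · have h1 : PTF (fun r : (List Str × Str) × Str => M.Q (r.1.2, rp m S M r.1 r.2)) :=
      M.hQ.comp ((PTF.snd.comp PTF.fst).pair hrp)
    exact PTF.drop h1 (PTF.const 1)
  · have h1 : PTF (fun r : (List Str × Str) × Str => r.2.take (M.N.eval (sz r.1.2))) :=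
      PTF.snd.take (ptf_eval M.N (ptf_sz (PTF.snd.comp PTF.fst)))
    have h2 : PTF (fun r : (List Str × Str) × Str =>
        rp m S M r.1 (r.2.take (M.N.eval (sz r.1.2)))) :=
      hrp.comp (PTF.fst.pair h1)
    exact M.hout.comp ((PTF.snd.comp PTF.fst).pair h2)
  · rintro ⟨T, z⟩
    have key : ∀ i, rp m S M (T, z) (qans (fun r : (List Str × Str) × Str =>
        (M.Q (r.1.2, rp m S M r.1 r.2)).drop 1) C (T, z) i) =
        qans M.Q (join (wt m S T) C) z i := by
      intro i
      induction i with
      | zero => rfl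
      | succ i ih =>
        rw [qans, rp_append, ih, qans]
        congr 2
        exact an_join m S T C _
    have h1 : M.N.eval (sz z) ≤ M.N.eval (sz ((T, z) : List Str × Str)) := by
      refine Pool.Agent.RO.eval_mono M.N ?_
      rw [sz_pair]
      omega
    show M.out (z, rp m S M (T, z) ((qans (fun r : (List Str × Str) × Str =>
        (M.Q (r.1.2, rp m S M r.1 r.2)).drop 1) C (T, z) (M.N.eval (sz ((T, z) : List Str × Str)))).take
        (M.N.eval (sz z)))) = M.out (z, qans M.Q (join (wt m S T) C) z (M.N.eval (sz z)))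
    rw [(prf_Len _ _ _ _ _).2 _ h1, key]

end Pool.Agent.GW
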