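import Pool.Agent.Work.MP_46935e_lc.GW.Stmts3
import Pool.Agent.Work.MP_46935e_lc.GW.I_Tab

/-!
# Block GW, part 3, item BB3: a complete problem of black-box TFNP gives one of TFNP
-/

set_option autoImplicit false

noncomputable section

namespace Pool.Agent.GW

open Pool.Agent.RO Pool.Agent.S1 Pool.Agent.PT Pool.Agent.Work.MP_46935e_lc N68a2faeb N08b01508

namespace BB3g

lemma wt_nul : wt 0 [] [] = nul := by
  funext q
  simp [wt, nul]

/-- machines with the oracle `join nul C` are simulated with the oracle `C` -/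
lemma qc_run (M : Mach) (C : World) : QC C (M.run (join nul C)) := by
  have h1 := prf_Tab 0 [] M C
  have he : PTF (fun z : Str => (([] : List Str), z)) := (PTF.const _).pair PTF.id
  have h2 := Cndg.qc_pre h1 he
  refine (congrArg (QC C) (funext fun z => ?_)).mp h2
  show M.run (join (wt 0 [] []) C) z = M.run (join nul C) z
  rw [wt_nul]

lemma ptf_pr : PTF (fun q : Str × Str => pr q.1 q.2) := by
  unfold pr
  fun_prop

/-- the run on pairs -/
lemma qc_run2 (M : Mach) (C : World) :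
    QC C (fun q : Str × Str => M.run (join nul C) (pr q.1 q.2)) :=
  Cndg.qc_pre (g := M.run (join nul C)) (qc_run M C) ptf_pr

lemma rel_f (C : World) (f : Str → Str) (hf : IsPolyTimeRel (join nul C) f) :
    IsPolyTimeRel C f := by
  have hCnv := prf_Cnv prf_Len
  obtain ⟨M, hM⟩ := ((prf_Mch prf_Len).1 (join nul C) f).1 (((hCnv (join nul C)).1 f).1 hf)
  refine ((hCnv C).1 f).2 ?_
  refine (congrArg (QC C) (funext fun z => ?_)).mp (qc_run M C)
  exact hM z

lemma rel_h (C : World) (h : Str × Str → Str) (hh : IsPolyTimeRel (join nul C) h) :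
    IsPolyTimeRel C h := by
  have hCnv := prf_Cnv prf_Len
  obtain ⟨M, hM⟩ := (prf_Mch prf_Len).2.2.1 (join nul C) h (((hCnv (join nul C)).2.2 h).1 hh)
  refine ((hCnv C).2.2 h).2 ?_
  refine (congrArg (QC C) (funext fun q => ?_)).mp (qc_run2 M C)
  exact hM q.1 q.2

lemma rel_V (C : World) (V : Str × Str → Bool) (hV : IsPolyTimeRel (join nul C) V) :
    IsPolyTimeRel C V := by
  have hEas := prf_Eas
  have hCmp := prf_Cmp prf_Len (prf_App prf_Len)
  have hCnv := prf_Cnv prf_Len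
  obtain ⟨M, hM⟩ := (prf_Mch prf_Len).2.1 (join nul C) V (((hCnv (join nul C)).2.1 V).1 hV)
  refine ((hCnv C).2.1 V).2 ?_
  have h2 : PTF (fun l : Str => l.headD false) := PTF.id.headD (PTF.const false)
  have h3 := Cndg.qc_cmp hCmp ((hEas _ _ C).1 _ h2) (qc_run2 M C)
  refine (congrArg (QC C) (funext fun q => ?_)).mp h3
  show (M.run (join nul C) (pr q.1 q.2)).headD false = V q
  rw [hM]
  rfl

end BB3g

open BB3g

/-- BB3.  The simulation of the oracle `join nul C` is taken from the item Tab. -/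
theorem prf_BB3 (hUcv : StUcv) (hJon : StJon) : StBB3 := by
  have hCnv := prf_Cnv prf_Len
  have hMch := prf_Mch prf_Len
  intro C hall
  obtain ⟨V, hV, hcomp⟩ := hall
  refine ⟨V nul, ⟨?_, ?_, ?_⟩, ?_⟩
  · obtain ⟨g, p, hg, hgp⟩ := hV.poly
    exact rel_V C (V nul) ⟨g, p, hg, fun x => hgp nul x⟩
  · obtain ⟨p, hp⟩ := hV.bounded
    exact ⟨p, fun x w h => hp nul x w h⟩
  · exact fun x => hV.total nul x
  · intro V' hV'
    obtain ⟨R₀, hR₀⟩ := hMch.2.1 C V' (((hCnv C).2.1 V').1 hV'.poly)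
    obtain ⟨R, hR⟩ := hJon R₀
    have hall' : IsTFNPAll C (fun _ => V') := by
      refine ⟨((hUcv C).2.1 (fun _ => V')).2 ⟨R, fun G x w => ?_⟩, ?_, ?_⟩
      · rw [hR, hR₀]
      · obtain ⟨r, hr⟩ := hV'.bounded
        exact ⟨r, fun _ x w h => hr x w h⟩
      · exact fun _ x => hV'.total x
    obtain ⟨f, h, ⟨gf, pf, hgf, hf⟩, ⟨gh, ph, hgh, hh⟩, hfh⟩ := hcomp _ hall'
    exact ⟨f nul, h nul, rel_f C (f nul) ⟨gf, pf, hgf, fun x => hf nul x⟩,
      rel_h C (h nul) ⟨gh, ph, hgh, fun x => hh nul x⟩, fun x w hw => hfh nul x w hw⟩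

end Pool.Agent.GW
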