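import Pool.Agent.Work.MP_46935e_lc.GW.Stmts2

/-!
# Block GW, part 2, item Dwn: descent of complete problems
-/

set_option autoImplicit false

noncomputable section

namespace Pool.Agent.GW

open Pool.Agent.RO Pool.Agent.S1 Pool.Agent.PT Pool.Agent.Work.MP_46935e_lc N68a2faeb N08b01508

namespace Dwng

/-- the list of the short strings in the world -/
def shl (G : World) (m : ℕ) : List Str :=
  ((List.finite_length_lt Bool m).toFinset.toList).filter (fun q => G q)

lemma mem_shl (G : World) (m : ℕ) (q : Str) (hq : q.length < m) : decide (q ∈ shl G m) = G q := by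
  have h1 : q ∈ (List.finite_length_lt Bool m).toFinset.toList := by
    rw [Finset.mem_toList, Set.Finite.mem_toFinset]
    exact hq
  have h2 : q ∈ shl G m ↔ G q = true := by
    unfold shl
    rw [List.mem_filter]
    exact ⟨fun h => h.2, fun h => ⟨h1, h⟩⟩
  cases hG : G q with
  | true => rw [decide_eq_true_iff]; exact h2.2 hG
  | false =>
    rw [decide_eq_false_iff_not]
    intro h
    rw [h2.1 h] at hG
    cases hG

/-- the world with the table agrees with `G` below `m` -/
lemma wt_low (G : World) (m : ℕ) (T : List Str) (q : Str) (hq : q.length < m) :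
    wt m (shl G m) T q = G q := by
  unfold wt
  rw [if_pos hq]
  exact mem_shl G m q hq

lemma wt_low2 (G : World) (m m₁ : ℕ) (q : Str) (hq : q.length < m₁) :
    wt m (shl G m) (shl G m₁) q = G q := by
  by_cases h : q.length < m
  · exact wt_low G m _ q h
  · unfold wt
    rw [if_neg h]
    exact mem_shl G m₁ q hq

/-- the complete problem relative to `C` -/
def UU (M : Mach) (p : Polynomial ℕ) (C : World) (m : ℕ) (S : List Str) (dT : Str → List Str)
    (q : Str × Str) : Bool :=
  decide (q.2.length ≤ p.eval (dec2 q.1).2.length) &&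
    decide (M.run (join (wt m S (dT (dec2 q.1).1)) C) (pr (dec2 q.1).2 q.2) = [true])

lemma UU_iff (M : Mach) (p : Polynomial ℕ) (C : World) (m : ℕ) (S : List Str)
    (dT : Str → List Str) (y w : Str) : UU M p C m S dT (y, w) = true ↔
      Sol M p (join (wt m S (dT (dec2 y).1)) C) (dec2 y).2 w := by
  simp [UU, Sol]

lemma qc_UU (hTab : StTab) (M : Mach) (p : Polynomial ℕ) (C : World) (m : ℕ) (S : List Str)
    (dT : Str → List Str) (hdT : PTF dT) : QC C (UU M p C m S dT) := by
  have hEas := prf_Eas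
  have hCmp := prf_Cmp prf_Len (prf_App prf_Len)
  have he : PTF (fun q : Str × Str => (dT (dec2 q.1).1, pr (dec2 q.1).2 q.2)) := by
    have h1 : PTF (fun q : Str × Str => dT (dec2 q.1).1) :=
      hdT.comp (PTF.fst.comp (ptf_dec2 PTF.fst))
    have h2 : PTF (fun q : Str × Str => pr (dec2 q.1).2 q.2) := by
      unfold pr
      fun_prop
    exact h1.pair h2
  have h1 := Cndg.qc_pre (hTab m S M C) he
  have h2 := Cndg.qc_pair hEas hCmp ((hEas (Str × Str) (Str × Str) C).1 _ PTF.id) h1
  have hp : PTF (fun r : (Str × Str) × Str => p.eval (dec2 r.1.1).2.length) :=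
    ptf_eval p ((PTF.snd.comp (ptf_dec2 (PTF.fst.comp PTF.fst))).length)
  have h3 : PTF (fun r : (Str × Str) × Str =>
      (decide (r.1.2.length ≤ p.eval (dec2 r.1.1).2.length) && decide (r.2 = [true]))) :=
    (((PTF.snd.comp PTF.fst).length).le hp).and (PTF.snd.eq (PTF.const _))
  exact Cndg.qc_cmp (g := fun r : (Str × Str) × Str =>
      (decide (r.1.2.length ≤ p.eval (dec2 r.1.1).2.length) && decide (r.2 = [true])))
    (f := fun q : Str × Str => (q, M.run (join (wt m S (dT (dec2 q.1).1)) C)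
      (pr (dec2 q.1).2 q.2))) hCmp ((hEas _ _ C).1 _ h3) h2

/-- the length of the second part -/
lemma dec2_bd : ∃ B : Polynomial ℕ, ∀ y : Str, (dec2 y).2.length ≤ B.eval y.length := by
  obtain ⟨k, hk⟩ := (PTF.snd.comp (ptf_dec2 (PTF.id (α := Str)))).size
  refine ⟨(4 * Polynomial.X + 3) ^ k, fun y => ?_⟩
  have h1 := hk y
  have h2 := sz_bits y
  have h3 := length_le_sz (dec2 y).2
  refine h3.trans (h1.trans ?_)
  simp only [Polynomial.eval_pow, Polynomial.eval_add, Polynomial.eval_mul,
    Polynomial.eval_ofNat, Polynomial.eval_X]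
  exact Nat.pow_le_pow_left (by omega) k

end Dwng

open Dwng

/-- DWN. -/
theorem prf_Dwn (hTab : StTab) (hJon : StJon) (hDeT : StDeT) : StDwn := by
  have hEas := prf_Eas
  have hCmp := prf_Cmp prf_Len (prf_App prf_Len)
  have hCnv := prf_Cnv prf_Len
  have hMch := prf_Mch prf_Len
  obtain ⟨eT, dT, hdT, hde⟩ := hDeT
  intro C G hFT hFR hV
  obtain ⟨V, hV, hcomp⟩ := hV
  obtain ⟨p, hp⟩ := hV.bounded
  obtain ⟨M, hM⟩ := hMch.2.1 (join G C) V (((hCnv (join G C)).2.1 V).1 hV.poly)
  have hSolM : ∀ x w, Sol M p (join G C) x w ↔ V (x, w) = true := fun x w => by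
    unfold Sol
    rw [hM x w]
    constructor
    · rintro ⟨-, h⟩
      simpa using h
    · intro h
      exact ⟨hp x w h, by rw [h]⟩
  have hTot : G ∈ Tot M p C := fun x => by
    obtain ⟨w, hw⟩ := hV.total x
    exact ⟨w, (hSolM x w).2 hw⟩
  obtain ⟨m, hm⟩ := hFT M p hTot
  obtain ⟨B, hB⟩ := dec2_bd
  refine ⟨UU M p C m (shl G m) dT, ⟨?_, ?_, ?_⟩, ?_⟩
  · exact ((hCnv C).2.1 _).2 (qc_UU hTab M p C m _ dT hdT)
  · refine ⟨p.comp B, fun y w h => ?_⟩
    rw [UU_iff] at h
    rw [Polynomial.eval_comp]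
    exact h.1.trans (Pool.Agent.RO.eval_mono p (hB y))
  · intro y
    obtain ⟨w, hw⟩ := hm (wt m (shl G m) (dT (dec2 y).1)) (fun q hq => wt_low G m _ q hq)
      (dec2 y).2
    exact ⟨w, (UU_iff _ _ _ _ _ _ _ _).2 hw⟩
  · intro V' hV'
    obtain ⟨r, hr⟩ := hV'.bounded
    obtain ⟨R₀, hR₀⟩ := hMch.2.1 C V' (((hCnv C).2.1 V').1 hV'.poly)
    obtain ⟨R, hR⟩ := hJon R₀
    have hRV : ∀ (G' : World) x w, R.run (join G' C) (pr x w) = [V' (x, w)] := fun G' x w => by
      rw [hR, hR₀]
    have hV'G : IsTFNPRel (join G C) V' := by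
      refine ⟨((hCnv (join G C)).2.1 V').2 ?_, hV'.bounded, hV'.total⟩
      have h1 := (hMch.2.2.2 (join G C) R).2.2.1
      have h2 : PTF (fun l : Str => l.headD false) := PTF.id.headD (PTF.const false)
      have h3 := Cndg.qc_cmp hCmp ((hEas _ _ (join G C)).1 _ h2) h1
      refine (congrArg (QC (join G C)) (funext fun q => ?_)).mp h3
      obtain ⟨x, w⟩ := q
      show (R.run (join G C) (pr x w)).headD false = V' (x, w)
      rw [hRV]
      rfl
    obtain ⟨f, h, hf, hh, hfh⟩ := hcomp V' hV'G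
    obtain ⟨F, hF⟩ := (hMch.1 (join G C) f).1 (((hCnv (join G C)).1 f).1 hf)
    obtain ⟨H, hH⟩ := hMch.2.2.1 (join G C) h (((hCnv (join G C)).2.2 h).1 hh)
    have hRed : G ∈ Red M p R r F H C := by
      intro x w hw
      rw [hF x, hSolM] at hw
      rw [hH x w]
      have h1 := hfh x w hw
      refine ⟨hr _ _ h1, ?_⟩
      rw [hRV, h1]
    obtain ⟨m₁, hm₁⟩ := hFR M p R r F H hRed
    have hW₁ := hm₁ (wt m (shl G m) (shl G m₁)) (fun q hq => wt_low2 G m m₁ q hq)
    refine ⟨fun x => pr (eT (shl G m₁)) (F.run (join (wt m (shl G m) (shl G m₁)) C) x),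
      fun q => H.run (join (wt m (shl G m) (shl G m₁)) C) (pr q.1 q.2), ?_, ?_, ?_⟩
    · refine ((hCnv C).1 _).2 ?_
      have he : PTF (fun z : Str => (shl G m₁, z)) := (PTF.const _).pair PTF.id
      have h1 := Cndg.qc_pre (hTab m (shl G m) F C) he
      have h2 : PTF (fun z : Str => pr (eT (shl G m₁)) z) := by
        unfold pr
        fun_prop
      exact Cndg.qc_cmp hCmp ((hEas _ _ C).1 _ h2) h1
    · refine ((hCnv C).2.2 _).2 ?_
      have he : PTF (fun q : Str × Str => (shl G m₁, pr q.1 q.2)) := by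
        have h2 : PTF (fun q : Str × Str => pr q.1 q.2) := by
          unfold pr
          fun_prop
        exact (PTF.const _).pair h2
      exact Cndg.qc_pre
        (g := fun p : List Str × Str => H.run (join (wt m (shl G m) p.1) C) p.2)
        (e := fun q : Str × Str => (shl G m₁, pr q.1 q.2)) (hTab m (shl G m) H C) he
    · intro x w hw
      rw [UU_iff] at hw
      have e1 : dec2 (pr (eT (shl G m₁)) (F.run (join (wt m (shl G m) (shl G m₁)) C) x)) =
          (eT (shl G m₁), F.run (join (wt m (shl G m) (shl G m₁)) C) x) := dec2_dl _ _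
      rw [e1] at hw
      simp only [hde] at hw
      have h2 := (hW₁ x w hw).2
      rw [hRV] at h2
      simpa using h2

end Pool.Agent.GW
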