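import Pool.Agent.Work.MP_46935e_lc.GW.Stmts

/-!
# Block GW, item Loc
-/

set_option autoImplicit false

noncomputable section

namespace Pool.Agent.GW

open Pool.Agent.RO Pool.Agent.S1 Pool.Agent.PT Pool.Agent.Work.MP_46935e_lc N68a2faeb

theorem prf_Loc (hCgr : StCgr) : StLoc := by
  intro M O O' z h
  have H : ∀ i, i < M.N.eval (sz z) →
      O' (M.Q (z, qans M.Q O z i)) = O (M.Q (z, qans M.Q O z i)) := by
    intro i hi
    exact h _ (List.mem_map.2 ⟨i, List.mem_range.2 hi, rfl⟩)
  have E := hCgr Str M.Q O O' z (M.N.eval (sz z)) H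
  constructor
  · show M.out (z, qans M.Q O' z (M.N.eval (sz z))) = M.out (z, qans M.Q O z (M.N.eval (sz z)))
    rw [E _ le_rfl]
  · show (List.range (M.N.eval (sz z))).map (fun i => M.Q (z, qans M.Q O' z i)) =
      (List.range (M.N.eval (sz z))).map (fun i => M.Q (z, qans M.Q O z i))
    refine List.map_congr_left fun i hi => ?_
    rw [E i (List.mem_range.1 hi).le]

end Pool.Agent.GW
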