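import Pool.Agent.Work.MP_46935e_lc.GW.Defs

/-!
# Block GW (generic world), MP_46935e_lc: statements.  Captain helper16

Each `def StXXX` is one item; its docstring is the complete proof.  File `GW/I_XXX.lean`, main theorem
`prf_XXX` in the namespace `Pool.Agent.GW`, other statements as hypotheses (`(hCmp : StCmp)` ...).
Closure properties of `PTF` are proved by `fun_prop` (`Work/PT/Auto.lean`); for polynomials `ptf_eval`,
for sizes `ptf_sz`, `sz_pair`, `sz_bits`, `length_le_sz`, `eval_mono`, `(h : PTF f).size`.
-/

set_option autoImplicit false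

noncomputable section

namespace Pool.Agent.GW

open Pool.Agent.RO Pool.Agent.S1 Pool.Agent.PT Pool.Agent.Work.MP_46935e_lc N68a2faeb
open Topology

/-! ## A. Query computable functions -/

/-- LEN.  Induction on `n`; the second part: `take` of the initial segment. -/
def StLen : Prop := ∀ (α : Type) (Q : α × Str → Str) (O : World) (x : α) (n : ℕ),
  (qans Q O x n).length = n ∧ ∀ m, m ≤ n → (qans Q O x n).take m = qans Q O x m

/-- APP (concatenation of two phases; uses Len).  If `Q'` behaves like `Q` as long as fewer than `n`
answers are there, and then like `Q₂` on the input `x₂` with the answers after the first `n`.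
Induction on `m`. -/
def StApp : Prop := ∀ (α β : Type) (Q Q' : α × Str → Str) (Q₂ : β × Str → Str) (O : World) (x : α)
  (x₂ : β) (n : ℕ), (∀ a : Str, a.length < n → Q' (x, a) = Q (x, a)) →
  (∀ b : Str, Q' (x, qans Q O x n ++ b) = Q₂ (x₂, b)) →
  ∀ m, qans Q' O x (n + m) = qans Q O x n ++ qans Q₂ O x₂ m

/-- CGR (congruence).  The answers depend only on the values of the oracle at the queries.
Induction on `n`. -/
def StCgr : Prop := ∀ (α : Type) (Q : α × Str → Str) (O O' : World) (x : α) (n : ℕ),
  (∀ i, i < n → O' (Q (x, qans Q O x i)) = O (Q (x, qans Q O x i))) → ∀ i, i ≤ n → qans Q O' x i = qans Q O x i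

/-- EAS (three easy cases; uses Len).  (1) `N = 0`.  (2) `N = 1`, `Q (x, a) = q x`, `out (x, a) = a.headD false`.
(3) `out (x, a) = a`. -/
def StEas : Prop := ∀ (α β : Type) [Enc α] [Enc β] (O : World),
  (∀ f : α → β, PTF f → QC O f) ∧ (∀ q : α → Str, PTF q → QC O (fun x => O (q x))) ∧
  ∀ (Q : α × Str → Str) (N : Polynomial ℕ), PTF Q → QC O (fun x => qans Q O x (N.eval (sz x)))

/-- CMP (composition; uses Len, App).  Let `f` be given by `Q₁, N₁, out₁`, `h` by `Q₂, N₂, out₂`.  Put
`n₁ = N₁ (sz x)`, `y = out₁ (x, a.take n₁)` (it is `f x` as soon as `n₁` answers are there),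
`Q (x, a) = if a.length < n₁ then Q₁ (x, a) else Q₂ ((x, y), a.drop n₁)`,
`out (x, a) = out₂ ((x, y), (a.drop n₁).take (N₂ (sz (x, y))))`.  The number of rounds: `sz (x, f x)` is bounded
by a polynomial `B (sz x)` (`PTF.size` of `out₁`, the answer list has length `n₁`, `sz_bits`), take
`N = N₁ + N₂ (B)` (composition of polynomials; `eval_mono`).  By App the answers are
`qans Q₁ .. n₁ ++ qans Q₂ (x, f x) m`, `m = N₂ (B (sz x)) ≥ N₂ (sz (x, f x))`; Len for the prefix. -/
def StCmp : Prop := ∀ (α β γ : Type) [Enc α] [Enc β] [Enc γ] (O : World) (f : α → β)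
  (h : α × β → γ), QC O f → QC O h → QC O (fun x => h (x, f x))

/-- MAP (a query computable function applied to the elements of a list; uses Len, App).  Let `t` be given by
`Q, N, out`, `B` a polynomial with `sz (x, b) ≤ B (sz x)` for `b ∈ l x` (`PTF.size` of `l`, `sz_le_of_mem`) and
`(l x).length ≤ B (sz x)`; `r = N (B (sz x)) + 1` rounds for each element:
`Q' (x, a) = ` with `j = a.length / r`, `b_j = (l x)[j]?`: `Q ((x, b_j), a.drop (r j))` if `j < (l x).length` and `[]`
otherwise; `out' (x, a) = ` the list of the `out ((x, b), (a.drop (r j)).take (N (sz (x, b))))`, `j < (l x).length`,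
`b = (l x)[j]`; rounds `r * B (sz x)`.  By induction on `j` (App) the answers after `r j` rounds, `j ≤ (l x).length`,
are the concatenation of the blocks `qans Q O (x, b_i) r`, `i < j`.  To avoid default elements work with
`(l x).zipIdx` or with `(l x)[j]?.map` and `List.filterMap`/`optToList` and `flatMap` (`some`-valued). -/
def StMap : Prop := ∀ (α β γ : Type) [Enc α] [Enc β] [Enc γ] (O : World) (l : α → List β)
  (t : α × β → γ), PTF l → QC O t → QC O (fun x => (l x).map (fun b => t (x, b)))

/-- CNV (comparison with `IsPolyTimeRel`; uses Len).  Let `α` be `Str` or `Str × Str`, `β` be `Str` or `Bool`.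
(→) `g, p`: let `hd (x, a)` be the first `i ≤ a.length` with `(g (x, a.take i)).1 = true` (`find?` on `range`);
`Q (x, a) = [] ` if there is one and `(g (x, a)).2` if not; `out (x, a) = dec ((g (x, a.take i)).2)` for this `i` (a default
value if there is none), `dec` inverse to `bitEncode` (`unB`, `headD`; `bitEncode_list`, `unB_encB`; `bitEncode (b : Bool) = [b]`
as in `S1/Fin.lean`).  Rounds: `p` of the length of `bitEncode x`, a polynomial in the lengths, at most a polynomial in `sz x`
(`length_bitEncode_pair`, `length_le_sz`, `eval_mono`; more rounds are harmless, `orun_mono`).  By induction on `t`: if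
`orun g O x t a = some y` and no proper initial segment of `a` halts, then the run of `Q` continued from `a` for `t` rounds
has a halting initial segment with value `y`.  (←) `g (x, a) = (true, bitEncode (out (x, a)))` if `a.length = N (sz x)`
(or `≥`), `(false, Q (x, a))` otherwise; `p` a polynomial with `N (sz x) + 1 ≤ p (length of bitEncode x)` (`sz_bits`);
`orun g O x (n + 1 - i) (qans Q O x i) = some ..` by induction.  `ptf_of_P`, `of_ptf_P`, `ptf_of_T`, `of_ptf_T` (RO/Acc). -/
def StCnv : Prop := ∀ O : World, (∀ f : Str → Str, IsPolyTimeRel O f ↔ QC O f) ∧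
  (∀ V : Str × Str → Bool, IsPolyTimeRel O V ↔ QC O V) ∧ ∀ h : Str × Str → Str, IsPolyTimeRel O h ↔ QC O h

/-! ## B. Machines -/

/-- MCH (uses Cmp, Eas, Len).  (1) definition.  (2) `V` composed with `dec2` (PTF, `ptf_dec2`) and `b ↦ [b]`; rounds:
polynomial in `sz`, `QC` of the composition by Cmp and Eas.  (3) `pr` is PTF (`ptf_dl`). -/
def StMch : Prop := (∀ (O : World) (f : Str → Str), QC O f ↔ ∃ M : Mach, ∀ z, M.run O z = f z) ∧
  (∀ (O : World) (V : Str × Str → Bool), QC O V → ∃ M : Mach, ∀ x w, M.run O (pr x w) = [V (x, w)]) ∧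
  (∀ (O : World) (h : Str × Str → Str), QC O h → ∃ M : Mach, ∀ x w, M.run O (pr x w) = h (x, w)) ∧
  ∀ (O : World) (M : Mach), QC O (M.run O) ∧ QC O (M.qs O) ∧
    QC O (fun p : Str × Str => M.run O (pr p.1 p.2)) ∧ QC O (fun p : Str × Str => M.qs O (pr p.1 p.2))

/-- BND (uses Len).  `PTF.size` of `Q` and `out` (`exists k, ... ≤ (sz + 2)^k`); the answer lists have length at most
`N (sz z)`; `length_le_sz`, `sz_bits`, `sz_pair`, `eval_mono`. -/
def StBnd : Prop := ∀ M : Mach, ∃ P : Polynomial ℕ, ∀ (O : World) (z : Str),
  (M.run O z).length ≤ P.eval z.length ∧ (M.qs O z).length ≤ P.eval z.length ∧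
  ∀ q ∈ M.qs O z, q.length ≤ P.eval z.length

/-- LOC (uses Cgr). -/
def StLoc : Prop := ∀ (M : Mach) (O O' : World) (z : Str), (∀ q ∈ M.qs O z, O' q = O q) →
  M.run O' z = M.run O z ∧ M.qs O' z = M.qs O z

/-- CNT.  `Polynomial ℕ` is countable (`countable_polyN`), the functions `Str × Str → Str` with `PTF` are countable:
`countable_ipt` for `α = Str × Str`, `β = Str` and the passage from `PTF` to `IsPolyTime` (as `of_ptf_P`, with
`tm2_of_ptf`, `ptf_decP`, `decP_enc` and the encoding `encB` of strings).  See the instance `Countable VD` in `S1/Inst.lean`. -/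
def StCnt : Prop := Countable Mach ∧ Countable (Dat × Polynomial ℕ)

/-- UNI (universal machine; uses Len, Cgr).  `UE O (κ, z)`: decode `κ` (by `parse`, `dLN`, `dN`, see `RobustRun.lean`) as
`((c₁, c₂), (n, t))` (two programs, two numbers); let `Q' (x, a) = univ c₁ t (ser (z, a))` and
`out' = univ c₂ t (ser (z, a))`; `n` rounds: `UE O (κ, z) = univ c₂ t (ser (z, qans Q' O z n))`.  It is query computable:
`Q ((κ, z), a) = univ c₁ t (ser (z, a))`, number of rounds `sz κ ≥ n` (numbers are coded in unary: `sz_nat`; if `κ` is not a
code the decoded number is still `≤ sz κ`), `out ((κ, z), a) = univ c₂ t (ser (z, a.take n))` (Len).  For a machine `M` take the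
programs of `(z, a) ↦ M.Q (z, a)` and of `(z, a) ↦ M.out (z, a.take (M.N.eval (sz z)))` (`exists_program` and
`tm2_raw` as in the proof of `compile` in `RobustRun.lean`: `univ c t (ser (z, a)) = F (z, a)` if `t ≥ (sz z + sz a + 3)^k`),
`κ n = ser ((c₁, c₂), (n, (9 n + 9)^k))`, `P` with `P (z.length) ≥ M.N.eval (sz z)` and `≥ z.length` (`sz_bits`: `sz z ≤ 4 z.length + 1`,
`sz a ≤ 4 n + 1` for `a` of length `≤ n`). -/
def StUni : Prop := ∃ UE : World → Str × Str → Str, (∀ O, QC O (UE O)) ∧
  ∀ M : Mach, ∃ κ : ℕ → Str, PTF κ ∧ ∃ P : Polynomial ℕ, ∀ (O : World) (z : Str) (n : ℕ),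
    P.eval z.length ≤ n → UE O (κ n, z) = M.run O z

/-! ## C. Every world: a complete TFNP problem gives a complete pair -/

/-- PUD (uses Cnv, Cmp, Eas, Mch, Bnd, Uni).  Let `S` be complete, `|s| ≤ p(|y|)` for the solutions `s` of `y`.  An
instance `z` is decoded as `z = pr x (pr κ₁ κ₂)` (`dec2` twice; every string is decoded to something).  Let
`y = UE O (κ₁, x)` and `N_b(z)`: some `s` with `S (y, s)` and `(UE O (κ₂, pr x s)).headD false = b`.  `S` is total, so
`N_false` or `N_true` holds for every `z`.  Both are in NP relative to `O` (Cnv, Cmp, Mch; the length of `s` is at most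
`p(|y|)`, and `|y| ≤ P'(|z|)` because `UE O` is query computable: its output length is polynomially bounded, Bnd for the
machine of `UE O` composed with `dec2`).  `A z = decide (¬ N_false z)`, `B z = decide (¬ N_true z)`.  Given a
disjoint pair `A', B'` relative to `O` with verifiers `V_0'`, `V_1'` of the complements of `A'`, `B'` (bounds `p_0'`, `p_1'`):
`V' (x, u)` := `u = b :: w`, `|w| ≤ p_b' (|x|)` and `V_b' (x, w)`; it is a TFNP problem (total because `A'`, `B'` are
disjoint).  So there are `f, h` with `S (f x, s) → V' (x, h (x, s))`.  Take machines for `f` and for `h` (Mch), `κ₁`,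
`κ₂` from Uni and a number `n(x)` = a polynomial of `|x|` which is `≥ P₁(|x|)` and `≥ P₂(|pr x s|)` for all
`|s| ≤ p(|f x|)` (Bnd for `f`).  The reduction is `x ↦ pr x (pr (κ₁ (n x)) (κ₂ (n x)))` (PTF, Eas, Cnv).  If `A' x` and
not `A z` then `N_false z`: some `s` with `S (f x, s)` and first bit of `h (x, s)` `false`, so `V_0' (x, w)`, a contradiction; the same
for `B'`. -/
def StPud : Prop := ∀ O : World, HasTFNP O → HasPair O

/-! ## D. The generic world -/

/-- CLO (closed; uses Loc, Bnd).  The complement is open: if `total` fails at `x` it fails for all `G'` which agree with `G`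
at the finitely many queries (to `G`) of `R` on the finitely many `pr x w`, `|w| ≤ pR`; if `redA` fails at `x, u` it fails for
all `G'` which agree with `G` at the queries of `f` on `x`, of `A` on `pr (f x) u`, of `R` on the `pr x w`, and at the
`cpos .. x w` (Loc).  Topology of `Str → Bool`: product of discrete spaces; a set `U` is a neighbourhood of `G` if for some
`m` it contains all `G'` which agree with `G` on the strings of length `< m` (finite intersection of open conditions,
`mem_nhds_iff`, `isOpen_set_pi` or continuity of evaluations). -/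
def StClo : Prop := ∀ (D : Dat) (P : Polynomial ℕ) (C : World), IsClosed {G : World | Good D P C G}

/-- COM (comeagre; uses Clo, Cnt).  For a closed set `K` the set of the `G` with `G ∈ K → G ∈ interior K` contains the
complement of the frontier, which is open and dense (`IsClosed.frontier..`: `interior (frontier K) = ∅`), so it is residual
(`residual_of_dense_open`); countable intersection over `(D, P)` (`countable_iInter_mem` or
`Filter.eventually_countable_forall`); `G ∈ interior K` gives a finite set of coordinates (basis of the product topology) and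
`m` larger than the lengths of its elements. -/
def StCom : Prop := ∀ C : World, {G : World | ∀ (D : Dat) (P : Polynomial ℕ), Good D P C G →
  ∃ m, Forced D P C G m} ∈ residual World

/-- COR (the core; uses Loc).  Case `A` (case `B` with the other colour).  Let `O = join G C`, `y = D.f.run O x`,
`Sol D.A D.pA O y u`, `T` the finite set of the queries of `f` on `x` and of `A` on `pr y u`.  Let `G'` be `G` with the value
`true` at all positions `cpos (P |x|) x w` with `true :: cpos (P |x|) x w ∉ T`.  `G'` agrees with `G` on the strings of length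
`< m` (`m ≤ |x| < ` length of `cpos .. x w`).  Relative to `O' = join G' C` the runs of `f` on `x` and of `A` on `pr y u` are the
same (Loc: their queries are not changed), and the runs of `R` on `pr x w`, `|w| ≤ pR`, too (Pad: their queries are not
longer than `P |x|`, the changed positions `true :: cpos ..` are longer).  `Good D P C G'` gives `w` with `Sol D.R D.pR O' x w`,
so `Sol D.R D.pR O x w`, and `G' (cpos .. x w) = false`, so `true :: cpos .. x w ∈ T`, and `pw` of it is `w` (`dec2_dl`;
`idxOf false` of `true^(m+1) false ..` is `m + 1`). -/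
def StCor : Prop := ∀ (D : Dat) (P : Polynomial ℕ) (C G : World) (m : ℕ), Pad D P → Forced D P C G m →
  ∀ x : Str, m ≤ x.length → ∀ u : Str,
  (Sol D.A D.pA (join G C) (D.f.run (join G C) x) u →
    ∃ w ∈ cands D.f D.A (join G C) x u, Sol D.R D.pR (join G C) x w) ∧
  (Sol D.B D.pB (join G C) (D.f.run (join G C) x) u →
    ∃ w ∈ cands D.f D.B (join G C) x u, Sol D.R D.pR (join G C) x w)

/-- CND (uses Cmp, Map, Eas, Mch).  The function which, given `(x, u)` and a finite table, finds a solution: if `x` is the first
component of an element of the table `T` it returns the second component; otherwise the first element `w` of the list of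
candidates (of `f, A` if `u = false :: u'`, of `f, B` if `u = true :: u'`, with `u'`) which satisfies
`Sol R pR O x w` (`[]` if there is none).  `cands` is query computable (Mch, Cmp; `pw` is PTF), the tests by Map. -/
def StCnd : Prop := ∀ (D : Dat) (O : World) (T : List (Str × Str)), ∃ h : Str × Str → Str, QC O h ∧
  (∀ x w u, (x, w) ∈ T → (x, h (x, u)) ∈ T) ∧
  ∀ (x : Str) (b : Bool) (u : Str), (∀ w, (x, w) ∉ T) →
    (∃ w ∈ cands D.f (if b = true then D.B else D.A) O x u, Sol D.R D.pR O x w) →
    Sol D.R D.pR O x (h (x, b :: u))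

/-- REV (uses Cnv, Cmp, Eas, Mch, Bnd, Cor, Cnd).  `O = join G C`, `(A₀, B₀)` a complete pair, `V_0, V_1` verifiers of
the complements of `A₀`, `B₀` with bounds `p_0`, `p_1` and machines `MA`, `MB` (`MA.run O (pr y u) = [V_0 (y, u)]`).  Let
`S (y, u)` := `u = b :: u'`, `|u'| ≤ p_b (|y|)`, `V_b (y, u')`: TFNP problem (disjointness).  Let `V'` be a TFNP problem with
machine `MR` and bound `pR` (`V' (x, w) → |w| ≤ pR (|x|)`).  Choose `P` for which `Pad` holds (Bnd for `MR`:
`|pr x w| = 2 |x| + 1 + |w|`).  The pair `A_R x = decide (¬ ∃ w, Sol MR pR O x w ∧ G (cpos (P |x|) x w) = false)`, `B_R` with `true`, is a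
disjoint coNP pair relative to `O` (`V (x, w) := MR accepts (x, w) and O (true :: cpos ..) = b` is query computable, total problem),
so it reduces to `(A₀, B₀)` by a function with machine `f` (Cnv, Mch).  Hence `Good D P C G` for `D = (MR, pR, MA, p_0, MB, p_1, f)`: if
`Sol MA p_0 O (f x) u` then not `A₀ (f x)`, so not `A_R x`.  By hypothesis `Forced D P C G m` for some `m`.  Let `T` be a list of
pairs `(x, w)` with `Sol MR pR O x w` which contains one pair for every `x` of length `< m`.  `h` from Cnd; `V'` reduces to `S`
by `f` and `h` (Cor). -/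
def StRev : Prop := ∀ C G : World, (∀ (D : Dat) (P : Polynomial ℕ), Good D P C G → ∃ m, Forced D P C G m) →
  HasPair (join G C) → HasTFNP (join G C)

/-- The theorem (uses Pud, Com, Rev). -/
def StMain : Prop := (∀ O : World, HasTFNP O → HasPair O) ∧
  ∀ C : World, {G : World | HasPair (join G C) ↔ HasTFNP (join G C)} ∈ residual World

end Pool.Agent.GW
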