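import Pool.Agent.Work.MP_46935e_lc.GW.All
import Pool.Prelude.Def_F_c21d359f

/-!
# Block GW (generic world), part 2: descent, inseparable pairs.  Captain helper16

THEOREM 2 (descent).  For every oracle `C` and comeagrely many `G`: if TFNP relative to `join G C` has a complete problem
then TFNP relative to `C` has one.  Hence (with the oracle of `OracleTFNP`) adding a generic `G` can destroy complete pairs, and
if there is no complete disjoint coNP pair at all (Q1) then there is none relative to comeagrely many `G`.

THEOREM 3.  For every oracle `C` and comeagrely many `G` there is a disjoint coNP pair relative to `join G C` which is not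
separable in P relative to `join G C`.

Every item is a `Prop` `StXxx`; the docstring is the complete proof.  Items may use all items of part 1 (`prf_XXX` in
`GW/All.lean`; helper lemmas are in the item files, e.g. `Cndg.qc_pre` (QC of `f ∘ g`, `g` PTF), `Cndg.qc_cmp`, `Clog.ev_run`,
`Comg.agree`).
-/

set_option autoImplicit false

noncomputable section

namespace Pool.Agent.GW

open Pool.Agent.RO Pool.Agent.S1 Pool.Agent.PT Pool.Agent.Work.MP_46935e_lc N68a2faeb N08b01508
open Topology

/-! ## E. Descent -/

/-- The oracle which is given by the list `S` below `m` and by the list `T` from `m` on. -/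
def wt (m : ℕ) (S T : List Str) : World := fun q => if q.length < m then decide (q ∈ S) else decide (q ∈ T)

/-- `G` satisfies `K` only if a finite piece of `G` forces it. -/
def Fcd (K : Set World) (G : World) : Prop :=
  G ∈ K → ∃ m : ℕ, ∀ G' : World, (∀ q : Str, q.length < m → G' q = G q) → G' ∈ K

/-- `M`, `p` is total relative to `join G C`. -/
def Tot (M : Mach) (p : Polynomial ℕ) (C : World) : Set World := {G | ∀ x, ∃ w, Sol M p (join G C) x w}

/-- `F`, `H` reduce the search problem `R`, `r` to `M`, `p`, relative to `join G C`. -/
def Red (M : Mach) (p : Polynomial ℕ) (R : Mach) (r : Polynomial ℕ) (F H : Mach) (C : World) : Set World :=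
  {G | ∀ x w, Sol M p (join G C) (F.run (join G C) x) w →
    Sol R r (join G C) x (H.run (join G C) (pr x w))}

/-- FCD.  See the proof of `prf_Com`: `Fcd K` contains the complement of the frontier (`Comg.agree`). -/
def StFcd : Prop := ∀ K : Set World, IsClosed K → {G : World | Fcd K G} ∈ residual World

/-- CLT (uses Loc).  As in `prf_Clo` (`isClosed_iff_frequently`, `Clog.ev_run`, `Clog.ev_runs`): for fixed `x`, `w` all
conditions are the same for all `G'` near `G`. -/
def StClT : Prop := ∀ (M : Mach) (p : Polynomial ℕ) (R : Mach) (r : Polynomial ℕ) (F H : Mach) (C : World),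
  IsClosed (Tot M p C) ∧ IsClosed (Red M p R r F H C)

/-- COT (uses Fcd, ClT, Cnt).  Countable intersection (`countable_iInter_mem`; `Mach` and `Polynomial ℕ` are countable:
`countable_polyN`, product types). -/
def StCoT : Prop := ∀ C : World, {G : World | (∀ M p, Fcd (Tot M p C) G) ∧
  ∀ M p R r F H, Fcd (Red M p R r F H C) G} ∈ residual World

/-- TAB (uses Len).  Let `M = (Q, N, out)`.  The answer of `join (wt m S T) C` to a query `q`, given the bit `b = C (q.drop 1)`:
`an (T, q, b) = false` if `q = []`, `wt m S T (q.drop 1)` if the first bit of `q` is `true`, `b` otherwise (PTF: membership in a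
list, `m`, `S` constants).  `rp ((T, z), a)` = the list of the simulated answers: iterate `s ↦ s ++ [an (T, Q (z, s), a[s.length])]`,
`a.length` times, starting with `[]` (`PTF.nat_iterate_add`: the size grows by a constant in every step).  Let
`Q' ((T, z), a) = (Q (z, rp ((T, z), a))).drop 1`.  Induction on `i`: `rp ((T, z), qans Q' C (T, z) i) = qans Q (join (wt m S T) C) z i`
(`rp` of `a ++ [b]` is `rp a ++ [an (.., b)]`).  `out' ((T, z), a) = out (z, rp ((T, z), a.take (N (sz z))))`, rounds `N` (`sz z ≤ sz (T, z)`, Len). -/
def StTab : Prop := ∀ (m : ℕ) (S : List Str) (M : Mach) (C : World),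
  QC C (fun p : List Str × Str => M.run (join (wt m S p.1) C) p.2)

/-- JON.  `M' = (Q', N, out)`, `Q' (z, a) = false :: Q (z, a)`: the same answers. -/
def StJon : Prop := ∀ M : Mach, ∃ M' : Mach, ∀ (C G : World) (z : Str), M'.run (join G C) z = M.run C z

/-- DET.  `eT [] = []`, `eT (t :: T) = pr t (eT T) = dl t ++ eT T` (never empty).  `dT κ`: iterate
`(l, r) ↦ if r = [] then (l, r) else (l ++ [(dec2 r).1], (dec2 r).2)`, `κ.length` times, from `([], κ)`, first component (`dec2_dl`,
`ptf_dec2`; the size of the state is bounded: `PTF.nat_iterate`, or `nat_iterate_add` with `Q a = 4 * a.length + ..`; every step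
shortens `r`, `sz` of `(dec2 r).1` at most `sz r`). -/
def StDeT : Prop := ∃ (eT : List Str → Str) (dT : Str → List Str), PTF dT ∧ ∀ T, dT (eT T) = T

/-- DWN (uses Cnv, Mch, Cmp, Eas, Tab, Jon, DeT).  Let `V` be complete relative to `join G C`, `M` a machine with
`M.run (join G C) (pr x w) = [V (x, w)]` (Mch) and `p` its bound; so `Sol M p (join G C) x w ↔ V (x, w)`, `G ∈ Tot M p C`, forced by `m`.
Let `S` = the list of the strings `q`, `|q| < m`, `G q = true` (finite set, `List.finite_length_lt`, `Set.Finite.toFinset.toList`).  For
every `T` the world `wt m S T` agrees with `G` below `m`, so it is in `Tot M p C`.  Define, with `(κ, x) = dec2 y`, `W = wt m S (dT κ)`,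
`U (y, w) = decide (w.length ≤ p.eval x.length ∧ M.run (join W C) (pr x w) = [true])`.  `QC C U` by Tab, precomposed with
the PTF map `(y, w) ↦ (dT κ, pr x w)`; solutions are short (`|x| ≤ |y|`, bound of `dec2`; or use that `|w| ≤ p(|x|)` is at most a
polynomial in `|y|` by `PTF.size` of `dec2`); total.  `U` is complete: let `V'` be TFNP relative to `C`, `R₀` a machine with
`R₀.run C (pr x w) = [V' (x, w)]`, `r` its bound, `R` from Jon.  `V'` is a TFNP problem relative to `join G C`
(`V' (x, w) = (R.run (join G C) (pr x w)).headD false`), so there are `f`, `h` with machines `F`, `H` (`F.run = f`,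
`H.run (pr x w) = h (x, w)`), and `G ∈ Red M p R r F H C`, forced by `m₁`.  Let `T₁` = the list of the `q`, `|q| < m₁`, `G q = true`, `W₁ = wt m S T₁`: it
agrees with `G` below `m₁`, so `W₁ ∈ Red M p R r F H C`.  The reduction of `V'` to `U` relative to `C`:
`f' x = pr (eT T₁) (F.run (join W₁ C) x)`, `h' (x, w) = H.run (join W₁ C) (pr x w)`, both QC by Tab (constant `T₁`):
`U (f' x, w)` says `Sol M p (join W₁ C) (F.run (join W₁ C) x) w`, so `Sol R r (join W₁ C) x (h' (x, w))`, so
`R.run (join W₁ C) (pr x (h' (x, w))) = R₀.run C .. = [V' (x, h' (x, w))] = [true]`. -/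
def StDwn : Prop := ∀ C G : World, (∀ M p, Fcd (Tot M p C) G) → (∀ M p R r F H, Fcd (Red M p R r F H C) G) →
  HasTFNP (join G C) → HasTFNP C

/-- The empty oracle. -/
def nul : World := fun _ => false

/-- NUL (uses Cnv, Len).  `QC (join G nul) f ↔ QC G f` for all `f`: (←) queries `true :: q` (as in Jon); (→) query `q.drop 1` to `G`
and correct the answer: `false` if the first bit of `q` is not `true` (as in Tab, but the corrected answers `rp` use the query:
iterate `s ↦ s ++ [if (Q (z, s)).headD false = true then a[s.length] else false]`).  Then unfold: `IsPolyTimeRel` for the three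
types is `QC` by Cnv. -/
def StNul : Prop := ∀ G : World, (HasPair (join G nul) ↔ HasPair G) ∧ (HasTFNP (join G nul) ↔ HasTFNP G)

/-- FRO (uses Cnv, Len, Eas).  `qans Q nul x n = List.replicate n false`, so `QC nul f ↔ PTF f`; `PTF` and the frozen
`IsPolyTime` for `Str → Str` and `Str × Str → Bool`: `ptf_of_isPolyTime`, `ptf_of_isPolyTime_fun`, `isPolyTime_of_ptf..` in
`Frozen.lean`. -/
def StFro : Prop := HasPair nul ↔ ∃ A B : DecisionProblem, IsCompleteCoNPPair A B

/-! ## F. Inseparable pairs -/

/-- The hole of the pigeon `a`. -/
def hol (G : World) (x a : Str) : Str := (List.range x.length).map (fun i => G (cpos i x a))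

/-- `w` consists of two different pigeons (of length `|x| + 1`) with the same hole. -/
def Coll (G : World) (x w : Str) : Prop := w.length = 2 * (x.length + 1) ∧
  w.take (x.length + 1) ≠ w.drop (x.length + 1) ∧
  hol G x (w.take (x.length + 1)) = hol G x (w.drop (x.length + 1))

open Classical in
/-- No collision has the colour `!b`. -/
def cpair (b : Bool) (G : World) : DecisionProblem :=
  fun x => decide (¬ ∃ w, Coll G x w ∧ G (cpos x.length x w) = !b)

/-- PHP (uses Cnv, Cmp, Map, Eas, Mch).  Pigeonhole principle (`2^(n+1)` pigeons, `2^n` holes; `w = a ++ b`).  Disjoint: a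
collision has one of the two colours.  The complement of `cpair b G` is in NP relative to `join G C`: certificates `w`,
`|w| ≤ 2 (|x| + 1)`; the predicate `Coll G x w ∧ G (cpos |x| x w) = !b` of `(x, w)` is QC: `hol` by Map (`l = range`, one query
`true :: cpos i x a`, Eas (2)), boolean combinations of QC functions by Cmp (`Cndg.qc_pair`, `qc_cmp`). -/
def StPhp : Prop := ∀ C G : World, (∀ x, ∃ w, Coll G x w) ∧
  IsDisjointCoNPPairRel (join G C) (cpair true G) (cpair false G)

/-- ADV (adaptive adversary; pure combinatorics).  Induction on `n`: let `L` be the list for `n`, `q = Q (x, qans Q (W L) x n)`,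
`L' = L ++ touch q`.  By stability the answers of `W L` and `W L'` to the first `n` queries agree, so
`qans Q (W L') x i = qans Q (W L) x i` for `i ≤ n` (congruence Cgr); all queries number `≤ n` are touched by `L'`. -/
def StAdv : Prop := ∀ (α : Type) (Q : α × Str → Str) (x : α) (W : List Str → World) (touch : Str → List Str),
  (∀ q, (touch q).length ≤ 2) → (∀ (L L' : List Str) (q : Str), (∀ t ∈ touch q, t ∈ L) → W (L ++ L') q = W L q) →
  ∀ n, ∃ L : List Str, L.length ≤ 2 * n ∧ ∀ i, i < n → ∀ t ∈ touch (Q (x, qans Q (W L) x i)), t ∈ L

open Classical in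
/-- The world with holes of the pigeons in `L` given by their number in `L`, all collisions coloured `c` unless both
pigeons are in `L`; below `m` it is `G`. -/
def aw (G : World) (m : ℕ) (x : Str) (c : Bool) (L : List Str) : World := fun q =>
  if q.length < m then G q else
    decide ((∃ i a, a.length = x.length + 1 ∧ i < x.length ∧ q = cpos i x a ∧ (L.idxOf a).testBit i = true) ∨
      (c = true ∧ ∃ w, q = cpos x.length x w ∧
        ¬ (w.take (x.length + 1) ∈ L ∧ w.drop (x.length + 1) ∈ L)))

/-- The pigeons mentioned in a query. -/
def tch (x q : Str) : List Str := [(pw q).take (x.length + 1), (pw q).drop (x.length + 1)]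

/-- WOR.  `cpos` is injective in all arguments (`idxOf false` of `true^i false ..` is `i`; `dec2_dl`), `pw (true :: cpos i x w) = w`
(see Cor).  (1), (2): for `q = []` and `q = false :: z` trivial; for `q = true :: q'` with `q' = cpos i x a`, `i < |x|`, `|a| = |x| + 1` the first
touched string is `a`, and `idxOf a` is the same in `L` and `L ++ L'` if `a ∈ L`; for `q' = cpos |x| x w` the touched strings are
`w.take`, `w.drop`; if both are in `L` the value is `false` for all `c` and for `L`, `L ++ L'`; otherwise (`q'` of no such form, or
short) the value does not depend on `L`, `c`.  (3) `a = w.take (|x| + 1)`, `b = w.drop (|x| + 1)` have length `|x| + 1`; the positions are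
longer than `|x| ≥ m`.  If both are in `L`: the holes are the bits number `0, .., |x| - 1` of `idxOf a`, `idxOf b < 2^|x|`, so these are equal
(`Nat.eq_of_testBit_eq`, `Nat.testBit_lt_two_pow`) and `a = b`.  So not both are in `L`, and the value at `cpos |x| x w` is `c`. -/
def StWor : Prop := ∀ (G C : World) (m : ℕ) (x : Str),
  (∀ (c : Bool) (L L' : List Str) (q : Str), (∀ t ∈ tch x q, t ∈ L) →
    join (aw G m x c (L ++ L')) C q = join (aw G m x c L) C q) ∧
  (∀ (c c' : Bool) (L : List Str) (q : Str), (∀ t ∈ tch x q, t ∈ L) →
    join (aw G m x c' L) C q = join (aw G m x c L) C q) ∧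
  ∀ (c : Bool) (L : List Str), m ≤ x.length → L.length < 2 ^ x.length → ∀ w, Coll (aw G m x c L) x w →
    aw G m x c L (cpos x.length x w) = c

/-- The worlds relative to which the machine `M` separates the pair. -/
def Sp (M : Mach) (C : World) : Set World := {G | ∀ x,
  (cpair true G x = true → M.run (join G C) x = [true]) ∧
  (cpair false G x = true → M.run (join G C) x = [false])}

/-- CLS (uses Loc).  As `ClT`: for fixed `x` the finitely many values `G (cpos i x a)`, `i ≤ |x|`, `|a| ≤ 2 (|x| + 1)`, and the run of
`M` on `x` are the same for all `G'` near `G`, so `cpair b G' x = cpair b G x`. -/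
def StClS : Prop := ∀ (M : Mach) (C : World), IsClosed (Sp M C)

/-- BAD (uses Adv, Wor, Loc, Len).  Let `x = true^n`, `n ≥ m` so large that `2 N (sz x) < 2^n` (`sz` of a list of `n` bits is at most
`4 n + 1`, `sz_bits`; a polynomial is smaller than `2^n` for large `n`).  Adv with `Q = M.Q`, `W L = join (aw G m x true L) C`,
`touch = tch x`, `n = N (sz x)` gives `L`; by Wor (2) and Loc the run of `M` on `x` is the same relative to `join (aw G m x c L) C`,
`c = true, false`.  If it is `[true]` take `G' = aw G m x false L`: all collisions have the colour `false` (Wor (3)), so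
`cpair false G' x = true` but the value is not `[false]`; otherwise `G' = aw G m x true L`. -/
def StBad : Prop := ∀ (M : Mach) (C G : World) (m : ℕ), ∃ G' : World, (∀ q : Str, q.length < m → G' q = G q) ∧
  G' ∉ Sp M C

/-- INS (uses Fcd, ClS, Bad, Php, Cnt, Cnv, Mch).  By Bad and Fcd (countable intersection over `M`) comeagrely many `G` are in no
`Sp M C`.  If `S` is in P relative to `join G C` then `x ↦ [S x]` is too (`singleton_poly` in `S1`), it has a machine `M`, and if `S`
separates `(cpair true G, cpair false G)` then `G ∈ Sp M C`. -/
def StIns : Prop := ∀ C : World, {G : World | ∃ A B : DecisionProblem, IsDisjointCoNPPairRel (join G C) A B ∧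
  ∀ S : DecisionProblem, IsPolyTimeRel (join G C) S → ¬ Separates S A B} ∈ residual World

/-! ## G. A generic world with a complete problem (helper62) -/

/-- NVC (helper62).  A world `C` such that TFNP has a complete problem relative to `join G C` for comeagrely many `G`. -/
def StNvc : Prop := ∃ C : World, {G : World | HasTFNP (join G C)} ∈ residual World

end Pool.Agent.GW
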