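import Pool.Agent.Work.MP_46935e_lc.GW.Stmts2

/-!
# Block GW (generic world), part 3: generic worlds and the black-box class.  Captain helper16

`HasTFNPAll C`: the class of the search problems which are total for ALL oracles `G` (given by one oracle machine with access to
`join G C`), with reductions that are correct for all `G`, has a complete problem (black-box TFNP in the world `C`).

THEOREM 4 (zero-one law).  If `HasTFNPAll C` then TFNP relative to `join G C` has a complete problem for comeagrely many `G`;
otherwise it has none for comeagrely many `G`.  With part 1 the same holds for complete disjoint coNP pairs.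
-/

set_option autoImplicit false

noncomputable section

namespace Pool.Agent.GW

open Pool.Agent.RO Pool.Agent.S1 Pool.Agent.PT Pool.Agent.Work.MP_46935e_lc N68a2faeb N08b01508
open Topology

/-! ## H. Black-box TFNP -/

/-- A family `f G`, `G` any oracle, computed by one oracle procedure in polynomial time relative to `join G C`. -/
def IsPolyTimeAll {α β : Type} [N487b59b3 α] [N487b59b3 β] (C : World) (f : World → α → β) : Prop :=
  ∃ (g : α × List Bool → Bool × List Bool) (p : Polynomial ℕ), IsPolyTime g ∧
    ∀ G x, orun g (join G C) x (p.eval (N487b59b3.bitEncode x).length) [] =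
      some (N487b59b3.bitEncode (f G x))

/-- Search problems which are total for all oracles. -/
structure IsTFNPAll (C : World) (V : World → List Bool × List Bool → Bool) : Prop where
  poly : IsPolyTimeAll C V
  bounded : ∃ p : Polynomial ℕ, ∀ G x w, V G (x, w) = true → w.length ≤ p.eval x.length
  total : ∀ G x, ∃ w, V G (x, w) = true

/-- Reductions which are correct for all oracles. -/
def SearchReducibleAll (C : World) (V V' : World → List Bool × List Bool → Bool) : Prop :=
  ∃ (f : World → List Bool → List Bool) (h : World → List Bool × List Bool → List Bool),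
    IsPolyTimeAll C f ∧ IsPolyTimeAll C h ∧
      ∀ G x w, V' G (f G x, w) = true → V G (x, h G (x, w)) = true

/-- Black-box TFNP in the world `C` has a complete problem. -/
def HasTFNPAll (C : World) : Prop := ∃ V, IsTFNPAll C V ∧ ∀ V', IsTFNPAll C V' → SearchReducibleAll C V' V

/-- UCV (uniform conversion; copy of the proof of `prf_Cnv` and `prf_Mch`, where the machine does not depend on the oracle).
(1), (3), (5): from a step function `g` and `p` to a machine; (2), (4), (6): from a machine to a step function. -/
def StUcv : Prop := ∀ C : World,
  (∀ f : World → Str → Str, IsPolyTimeAll C f ↔ ∃ M : Mach, ∀ G z, M.run (join G C) z = f G z) ∧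
  (∀ V : World → Str × Str → Bool, IsPolyTimeAll C V ↔
    ∃ M : Mach, ∀ G x w, M.run (join G C) (pr x w) = [V G (x, w)]) ∧
  (∀ h : World → Str × Str → Str, IsPolyTimeAll C h ↔
    ∃ M : Mach, ∀ G x w, M.run (join G C) (pr x w) = h G (x, w))

/-- UCM (closure of machines under composition, uniformly in the oracle).  (1) PTF functions before and after: `Q` and `out`
composed with `s` (`sz (s z)` is bounded by a polynomial in `sz z`: ask more rounds and cut with `take`, as in `Pudg.comp_ptf`, Len), with a
parameter of the input also available to the output function.  (2) Two machines one after the other (as in `prf_Cmp`). -/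
def StUcm : Prop := (∀ (M : Mach) (s : Str → Str) (o : Str × Str → Str), PTF s → PTF o →
    ∃ M' : Mach, ∀ O z, M'.run O z = o (z, M.run O (s z))) ∧
  (∀ M₁ M₂ : Mach, ∃ M' : Mach, ∀ O z, M'.run O z = M₂.run O (M₁.run O z))

/-- SIM (simulation of another oracle; copy of the proof of Tab).  `t` translates the queries, `a` the answers.  `M = (Q, N, out)`.
`rp ((c, z), A)` = the list of the simulated answers, given the list `A` of the answers of `O`: iterate
`s ↦ s ++ [a ((c, Q (z, s)), A[s.length])]`, `A.length` times.  `Q' (y, A) = t (c, Q (z, rp ((c, z), A)))`, `(c, z) = dec2 y`; `out' (y, A) =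
out (z, rp ((c, z), A.take (N (sz z))))`; rounds: a polynomial in `sz y` which is `≥ N (sz z)` (`PTF.size` of `dec2`).  Induction:
`rp ((c, z), qans Q' O y i) = qans Q O' z i`. -/
def StSim : Prop := ∀ (M : Mach) (t : Str × Str → Str) (a : (Str × Str) × Bool → Bool), PTF t → PTF a →
  ∃ M' : Mach, ∀ (O O' : World) (c z : Str), (∀ q, O' q = a ((c, q), O (t (c, q)))) →
    M'.run O (pr c z) = M.run O' z

/-- `G` with the piece below `m` replaced by the list `S`. -/
def pat (m : ℕ) (S : List Str) (G : World) : World := fun q => if q.length < m then decide (q ∈ S) else G q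

/-- The part of `G` above `true^k false`. -/
def shf (k : ℕ) (G : World) : World := fun q => G (List.replicate k true ++ false :: q)

/-- Below `m` the list `S`, then below `k` the list `T`, and `G` itself moved above `true^k false`. -/
def wk (m : ℕ) (S T : List Str) (k : ℕ) (G : World) : World := fun q =>
  if q.length < m then decide (q ∈ S) else if q.length < k then decide (q ∈ T) else
    if q.take (k + 1) = List.replicate k true ++ [false] then G (q.drop (k + 1)) else false

/-- SI3 (uses Sim, DeT, Ucm).  (1) `c` not used (`c = []`; input `z`: compose with `z ↦ pr [] z`).  (2) `c` of length `k`: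
`t (c, true :: q) = true :: (true^k false q)`, other queries unchanged, answers unchanged.  (3) `c` with `dT c = true^k :: T` (any
`c` is decoded to some `k`, `T`: `k = ((dT c).headD []).length`, `T = (dT c).tail`): `t (c, true :: q) = true :: q.drop (k + 1)`, the answer is
`q ∈ S` if `|q| < m`, `q ∈ T` if `m ≤ |q| < k`, the bit if `q.take (k + 1) = true^k false`, `false` otherwise; `t` is the identity on `[]` and
`false :: q`.  In (3) the decoding functions `eT`, `dT` are those of DeT. -/
def StSi3 : Prop := ∀ (eT : List Str → Str) (dT : Str → List Str), PTF dT → (∀ T, dT (eT T) = T) →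
  (∀ (m : ℕ) (S : List Str) (M : Mach), ∃ M' : Mach, ∀ C G z, M'.run (join G C) z = M.run (join (pat m S G) C) z) ∧
  (∀ M : Mach, ∃ M' : Mach, ∀ C G c z, M'.run (join G C) (pr c z) = M.run (join (shf c.length G) C) z) ∧
  (∀ (m : ℕ) (S : List Str) (M : Mach), ∃ M' : Mach, ∀ C G c z, M'.run (join G C) (pr c z) =
    M.run (join (wk m S (dT c).tail ((dT c).headD []).length G) C) z)

/-- BB1 (uses Ucv, Ucm, Si3, Cnv, Mch).  Let `V` be complete.  `V G` is a TFNP problem relative to `join G C`.  Let `V'` be TFNP
relative to `join G C`, with machine `R`, bound `r`: `Sol R r (join G C) x w ↔ V' (x, w)`; `G ∈ Tot R r C` is forced by `m`.  `S` = the list of the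
`q`, `|q| < m`, `G q = true`; `pat m S G = G`, and `pat m S G'` agrees with `G` below `m` for all `G'`.  So
`V'' G' (x, w) = decide (Sol R r (join (pat m S G') C) x w)` is total for all `G'`, IsTFNPAll by Si3 (1), Ucm, Ucv.  It reduces to `V` by
`f`, `h`; then `f G`, `h G` reduce `V'` to `V G` (an `IsPolyTimeAll` family is `IsPolyTimeRel` for every single `G` by definition). -/
def StBB1 : Prop := ∀ C G : World, (∀ M p, Fcd (Tot M p C) G) → HasTFNPAll C → HasTFNP (join G C)

/-- BB2 (uses Ucv, Ucm, Si3, DeT, Cnv, Mch).  Let `V` be complete relative to `join G C`, with machine `M`, bound `p`;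
`G ∈ Tot M p C` forced by `m`, `S` = the list of the `q`, `|q| < m`, `G q = true`.  For `y` put `(c, x) = dec2 y`, `k = ((dT c).headD []).length`, `T = (dT c).tail`,
`U G' (y, w) = decide (Sol M p (join (wk m S T k G') C) x w)`: IsTFNPAll (`wk m S T k G'` agrees with `G` below `m`, Si3 (3)).  Let `V'` be
IsTFNPAll, with machine `R` (Ucv) and bound `r`.  `V₁ (y, w) = decide (Sol R r (join (shf k G) C) x w)` with `k = (dec2 y).1.length`,
`x = (dec2 y).2` is a TFNP problem relative to `join G C` (total because `V'` is total for all oracles), with machine `R₁` (Si3 (2): the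
same machine for all `G`) and bound `r₁`, so `F`, `H` with `G ∈ Red M p R₁ r₁ F H C`, forced by `m₁`.  `T₁` = the list of the `q`, `|q| < m₁`, `G q = true`,
`k₁ = max m m₁`, `c₁ = eT (true^k₁ :: T₁)`.  For every `G'` let `W = wk m S T₁ k₁ G'`: it agrees with `G` below `m₁`, so `W ∈ Red ..`, and
`shf k₁ W = G'`.  The reduction of `V'` to `U`: `f G' x = pr c₁ (F.run (join W C) (pr (true^k₁) x))`,
`h G' (x, w) = H.run (join W C) (pr (pr (true^k₁) x) w)`. -/
def StBB2 : Prop := ∀ C G : World, (∀ M p, Fcd (Tot M p C) G) → (∀ M p R r F H, Fcd (Red M p R r F H C) G) →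
  HasTFNP (join G C) → HasTFNPAll C

/-- BB3 (uses Ucv, Nul-type simulation Sim, Jon).  `V nul` for a complete `V`: relative to `join nul C` everything can be
simulated relative to `C` (Sim: `t (c, q) = q.drop 1`, the answer is the bit if the first bit of `q` is `false` and `q ≠ []`, `false` otherwise) and
conversely a problem `V'` relative to `C` gives the constant family `V'` (Jon), reduced to `V` by `f`, `h`; take `f nul`, `h nul`. -/
def StBB3 : Prop := ∀ C : World, HasTFNPAll C → HasTFNP C

end Pool.Agent.GW
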