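import Pool.Agent.Work.MP_46935e_lc.GW.Stmts3

/-!
# Block GW (generic world), part 4: black-box disjoint coNP pairs.  Captain helper16

THEOREM 5.  In every world `C`: black-box disjoint coNP pairs (disjoint for ALL oracles `G`, reductions correct for ALL `G`) have a
complete pair if and only if black-box TFNP has a complete problem.
-/

set_option autoImplicit false

noncomputable section

namespace Pool.Agent.GW

open Pool.Agent.RO Pool.Agent.S1 Pool.Agent.PT Pool.Agent.Work.MP_46935e_lc N68a2faeb N08b01508
open Topology

/-- A family of languages in coNP relative to `join G C`, uniformly in `G`. -/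
def CoNPAll (C : World) (A : World → DecisionProblem) : Prop :=
  ∃ (p : Polynomial ℕ) (V : World → List Bool × List Bool → Bool), IsPolyTimeAll C V ∧
    ∀ G x, A G x = false ↔ ∃ w : List Bool, w.length ≤ p.eval x.length ∧ V G (x, w) = true

/-- Disjoint coNP pairs which are disjoint for all oracles. -/
structure IsPairAll (C : World) (A B : World → DecisionProblem) : Prop where
  memA : CoNPAll C A
  memB : CoNPAll C B
  disjoint : ∀ G x, ¬ (A G x = true ∧ B G x = true)

/-- Reductions of pairs which are correct for all oracles. -/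
def PairReducibleAll (C : World) (A B A' B' : World → DecisionProblem) : Prop :=
  ∃ f : World → List Bool → List Bool, IsPolyTimeAll C f ∧
    ∀ G, (∀ x, A G x = true → A' G (f G x) = true) ∧ (∀ x, B G x = true → B' G (f G x) = true)

/-- In the world `C` there is a complete black-box disjoint coNP pair. -/
def HasPairAll (C : World) : Prop := ∃ A B, IsPairAll C A B ∧
  ∀ A' B', IsPairAll C A' B' → PairReducibleAll C A' B' A B

/-- Machines and bounds for the complements of the two languages of a pair. -/
structure PD where
  A : Mach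
  pA : Polynomial ℕ
  B : Mach
  pB : Polynomial ℕ

/-- The pair given by `D` is disjoint relative to `join G C`. -/
def Dis (D : PD) (C : World) : Set World :=
  {G | ∀ x, (∃ w, Sol D.A D.pA (join G C) x w) ∨ ∃ w, Sol D.B D.pB (join G C) x w}

/-- `F` reduces the pair given by `D'` to the pair given by `D`, relative to `join G C`. -/
def PRd (D D' : PD) (F : Mach) (C : World) : Set World :=
  {G | ∀ x, ((∃ u, Sol D.A D.pA (join G C) (F.run (join G C) x) u) → ∃ w, Sol D'.A D'.pA (join G C) x w) ∧
    ((∃ u, Sol D.B D.pB (join G C) (F.run (join G C) x) u) → ∃ w, Sol D'.B D'.pB (join G C) x w)}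

/-- CLP (uses Loc).  Closed: as `ClT`, `Clo` (`Clog.ev_run`, `Clog.ev_runs`): for fixed `x` all runs in question (finitely many `u`, `w`) are
the same for all `G'` near `G`. -/
def StClP : Prop := ∀ (D D' : PD) (F : Mach) (C : World), IsClosed (Dis D C) ∧ IsClosed (PRd D D' F C)

/-- COP (uses Fcd, ClP, Cnt). -/
def StCoP : Prop := ∀ C : World, {G : World | (∀ D, Fcd (Dis D C) G) ∧ ∀ D D' F, Fcd (PRd D D' F C) G} ∈ residual World

/-- BP1 (uses Ucv, Ucm, Si3 (1), DeT, Cnv, Mch; model: BB1).  Let `(A, B)` be complete; `(A G, B G)` is a disjoint coNP pair relative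
to `join G C`.  Let `(A', B')` be one, with machines and bounds `D` for the complements: `G ∈ Dis D C`, forced by `m`; `S` = the list of the
`q`, `|q| < m`, `G q = true`.  `A'' G' x = decide (¬ ∃ w, Sol D.A D.pA (join (pat m S G') C) x w)`, `B''` in the same way: IsPairAll
(`pat m S G'` agrees with `G` below `m`), reduces to `(A, B)` by `f`; `f G` reduces `(A', B')` to `(A G, B G)` (`pat m S G = G`). -/
def StBP1 : Prop := ∀ C G : World, (∀ D, Fcd (Dis D C) G) → HasPairAll C → HasPair (join G C)

/-- BP2 (uses Ucv, Ucm, Si3, DeT, Cnv, Mch; model: BB2).  Let `(A, B)` be complete relative to `join G C`, with machines and bounds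
`D`; `G ∈ Dis D C` forced by `m`, `S` as in BP1.  For `y` put `(c, x) = dec2 y`, `k = ((dT c).headD []).length`, `T = (dT c).tail`,
`UA G' y = decide (¬ ∃ w, Sol D.A D.pA (join (wk m S T k G') C) x w)`, `UB` in the same way: IsPairAll (`p (|x|)` is at most a
polynomial in `|y|`; the length bound `|w| ≤ p (|x|)` is tested by the verifier).  Let `(A', B')` be IsPairAll with machines and bounds `D'`.
`A₁ y = A' (shf k G) x`, `k = (dec2 y).1.length`, `x = (dec2 y).2`, `B₁` in the same way, is a disjoint coNP pair relative to `join G C`, with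
machines and bounds `D₁` (Si3 (2), the same machines for all `G`), so it reduces to `(A, B)` by `F` and `G ∈ PRd D D₁ F C`, forced by `m₁`.
`T₁` = the list of the `q`, `|q| < m₁`, `G q = true`, `k₁ = max m m₁`, `c₁ = eT (true^k₁ :: T₁)`.  For every `G'` let
`W = wk m S T₁ k₁ G'`: it agrees with `G` below `m₁`, so `W ∈ PRd ..`, and `shf k₁ W = G'`.  The reduction of `(A', B')` to `(UA, UB)`:
`f G' x = pr c₁ (F.run (join W C) (pr (true^k₁) x))`. -/
def StBP2 : Prop := ∀ C G : World, (∀ D, Fcd (Dis D C) G) → (∀ D D' F, Fcd (PRd D D' F C) G) →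
  HasPair (join G C) → HasPairAll C

end Pool.Agent.GW
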